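import Pool.Agent.TH214.Model
import Pool.Agent.W558.Var

/-! Resolution of the varieties whose function fields are given by twisted Laurent polynomials. -/

set_option autoImplicit false
set_option linter.unusedVariables false
set_option linter.unusedSectionVars false

universe u

open Pool.Agent.W558 Pool.Agent.W177.WD Polynomial TensorProduct AlgebraicGeometry CategoryTheory

namespace Pool.Agent.TH214

section coeff

variable (p : ℕ) [Fact p.Prime] (K : Type u) [Field K] [CharP K p]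

lemma zc_intCast (c : ℤ) : zc p K (c : ZMod p) = (c : K) := map_intCast _ _

/-- Coefficients in the prime field. -/
lemma exists_coeff {r : ℕ} {α β : Type} [Fintype α] [Fintype β] (w : Fin r → K) (f : α → K)
    (g : β → K) (hw : ∀ j, w j ^ p - w j ∈ AddSubgroup.closure (Set.range f ∪ Set.range g)) :
    ∃ (lam : Fin r → α → ZMod p) (mu : Fin r → β → ZMod p), ∀ j, w j ^ p - w j =
      ∑ i, zc p K (lam j i) * f i + ∑ t, zc p K (mu j t) * g t := by
  have h1 : ∀ j, ∃ (lam : α → ℤ) (mu : β → ℤ), w j ^ p - w j =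
      ∑ i, lam i • f i + ∑ t, mu t • g t := by
    intro j
    have h2 := hw j
    rw [AddSubgroup.closure_union, AddSubgroup.mem_sup] at h2
    obtain ⟨a, ha, c, hc, hac⟩ := h2
    rw [← Submodule.span_int_eq_addSubgroupClosure, Submodule.mem_toAddSubgroup,
      Submodule.mem_span_range_iff_exists_fun] at ha hc
    obtain ⟨lam, hl⟩ := ha
    obtain ⟨mu, hm⟩ := hc
    exact ⟨lam, mu, by rw [hl, hm, hac]⟩
  choose lam mu h using h1
  refine ⟨fun j i => (lam j i : ZMod p), fun j t => (mu j t : ZMod p), fun j => ?_⟩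
  rw [h j]
  simp only [zc_intCast, zsmul_eq_mul]

end coeff

section main

variable (p : ℕ) [Fact p.Prime] (k K : Type u) [Field k] [PerfectField k] [CharP k p] [Field K]
  [Algebra k K] (m n : ℕ) (x : Fin m → Fin 2 → K) (y : Fin n → K)
  (P Q : Fin m → MvPolynomial (Fin 2) k) (τ : Type) [Fintype τ] (F : τ → (Fin n → ℤ) →₀ k)
  (tw : τ → Prop) (U V : τ → Fin m → MvPolynomial (Fin 2) k) (b : τ → K)
  (r : ℕ) (w : Fin r → K)

/-- Smooth charts over the varieties. -/
theorem tw_LM (hxy : AlgebraicIndependent k (Sum.elim (fun q : Fin m × Fin 2 => x q.1 q.2) y))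
    (hQ : ∀ i, Q i ≠ 0) (hU : ∀ t i, U t i ≠ 0) (hV : ∀ t i, V t i ≠ 0) (hND : ND F tw)
    (hb1 : ∀ t, tw t → b t =
      ∏ i, MvPolynomial.aeval (x i) (U t i) / MvPolynomial.aeval (x i) (V t i))
    (hb0 : ∀ t, ¬ tw t → b t = 1)
    (hw : ∀ j, w j ^ p - w j ∈ AddSubgroup.closure
      ((Set.range fun i => MvPolynomial.aeval (x i) (P i) / MvPolynomial.aeval (x i) (Q i)) ∪
        Set.range fun t => b t * ∑ e ∈ (F t).support, F t e • ∏ l, y l ^ e l))
    (hgen : IntermediateField.adjoin k (Set.range w ∪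
      Set.range (Sum.elim (fun q : Fin m × Fin 2 => x q.1 q.2) y)) = ⊤)
    (A : Type u) [CommRing A] [IsDomain A] [Algebra k A] [Algebra.FiniteType k A] [Algebra A K]
    [IsScalarTower k A K] [IsFractionRing A K] (S : Finset A)
    (hS : ∀ a ∈ S, ∃ (R H : Fin m → MvPolynomial (Fin 2) k) (e : Fin n → ℤ),
      (∀ i, R i ≠ 0 ∧ H i ≠ 0) ∧ algebraMap A K a =
        (∏ i, MvPolynomial.aeval (x i) (R i) / MvPolynomial.aeval (x i) (H i)) *
          ∏ l, y l ^ e l)
    (hA : ∀ a : A, IsIntegral (Algebra.adjoin k (S : Set A)) a) :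
    ∃ (T I : Type) (_ : Finite T) (_ : Fintype I),
      Nonempty (LM (IsScalarTower.toAlgHom k A K).range (IsScalarTower.toAlgHom k A K).range
        T I) := by
  classical
  have hcK : CharP K p := charP_of_injective_algebraMap (algebraMap k K).injective p
  obtain ⟨lam, mu, hlm⟩ := exists_coeff p K w _ _ hw
  let ρ : A →ₐ[k] K := IsScalarTower.toAlgHom k A K
  have hρ : Function.Injective ρ := IsFractionRing.injective A K
  obtain ⟨e⟩ : Nonempty ({a // a ∈ S} ≃ Fin S.card) := ⟨S.equivFin⟩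
  choose R H ex hFH hFH' using fun b : Fin S.card => hS (e.symm b).1 (e.symm b).2
  obtain ⟨T, I, hT, hI, M, Γ, hFn, hR⟩ := tw_model p k K m n x y P Q τ F tw U V b r w lam mu
    hxy hQ hU hV hND hb1 hb0 hlm hgen
    (Fin S.card) (fun b => ρ (e.symm b).1) R H (fun b i => (hFH b i).1) (fun b i => (hFH b i).2)
    ex (fun b => hFH' b)
  have hfg : ρ.range.FG := by
    have h1 : (⊤ : Subalgebra k A).FG := Algebra.FiniteType.out
    have h2 := h1.map ρ
    rwa [Algebra.map_top] at h2
  have hint : ∀ y ∈ ρ.range, IsIntegral (Algebra.adjoin k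
      (Set.range fun b : Fin S.card => ρ (e.symm b).1)) y := by
    rintro _ ⟨a, rfl⟩
    have h1 : Algebra.adjoin k (Set.range fun b : Fin S.card => ρ (e.symm b).1) =
        (Algebra.adjoin k (S : Set A)).map ρ := by
      rw [AlgHom.map_adjoin]
      congr 1
      ext y
      constructor
      · rintro ⟨b, rfl⟩
        exact ⟨_, (e.symm b).2, rfl⟩
      · rintro ⟨a, ha, rfl⟩
        exact ⟨e ⟨a, ha⟩, by simp⟩
    rw [h1]
    obtain ⟨B, hB, hB'⟩ := hA a
    let φ : Algebra.adjoin k (S : Set A) →+* (Algebra.adjoin k (S : Set A)).map ρ :=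
      { toFun := fun y => ⟨ρ y, ⟨y, y.2, rfl⟩⟩
        map_one' := Subtype.ext (map_one ρ)
        map_mul' := fun y y' => Subtype.ext (map_mul ρ _ _)
        map_zero' := Subtype.ext (map_zero ρ)
        map_add' := fun y y' => Subtype.ext (map_add ρ _ _) }
    refine ⟨B.map φ, hB.map φ, ?_⟩
    rw [eval₂_map]
    have h2 : ((algebraMap ((Algebra.adjoin k (S : Set A)).map ρ) K).comp φ) =
        ρ.toRingHom.comp (algebraMap (Algebra.adjoin k (S : Set A)) A) := RingHom.ext fun y => rfl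
    rw [h2]
    have h3 := congrArg ρ.toRingHom hB'
    rw [hom_eval₂, map_zero] at h3
    exact h3
  have hfr : ∀ y : K, ∃ a ∈ ρ.range, ∃ b ∈ ρ.range, b ≠ 0 ∧ y = a * b⁻¹ := by
    intro y
    obtain ⟨a, b, hb, rfl⟩ := IsFractionRing.div_surjective (A := A) y
    exact ⟨_, ⟨a, rfl⟩, _, ⟨b, rfl⟩, by
      have := nonZeroDivisors.ne_zero hb
      exact (FaithfulSMul.algebraMap_eq_zero_iff A K).not.2 this, div_eq_mul_inv _ _⟩
  obtain ⟨T', I', hT', hI', M', -⟩ := wd_res k K T I (Fin S.card) M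
    (fun b => ρ (e.symm b).1) Γ hFn hR ρ.range hfg (fun b => ⟨_, rfl⟩) hint hfr
  exact ⟨T', I', hT', hI', ⟨M'⟩⟩

/-- Resolution of the varieties. -/
theorem tw_resolution
    (hxy : AlgebraicIndependent k (Sum.elim (fun q : Fin m × Fin 2 => x q.1 q.2) y))
    (hQ : ∀ i, Q i ≠ 0) (hU : ∀ t i, U t i ≠ 0) (hV : ∀ t i, V t i ≠ 0) (hND : ND F tw)
    (hb1 : ∀ t, tw t → b t =
      ∏ i, MvPolynomial.aeval (x i) (U t i) / MvPolynomial.aeval (x i) (V t i))
    (hb0 : ∀ t, ¬ tw t → b t = 1)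
    (hw : ∀ j, w j ^ p - w j ∈ AddSubgroup.closure
      ((Set.range fun i => MvPolynomial.aeval (x i) (P i) / MvPolynomial.aeval (x i) (Q i)) ∪
        Set.range fun t => b t * ∑ e ∈ (F t).support, F t e • ∏ l, y l ^ e l))
    (hgen : IntermediateField.adjoin k (Set.range w ∪
      Set.range (Sum.elim (fun q : Fin m × Fin 2 => x q.1 q.2) y)) = ⊤)
    (A : Type u) [CommRing A] [IsDomain A] [Algebra k A] [Algebra.FiniteType k A] [Algebra A K]
    [IsScalarTower k A K] [IsFractionRing A K] (S : Finset A)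
    (hS : ∀ a ∈ S, ∃ (R H : Fin m → MvPolynomial (Fin 2) k) (e : Fin n → ℤ),
      (∀ i, R i ≠ 0 ∧ H i ≠ 0) ∧ algebraMap A K a =
        (∏ i, MvPolynomial.aeval (x i) (R i) / MvPolynomial.aeval (x i) (H i)) *
          ∏ l, y l ^ e l)
    (hA : ∀ a : A, IsIntegral (Algebra.adjoin k (S : Set A)) a) :
    IsResolvableVariety (X := Spec (CommRingCat.of A))
      (Spec.map (CommRingCat.ofHom (algebraMap k A))) := by
  apply isResolvableVariety_spec
  obtain ⟨T, I, hT, hI, ⟨M⟩⟩ := tw_LM p k K m n x y P Q τ F tw U V b r w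
    hxy hQ hU hV hND hb1 hb0 hw hgen A S hS hA
  exact hasResolution_of_LM _ (IsFractionRing.injective A K) M

end main

end Pool.Agent.TH214
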