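import Pool.Agent.TH214.Twist

/-! Nondegeneracy over the algebraic closure implies nondegeneracy over all fields. -/

set_option autoImplicit false

universe u

namespace Pool.Agent.TH214

/-- Joint nondegeneracy at the geometric points. -/
def NDc {k : Type u} [Field k] {J τ : Type} [Fintype J] (F : τ → (J → ℤ) →₀ k) (tw : τ → Prop) :
    Prop :=
  ∀ (l : J → ℤ) (z : J → AlgebraicClosure k), (∀ j, z j ≠ 0) → ∀ t0,
    (tw t0 ∨ ∃ m ∈ (F t0).support, ∑ j, l j * m j < 0) →
    ∃ a : J → AlgebraicClosure k, der (F t0) l z a ≠ 0 ∧ ∀ t, t ≠ t0 →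
      (tw t ∨ ∃ m ∈ (F t).support, ∑ j, l j * m j ≤ 0) → der (F t) l z a = 0

section

variable {k : Type u} [Field k] {J : Type} [Fintype J]

lemma der_smul {κ : Type u} [Field κ] [Algebra k κ] (G : (J → ℤ) →₀ k) (l : J → ℤ) (z a : J → κ)
    (c : κ) : der G l z (fun j => c * a j) = c * der G l z a := by
  have h1 := der_add G l z (fun _ => 0) a c
  rw [der_zero, zero_add] at h1
  rw [← h1]
  congr 1
  funext j
  rw [zero_add]

/-- The logarithmic derivative as a linear form. -/
noncomputable def derL {κ : Type u} [Field κ] [Algebra k κ] (G : (J → ℤ) →₀ k) (l : J → ℤ)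
    (z : J → κ) : (J → κ) →ₗ[κ] κ where
  toFun a := der G l z a
  map_add' a b := by
    have h1 := der_add G l z a b 1
    simp only [one_mul] at h1
    exact h1
  map_smul' c a := der_smul G l z a c

lemma der_pi {κ : Type u} [Field κ] [Algebra k κ] [DecidableEq J] (G : (J → ℤ) →₀ k) (l : J → ℤ)
    (z a : J → κ) : der G l z a = ∑ j, a j * der G l z (Pi.single j 1) := by
  have h1 := der_sum G l z (Finset.univ : Finset J) a fun j => Pi.single j 1
  rw [← h1]
  congr 1
  funext i
  rw [Finset.sum_eq_single i]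
  · simp
  · intro j _ hj
    rw [Pi.single_eq_of_ne (Ne.symm hj), mul_zero]
  · intro h
    exact absurd (Finset.mem_univ _) h

/-- Base change. -/
lemma der_map {R κ κ' : Type u} [CommRing R] [Algebra k R] [Field κ] [Algebra k κ] [Field κ']
    [Algebra k κ'] (f : R →ₐ[k] κ) (g : R →ₐ[k] κ') (z : J → Rˣ) (a : J → R) (G : (J → ℤ) →₀ k)
    (l : J → ℤ) : ∃ r : R, f r = der G l (fun j => f (z j : R)) (fun j => f (a j)) ∧
      g r = der G l (fun j => g (z j : R)) (fun j => g (a j)) := by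
  have hz : ∀ (κ : Type u) [Field κ] [Algebra k κ] (f : R →ₐ[k] κ) (m : ℤ) (j : J),
      f (((z j) ^ m : Rˣ) : R) = f (z j : R) ^ m := by
    intro κ _ _ f m j
    have h1 : f (((z j) ^ m : Rˣ) : R) = ((Units.map (f : R →* κ) (z j ^ m) : κˣ) : κ) := rfl
    rw [h1, map_zpow, Units.val_zpow_eq_zpow_val]
    rfl
  refine ⟨∑ m ∈ face G l, algebraMap k R (G m) * (∑ j, (m j : R) * a j) *
    ∏ j, (((z j) ^ (m j) : Rˣ) : R), ?_, ?_⟩
  · unfold der
    rw [map_sum]
    refine Finset.sum_congr rfl fun m _ => ?_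
    rw [map_mul, map_mul, AlgHom.commutes, map_sum, map_prod]
    congr 1
    · congr 1
      refine Finset.sum_congr rfl fun j _ => ?_
      rw [map_mul, map_intCast]
    · exact Finset.prod_congr rfl fun j _ => hz κ f _ j
  · unfold der
    rw [map_sum]
    refine Finset.sum_congr rfl fun m _ => ?_
    rw [map_mul, map_mul, AlgHom.commutes, map_sum, map_prod]
    congr 1
    · congr 1
      refine Finset.sum_congr rfl fun j _ => ?_
      rw [map_mul, map_intCast]
    · exact Finset.prod_congr rfl fun j _ => hz κ' g _ j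

/-- A point with values in the algebraic closure. -/
lemma exists_geom_point (R : Type u) [CommRing R] [Nontrivial R] [Algebra k R]
    [Algebra.FiniteType k R] : Nonempty (R →ₐ[k] AlgebraicClosure k) := by
  obtain ⟨M, hM⟩ := Ideal.exists_maximal R
  let _ : Field (R ⧸ M) := Ideal.Quotient.field M
  have h1 : Module.Finite k (R ⧸ M) := finite_of_finite_type_of_isJacobsonRing k (R ⧸ M)
  have h2 : Algebra.IsAlgebraic k (R ⧸ M) := Algebra.IsAlgebraic.of_finite k _
  exact ⟨(IsAlgClosed.lift (M := AlgebraicClosure k) (R := k) (S := R ⧸ M)).comp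
    (Ideal.Quotient.mkₐ k M)⟩

theorem nd_of_ndc {τ : Type} [Finite τ] {F : τ → (J → ℤ) →₀ k} {tw : τ → Prop} (h : NDc F tw) :
    ND F tw := by
  classical
  intro κ _ _ l z hz t0 ht0
  by_contra hcon
  push Not at hcon
  let C : Set τ := {t | t ≠ t0 ∧ (tw t ∨ ∃ m ∈ (F t).support, ∑ j, l j * m j ≤ 0)}
  have h1 : derL (F t0) l z ∈ Submodule.span κ (Set.range fun t : C => derL (F t.1) l z) := by
    apply mem_span_of_iInf_ker_le_ker
    intro a ha
    rw [LinearMap.mem_ker]
    by_contra hne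
    obtain ⟨t, ht, ht', hta⟩ := hcon a hne
    apply hta
    rw [Submodule.mem_iInf] at ha
    exact ha ⟨t, ht, ht'⟩
  cases nonempty_fintype C
  rw [Submodule.mem_span_range_iff_exists_fun] at h1
  obtain ⟨c, hc⟩ := h1
  have hc' : ∀ a : J → κ, der (F t0) l z a = ∑ t : C, c t * der (F t.1) l z a := by
    intro a
    have h2 := LinearMap.congr_fun hc a
    rw [LinearMap.sum_apply] at h2
    exact h2.symm
  -- the finitely generated algebra
  let R : Subalgebra k κ := Algebra.adjoin k
    ((Set.range z ∪ Set.range fun j => (z j)⁻¹) ∪ Set.range c)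
  have hfg : R.FG := ⟨(Finset.univ.image z ∪ Finset.univ.image fun j => (z j)⁻¹) ∪
    Finset.univ.image c, by
      congr 1
      simp [Set.union_assoc]⟩
  have hft : Algebra.FiniteType k R := R.fg_iff_finiteType.1 hfg
  obtain ⟨φ⟩ := exists_geom_point (k := k) R
  have hzR : ∀ j, z j ∈ R := fun j => Algebra.subset_adjoin (Or.inl (Or.inl ⟨j, rfl⟩))
  have hzR' : ∀ j, (z j)⁻¹ ∈ R := fun j => Algebra.subset_adjoin (Or.inl (Or.inr ⟨j, rfl⟩))
  have hcR : ∀ t, c t ∈ R := fun t => Algebra.subset_adjoin (Or.inr ⟨t, rfl⟩)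
  let zu : J → Rˣ := fun j => ⟨⟨z j, hzR j⟩, ⟨(z j)⁻¹, hzR' j⟩,
    Subtype.ext (mul_inv_cancel₀ (hz j)), Subtype.ext (inv_mul_cancel₀ (hz j))⟩
  obtain ⟨a, ha, ha'⟩ := h l (fun j => φ (zu j : R))
    (fun j => (Units.map (φ : R →* AlgebraicClosure k) (zu j)).ne_zero) t0 ht0
  apply ha
  have key : ∀ j, der (F t0) l (fun j => φ (zu j : R)) (Pi.single j 1) =
      ∑ t : C, φ ⟨c t, hcR t⟩ * der (F t.1) l (fun j => φ (zu j : R)) (Pi.single j 1) := by
    intro j
    have e1 : ∀ (κ' : Type u) [Field κ'] [Algebra k κ'] (f : R →ₐ[k] κ'),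
        (fun i => f ((Pi.single j 1 : J → R) i)) = Pi.single j 1 := by
      intro κ' _ _ f
      funext i
      by_cases hij : i = j
      · subst hij
        simp
      · rw [Pi.single_eq_of_ne hij, Pi.single_eq_of_ne hij, map_zero]
    obtain ⟨r0, h3, h4⟩ := der_map R.val φ zu (Pi.single j 1) (F t0) l
    choose r h5 h6 using fun t : C => der_map R.val φ zu (Pi.single j 1) (F t.1) l
    rw [e1] at h3 h4
    have h7 : r0 = ∑ t : C, ⟨c t, hcR t⟩ * r t := by
      apply Subtype.ext
      change R.val r0 = R.val (∑ t : C, ⟨c t, hcR t⟩ * r t)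
      rw [map_sum, h3]
      have h8 : (fun j => R.val (zu j : R)) = z := rfl
      rw [h8, hc']
      refine Finset.sum_congr rfl fun t _ => ?_
      rw [map_mul, h5, e1]
      rfl
    rw [← h4, h7, map_sum]
    refine Finset.sum_congr rfl fun t _ => ?_
    rw [map_mul, h6, e1]
  rw [der_pi]
  simp only [key, Finset.mul_sum]
  rw [Finset.sum_comm]
  refine Finset.sum_eq_zero fun t _ => ?_
  have h9 := ha' t.1 t.2.1 t.2.2
  rw [der_pi] at h9
  calc ∑ j, a j * (φ ⟨c t, hcR t⟩ * der (F t.1) l (fun j => φ (zu j : R)) (Pi.single j 1)) =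
      φ ⟨c t, hcR t⟩ * ∑ j, a j * der (F t.1) l (fun j => φ (zu j : R)) (Pi.single j 1) := by
        rw [Finset.mul_sum]
        exact Finset.sum_congr rfl fun j _ => by ring
    _ = 0 := by rw [h9, mul_zero]

end

end Pool.Agent.TH214
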