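import Pool.Agent.TH214.Res

/-! Resolution of elementary abelian covers with clean ramification. -/

set_option autoImplicit false
set_option linter.unusedVariables false
set_option linter.unusedSectionVars false

universe u

open Pool.Agent.W558 Pool.Agent.W177.WD Polynomial TensorProduct AlgebraicGeometry CategoryTheory

namespace Pool.Agent.TH214

section gen

variable (p : ℕ) [Fact p.Prime] (k L K : Type u) [Field k] [PerfectField k] [CharP k p] [Field L]
  [Field K] [Algebra k L] [Algebra k K] [Algebra L K] [IsScalarTower k L K]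

/-- Models of elementary abelian extensions of a field with a model with joint normal form. -/
theorem model_of_GMA {ι G : Type} [Fintype ι] (f : ι → L) (g : G → L)
    (hGM : GMA p k f g) {r : ℕ} (w : Fin r → K)
    (hw : ∀ j, w j ^ p - w j ∈ AddSubgroup.closure
      ((Set.range fun t => algebraMap L K (f t)) ∪
        Set.range fun b : L => algebraMap L K (b ^ p - b)))
    (hgen : IntermediateField.adjoin L (Set.range w) = ⊤) :
    ∃ (T I : Type) (_ : Finite T) (_ : Fintype I) (M : LM (⊥ : Subalgebra k K) ⊤ T I)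
      (Γ : G → I → ℤ), Fn M (fun b => algebraMap L K (g b)) Γ ∧ Frc M := by
  classical
  have hcK : CharP K p := charP_of_injective_algebraMap (algebraMap k K).injective p
  have hcL : CharP L p := charP_of_injective_algebraMap (algebraMap k L).injective p
  -- change of the generators
  have h1 : ∀ j, ∃ (lam : ι → ℤ) (b : L), w j ^ p - w j =
      ∑ i, lam i • algebraMap L K (f i) + algebraMap L K (b ^ p - b) := by
    intro j
    have h2 := hw j
    rw [AddSubgroup.closure_union, AddSubgroup.mem_sup] at h2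
    obtain ⟨a, ha, c, hc, hac⟩ := h2
    rw [← Submodule.span_int_eq_addSubgroupClosure, Submodule.mem_toAddSubgroup,
      Submodule.mem_span_range_iff_exists_fun] at ha
    obtain ⟨lam, hl⟩ := ha
    have hc' : ∃ b : L, c = algebraMap L K (b ^ p - b) := by
      refine AddSubgroup.closure_induction (p := fun c _ => ∃ b : L, c =
        algebraMap L K (b ^ p - b)) ?_ ?_ ?_ ?_ hc
      · rintro _ ⟨b, rfl⟩
        exact ⟨b, rfl⟩
      · refine ⟨0, ?_⟩
        rw [zero_pow (Fact.out : p.Prime).ne_zero, sub_zero, map_zero]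
      · rintro _ _ _ _ ⟨b, rfl⟩ ⟨b', rfl⟩
        refine ⟨b + b', ?_⟩
        rw [← map_add]
        congr 1
        rw [add_pow_char]
        ring
      · rintro _ _ ⟨b, rfl⟩
        refine ⟨-b, ?_⟩
        rw [← map_neg]
        congr 1
        have h3 : (-b) ^ p = -(b ^ p) := by
          have h4 : ((0 : L) - b) ^ p = 0 ^ p - b ^ p := by rw [sub_pow_char]
          rw [zero_sub, zero_pow (Fact.out : p.Prime).ne_zero, zero_sub] at h4
          exact h4
        rw [h3]
        ring
    obtain ⟨b, hb⟩ := hc'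
    exact ⟨lam, b, by rw [← hac, hl, hb]⟩
  choose lam b hlb using h1
  let w' : Fin r → K := fun j => w j - algebraMap L K (b j)
  have hw' : ∀ j, w' j ^ p - w' j = ∑ i, zc p K ((lam j i : ℤ) : ZMod p) *
      algebraMap L K (f i) := by
    intro j
    have h2 : w' j ^ p - w' j = w j ^ p - w j - algebraMap L K ((b j) ^ p - b j) := by
      change (w j - algebraMap L K (b j)) ^ p - (w j - algebraMap L K (b j)) = _
      rw [sub_pow_char, map_sub, map_pow]
      ring
    rw [h2, hlb j, add_sub_cancel_right]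
    simp only [zc_intCast, zsmul_eq_mul]
  have hgen' : IntermediateField.adjoin L (Set.range w') = ⊤ := by
    rw [eq_top_iff, ← hgen, IntermediateField.adjoin_le_iff]
    rintro _ ⟨j, rfl⟩
    have h2 : w j = w' j + algebraMap L K (b j) := by
      change w j = w j - algebraMap L K (b j) + algebraMap L K (b j)
      ring
    rw [h2]
    exact add_mem (IntermediateField.subset_adjoin L _ ⟨j, rfl⟩)
      (IntermediateField.algebraMap_mem _ _)
  obtain ⟨T, I, hT, hI, M, n, a, h, Λ, R, Γ, -, hFn, hR⟩ :=
    gmt_tower wt_pack p k r L K f g (gmt_init wt_pack hGM) w'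
      (fun j i => ((lam j i : ℤ) : ZMod p)) hw' hgen'
  exact ⟨T, I, hT, hI, M, Γ, hFn, hR⟩

/-- Smooth charts over the varieties whose function field is an elementary abelian extension of a
field with a model with joint normal form. -/
theorem LM_of_GMA {ι G : Type} [Fintype ι] [Finite G] (f : ι → L) (g : G → L)
    (hGM : GMA p k f g) {r : ℕ} (w : Fin r → K)
    (hw : ∀ j, w j ^ p - w j ∈ AddSubgroup.closure
      ((Set.range fun t => algebraMap L K (f t)) ∪
        Set.range fun b : L => algebraMap L K (b ^ p - b)))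
    (hgen : IntermediateField.adjoin L (Set.range w) = ⊤)
    (A : Type u) [CommRing A] [IsDomain A] [Algebra k A] [Algebra.FiniteType k A] [Algebra A K]
    [IsScalarTower k A K] [IsFractionRing A K] (s : G → A)
    (hs : ∀ b, algebraMap A K (s b) = algebraMap L K (g b))
    (hA : ∀ a : A, IsIntegral (Algebra.adjoin k (Set.range s)) a) :
    ∃ (T I : Type) (_ : Finite T) (_ : Fintype I),
      Nonempty (LM (IsScalarTower.toAlgHom k A K).range (IsScalarTower.toAlgHom k A K).range
        T I) := by
  classical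
  obtain ⟨T, I, hT, hI, M, Γ, hFn, hR⟩ := model_of_GMA p k L K f g hGM w hw hgen
  let ρ : A →ₐ[k] K := IsScalarTower.toAlgHom k A K
  have hρ : Function.Injective ρ := IsFractionRing.injective A K
  have hfg : ρ.range.FG := by
    have h1 : (⊤ : Subalgebra k A).FG := Algebra.FiniteType.out
    have h2 := h1.map ρ
    rwa [Algebra.map_top] at h2
  have hsg : ∀ b, algebraMap L K (g b) = ρ (s b) := fun b => (hs b).symm
  have hint : ∀ y ∈ ρ.range, IsIntegral (Algebra.adjoin k
      (Set.range fun b : G => algebraMap L K (g b))) y := by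
    rintro _ ⟨a, rfl⟩
    have h1 : Algebra.adjoin k (Set.range fun b : G => algebraMap L K (g b)) =
        (Algebra.adjoin k (Set.range s)).map ρ := by
      rw [AlgHom.map_adjoin, ← Set.range_comp]
      congr 1
      congr 1
      funext b
      exact hsg b
    rw [h1]
    obtain ⟨B, hB, hB'⟩ := hA a
    let φ : Algebra.adjoin k (Set.range s) →+* (Algebra.adjoin k (Set.range s)).map ρ :=
      { toFun := fun y => ⟨ρ y, ⟨y, y.2, rfl⟩⟩
        map_one' := Subtype.ext (map_one ρ)
        map_mul' := fun y y' => Subtype.ext (map_mul ρ _ _)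
        map_zero' := Subtype.ext (map_zero ρ)
        map_add' := fun y y' => Subtype.ext (map_add ρ _ _) }
    refine ⟨B.map φ, hB.map φ, ?_⟩
    rw [eval₂_map]
    have h2 : ((algebraMap ((Algebra.adjoin k (Set.range s)).map ρ) K).comp φ) =
        ρ.toRingHom.comp (algebraMap (Algebra.adjoin k (Set.range s)) A) := RingHom.ext fun y => rfl
    rw [h2]
    have h3 := congrArg ρ.toRingHom hB'
    rw [hom_eval₂, map_zero] at h3
    exact h3
  have hfr : ∀ y : K, ∃ a ∈ ρ.range, ∃ b ∈ ρ.range, b ≠ 0 ∧ y = a * b⁻¹ := by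
    intro y
    obtain ⟨a, b, hb, rfl⟩ := IsFractionRing.div_surjective (A := A) y
    exact ⟨_, ⟨a, rfl⟩, _, ⟨b, rfl⟩, by
      have := nonZeroDivisors.ne_zero hb
      exact (FaithfulSMul.algebraMap_eq_zero_iff A K).not.2 this, div_eq_mul_inv _ _⟩
  obtain ⟨T', I', hT', hI', M', -⟩ := wd_res k K T I G M
    (fun b => algebraMap L K (g b)) Γ hFn hR ρ.range hfg
    (fun b => ⟨s b, hs b⟩) hint hfr
  exact ⟨T', I', hT', hI', ⟨M'⟩⟩

end gen

section pair

variable {k K : Type u} [Field k] [Field K] [Algebra k K]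

/-- The coordinate ring of the chart `H j ≠ 0` of the projective variety with the homogeneous
coordinates `H`. -/
def chart (k : Type u) {K : Type u} [Field k] [Field K] [Algebra k K] {N : ℕ}
    (H : Fin (N + 1) → K) (j : Fin (N + 1)) : Subalgebra k K :=
  Algebra.adjoin k (Set.range fun l => H l / H j)

lemma chart_gl {N : ℕ} {H : Fin (N + 1) → K} (hH : ∀ j, H j ≠ 0) :
    ∀ t t' : Fin (N + 1), ∀ f ∈ chart k H t', ∃ n : ℕ, (H t' / H t) ^ n * f ∈ chart k H t := by
  have hmem : ∀ i j, H j / H i ∈ chart k H i := fun i j => Algebra.subset_adjoin ⟨j, rfl⟩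
  intro t t' f hf
  have hmono : ∀ (n m : ℕ) (f : K), n ≤ m → (H t' / H t) ^ n * f ∈ chart k H t →
      (H t' / H t) ^ m * f ∈ chart k H t := by
    intro n m f hnm h
    obtain ⟨e, rfl⟩ := Nat.exists_eq_add_of_le hnm
    rw [add_comm, pow_add, mul_assoc]
    exact (chart k H t).mul_mem ((chart k H t).pow_mem (hmem t t') e) h
  unfold chart at hf
  induction hf using Algebra.adjoin_induction with
  | mem x hx =>
    obtain ⟨j, rfl⟩ := hx
    refine ⟨1, ?_⟩
    have h1 : (H t' / H t) ^ 1 * (H j / H t') = H j / H t := by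
      have := hH t'
      field_simp
    change (H t' / H t) ^ 1 * (H j / H t') ∈ chart k H t
    rw [h1]
    exact hmem t j
  | algebraMap r =>
    exact ⟨0, by rw [pow_zero, one_mul]; exact (chart k H t).algebraMap_mem r⟩
  | add x y _ _ hx hy =>
    obtain ⟨n, hn⟩ := hx
    obtain ⟨m, hm⟩ := hy
    refine ⟨max n m, ?_⟩
    rw [mul_add]
    exact (chart k H t).add_mem (hmono _ _ _ (le_max_left _ _) hn)
      (hmono _ _ _ (le_max_right _ _) hm)
  | mul x y _ _ hx hy =>
    obtain ⟨n, hn⟩ := hx
    obtain ⟨m, hm⟩ := hy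
    refine ⟨n + m, ?_⟩
    rw [pow_add, mul_mul_mul_comm]
    exact (chart k H t).mul_mem hn hm

/-- The model. -/
def pairLM {N d : ℕ} (H : Fin (N + 1) → K) (x : Fin (N + 1) → Fin d → K) (hH : ∀ j, H j ≠ 0)
    (hsm : ∀ j, Algebra.Smooth k (chart k H j)) (hxA : ∀ j i, x j i ∈ chart k H j)
    (hx0 : ∀ j i, x j i ≠ 0)
    (hgl : ∀ j j' i, ∃ n : ℕ, (H j' / H j) ^ n * (x j' i / x j i) ∈ chart k H j)
    (hsnc : ∀ j, SNC (chart k H j) (x j)) :
    LM (⊥ : Subalgebra k K) ⊤ (Fin (N + 1)) (Fin d) where
  A := chart k H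
  H := H
  x := x
  sm := hsm
  base := fun t => bot_le
  H0 := hH
  HR := fun _ => Algebra.mem_top
  rt := fun t t' => Algebra.subset_adjoin ⟨t', rfl⟩
  gl := chart_gl hH
  dn := fun _ _ _ => ⟨0, Algebra.mem_top⟩
  cv := by
    intro V hV
    obtain ⟨t, ht⟩ := Finite.exists_max (fun t => V.valuation (H t))
    refine ⟨t, ?_⟩
    intro f hf
    have h0 : V.valuation (H t) ≠ 0 := (_root_.map_ne_zero _).2 (hH t)
    unfold chart at hf
    induction hf using Algebra.adjoin_induction with
    | mem x hx =>
      obtain ⟨j, rfl⟩ := hx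
      change H j / H t ∈ V
      rw [← V.valuation_le_one_iff, map_div₀]
      exact (div_le_one₀ (zero_lt_iff.2 h0)).2 (ht j)
    | algebraMap r => exact hV _ ((⊥ : Subalgebra k K).algebraMap_mem r)
    | add x y _ _ hx hy => exact V.add_mem _ _ hx hy
    | mul x y _ _ hx hy => exact V.mul_mem _ _ hx hy
  xA := hxA
  x0 := hx0
  gi := hgl
  snc := hsnc

end pair

end Pool.Agent.TH214
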