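import Pool.Agent.TH214.Clean
import Pool.Agent.W906.WT.Iso

/-! Towers of Artin-Schreier extensions: models which lie over given affine varieties. -/

set_option autoImplicit false
set_option linter.unusedVariables false
set_option linter.unusedSectionVars false

universe u

open Polynomial AlgebraicGeometry CategoryTheory Pool.Agent.W558 Pool.Agent.W498.Tor
  Pool.Agent.W906.WT.Iso

namespace Pool.Agent.TH214

section dm

variable {k L0 L : Type u} [Field k] [Field L0] [Field L] [Algebra k L0] [Algebra k L]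

/-- Each chart of `M` contains the image of one of the algebras `B s`. -/
def Dm {T0 T I : Type} (B : T0 → Subalgebra k L0) (ρ : L0 →+* L)
    (M : LM (⊥ : Subalgebra k L) ⊤ T I) : Prop :=
  ∀ t, ∃ s, ∀ a ∈ B s, ρ a ∈ M.A t

/-- The field `L` has a model on which the functions `f j` have a normal form as in a tower of
Artin-Schreier extensions, the functions `g b` are locally monomials, and which lies over the
algebras `B s`. -/
def GMTd (p : ℕ) (k : Type u) {L0 L : Type u} [Field k] [Field L0] [Field L] [Algebra k L0]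
    [Algebra k L] [CharP L p] {T0 : Type} (B : T0 → Subalgebra k L0) (ρ : L0 →+* L)
    {ι G : Type} [Fintype ι] (f : ι → L) (g : G → L) : Prop :=
  ∃ (T I : Type) (_ : Finite T) (_ : Fintype I) (M : LM (⊥ : Subalgebra k L) ⊤ T I)
    (n : ι → I → ℤ) (a h : T → ι → L) (Λ : Submodule (ZMod p) (ι → ZMod p)) (R : T → Set ι)
    (Γ : G → I → ℤ), TW p M f n a h Λ R ∧ Fn M g Γ ∧ Frc M ∧ Dm B ρ M

end dm

/-- Transport of the normal form to the image of the model. -/
theorem iso_map (p : ℕ) [Fact p.Prime] (k L K : Type u) [Field k] [Field L] [Field K]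
    [Algebra k L] [Algebra k K] [Algebra L K] [IsScalarTower k L K] [CharP L p] [CharP K p]
    (hsurj : Function.Surjective (algebraMap L K)) (T I ι G : Type) [Finite T] [Fintype I]
    [Fintype ι] (M : LM (⊥ : Subalgebra k L) ⊤ T I) (f : ι → L) (n : ι → I → ℤ)
    (a h : T → ι → L) (Λ : Submodule (ZMod p) (ι → ZMod p)) (R : T → Set ι) (g : G → L)
    (Γ : G → I → ℤ) (hT : TW p M f n a h Λ R) (hFn : Fn M g Γ) (hFrc : Frc M) :
    TW p (mapLM (K := K) M) (fun j => algebraMap L K (f j)) n (fun t j => algebraMap L K (a t j))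
      (fun t j => algebraMap L K (h t j)) Λ R ∧
    Fn (mapLM (K := K) M) (fun b => algebraMap L K (g b)) Γ ∧ Frc (mapLM (K := K) M) := by
  classical
  have hinj : Function.Injective (em k L K) := em_inj
  have hmem : ∀ t (x : L), em k L K x ∈ (M.A t).map (em k L K) ↔ x ∈ M.A t := by
    intro t x
    constructor
    · rintro ⟨y, hy, he⟩
      rw [← hinj he]
      exact hy
    · intro hx
      exact ⟨x, hx, rfl⟩
  have hinvm : ∀ t i, ((mapLM (K := K) M).x t i)⁻¹ ∈ (mapLM (K := K) M).A t ↔
      (M.x t i)⁻¹ ∈ M.A t := by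
    intro t i
    change (em k L K (M.x t i))⁻¹ ∈ (M.A t).map (em k L K) ↔ _
    rw [← map_inv₀, hmem]
  have hmon : ∀ t (m : I → ℤ), ∏ i, (mapLM (K := K) M).x t i ^ m i =
      em k L K (∏ i, M.x t i ^ m i) := by
    intro t m
    rw [map_prod]
    refine Finset.prod_congr rfl fun i _ => ?_
    rw [map_zpow₀]
    rfl
  have hzc : ∀ c, zc p K c = algebraMap L K (zc p L c) := by
    intro c
    exact RingHom.congr_fun (RingHom.ext_zmod (zc p K) ((algebraMap L K).comp (zc p L))) c
  refine ⟨⟨hT.n0, ?_, ?_, ?_, ?_, ?_, hT.rep, ?_⟩, ?_, ?_⟩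
  · intro t j
    exact ⟨h t j, hT.hA t j, rfl⟩
  · intro t j
    rw [hmon]
    change em k L K (f j) = em k L K (a t j) ^ p - em k L K (a t j) + em k L K _ * em k L K (h t j)
    rw [hT.eq t j, map_add, map_sub, map_pow, map_mul]
  · intro t j l
    rcases hT.cmp t j l with h1 | h1
    · exact Or.inl fun i => (h1 i).imp id (hinvm t i).2
    · exact Or.inr fun i => (h1 i).imp id (hinvm t i).2
  · intro μ hμ
    obtain ⟨w, hw⟩ := hT.wl μ hμ
    refine ⟨algebraMap L K w, ?_⟩
    rw [← map_pow, ← map_sub, hw, map_sum]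
    refine Finset.sum_congr rfl fun j _ => ?_
    rw [map_mul, hzc]
  · intro t μ hμ h0
    obtain ⟨j, hj, hj0, hl⟩ := hT.ech t μ hμ h0
    exact ⟨j, hj, hj0, fun l hl0 i => (hl l hl0 i).imp id (hinvm t i).2⟩
  · intro t κ _ _ φ j hj ⟨i, hi, hφ⟩
    obtain ⟨v, hv, hv'⟩ := hT.ln t κ (φ.comp (eqv (K := K) (M.A t)).toAlgHom) j hj ⟨i, hi, hφ⟩
    obtain ⟨v', he, hD⟩ := exists_lt M t φ v
    have hom : ∀ l (h1 : algebraMap L K (h t l) ∈ (mapLM (K := K) M).A t),
        om v' (n l) h1 = om v (n l) (hT.hA t l) := by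
      intro l h1
      unfold om
      have h2 := hD (h t l) (hT.hA t l) h1
      change v'.D.D ⟨em k L K (h t l), h1⟩ + φ ⟨em k L K (h t l), h1⟩ * _ = _
      rw [h2, he]
      congr 1
    refine ⟨v', ?_, ?_⟩
    · exact fun h0 => hv ((hom j _).symm.trans h0)
    · intro l hl hlj
      exact (hom l _).trans (hv' l hl hlj)
  · intro b t
    obtain ⟨w, hw0, hw, hw', h1⟩ := hFn b t
    refine ⟨em k L K w, (map_ne_zero_iff _ hinj).2 hw0, ⟨w, hw, rfl⟩,
      ⟨w⁻¹, hw', map_inv₀ (em k L K) w⟩, ?_⟩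
    rw [hmon]
    change em k L K (g b) = _
    rw [h1, map_mul]
  · intro t x
    obtain ⟨l, rfl⟩ := hsurj x
    obtain ⟨c, hc, d, hd, hd0, h1⟩ := hFrc t l
    refine ⟨em k L K c, ⟨c, hc, rfl⟩, em k L K d, ⟨d, hd, rfl⟩,
      (map_ne_zero_iff _ hinj).2 hd0, ?_⟩
    change em k L K l = _
    rw [h1, map_mul, map_inv₀]


section step

variable (hall : WTPack.{u}) (p : ℕ) [Fact p.Prime] (k : Type u) [Field k] [PerfectField k]
  [CharP k p]

include hall

/-- One Artin-Schreier extension. -/
theorem wt_stepd {T0 : Type} {L0 : Type u} [Field L0] [Algebra k L0]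
    (B : T0 → Subalgebra k L0) (L K : Type u) [Field L] [Field K]
    [Algebra k L] [Algebra k K] [Algebra L K] [IsScalarTower k L K] [CharP L p] [CharP K p]
    {T I ι G : Type} [Finite T] [Fintype I] [Fintype ι]
    (M : LM (⊥ : Subalgebra k L) ⊤ T I) (f : ι → L) (n : ι → I → ℤ) (a h : T → ι → L)
    (Λ : Submodule (ZMod p) (ι → ZMod p)) (R : T → Set ι) (g : G → L) (Γ : G → I → ℤ)
    (hT : TW p M f n a h Λ R) (hR : Frc M) (hG : Fn M g Γ)
    (ρ : L0 →+* L) (hD : Dm B ρ M) (lam : ι → ZMod p) (hlam : lam ∉ Λ)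
    (hf : ∀ b : L, b ^ p - b ≠ ∑ j, zc p L (lam j) * f j) (z : K)
    (hz : z ^ p - z = algebraMap L K (∑ j, zc p L (lam j) * f j))
    (hz1 : z ^ p - z = ∑ j, zc p K (lam j) * algebraMap L K (f j))
    (hgen : ∀ w : K, ∃ P : L[X], aeval z P = w) :
    GMTd p k B ((algebraMap L K).comp ρ) (fun j => algebraMap L K (f j))
      (fun b => algebraMap L K (g b)) := by
  have hp : p.Prime := Fact.out
  obtain ⟨n', h', lr, j0, hTN⟩ := hall.tn p k L T I ι M f n a h Λ R hT lam hlam
  obtain ⟨a', hN⟩ := hall.nas p k L T I ι M f n a h Λ R hT lam n' h' lr j0 hTN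
  set f' : L := ∑ j, zc p L (lam j) * f j with hf'
  have hirr : Irreducible (X ^ p - X - C f' : L[X]) := hall.irr p L f' hf
  have hF : Prime (X ^ p - X - C f' : L[X]) := hirr.prime
  have hz0 : aeval z (X ^ p - X - C f' : L[X]) = 0 := by
    rw [map_sub, map_sub, map_pow, aeval_X, aeval_C, hz, sub_self]
  have hmon : (X ^ p - X - C f' : L[X]).Monic := by
    have h1 : (X ^ p - X - C f' : L[X]) = X ^ p - (X + C f') := by ring
    rw [h1]
    apply monic_X_pow_sub
    rw [degree_X_add_C]
    exact_mod_cast hp.one_lt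
  have hz' : ∀ P : L[X], aeval z P = 0 ↔ (X ^ p - X - C f' : L[X]) ∣ P := by
    intro P
    have h1 : minpoly L z = X ^ p - X - C f' :=
      (minpoly.eq_of_irreducible_of_monic hirr hz0 hmon).symm
    rw [← h1]
    exact (minpoly.dvd_iff).symm
  let N := FractionRing L[X]
  let Z : N := algebraMap L[X] N X
  have hZ : ∀ P : L[X], aeval Z P = algebraMap L[X] N P := by
    intro P
    have h1 : aeval Z = IsScalarTower.toAlgHom L L[X] N := by
      ext; simp [Z]
    rw [h1]; rfl
  have htr : Transcendental L Z := by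
    rw [transcendental_iff]
    intro P hP
    rw [hZ] at hP
    exact (FaithfulSMul.algebraMap_eq_zero_iff L[X] N).1 hP
  have hfr : ∀ x : N, ∃ P P' : L[X], P' ≠ 0 ∧ x * aeval Z P' = aeval Z P := by
    intro x
    obtain ⟨P, P', hP, rfl⟩ := IsFractionRing.div_surjective (A := L[X]) x
    have h0 := nonZeroDivisors.ne_zero hP
    refine ⟨P, P', h0, ?_⟩
    rw [hZ, hZ, div_mul_cancel₀ _ (alg_ne_zero h0)]
  have hQ : IsQA p Z f' (FQ (k := k) hF) := by
    intro x
    simp only [hZ]
    exact mem_FQ hF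
  obtain ⟨T1, I1, hT1, hI1, M1, y1, c1, μ1, Γ1, hP1, hL1, hF1⟩ :=
    hall.bun p k L N T I G M f' n' a' h' g Γ hN hR hG hf Z htr hfr (FQ (k := k) hF) hQ
  obtain ⟨T2, I2, hT2, hI2, M2, y2, c2, μ2, Γ2, hP2, hL2, hF2, hfin⟩ :=
    hall.ppr p k L N T I T1 I1 G M f' n' a' h' M1 _ (FQ (k := k) hF) y1 c1 μ1
      (fun b => algebraMap L N (g b)) Γ1 hN hP1 hL1 hF1
  have eF : Z ^ p - Z - algebraMap L N f' = algebraMap L[X] N (X ^ p - X - C f') := by
    rw [← hZ, map_sub, map_sub, map_pow, aeval_X, aeval_C]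
  rw [eF] at hP2
  obtain ⟨T3, I3, hT3, hI3, M3, π', Θ', ho, Γ3, hCL, hF3, hR3⟩ :=
    hall.pcut p k L N K T I T2 I2 G M f' n' a' h' M2 _ (FQ (k := k) hF) y2 c2 μ2 g Γ2
      hN hP2 hL2 hF2 hfin (mem_FQ_of hF) (alg_ne_zero hF.ne_zero) (piZ hF z hz')
      (piZ_eq_zero hF z hz') (piZ_surj hF z hz' hgen) (FQ_total hF) (by
        intro l hl
        have h1 : algebraMap L N l = algebraMap L[X] N (C l) := by
          rw [← hZ, aeval_C]
        have h2 : (⟨algebraMap L N l, hl⟩ : FQ (k := k) hF) =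
            ⟨algebraMap L[X] N (C l), mem_FQ_of hF⟩ := Subtype.ext h1
        rw [h2, piZ_alg, aeval_C])
  have hTW := hall.nxt p k L K T I T3 I3 ι M f n a h Λ R hT lam n' h' lr j0 hTN hN.hA M3 π' Θ' ho
    hCL z hz1
  refine ⟨T3, I3, hT3, hI3, M3, _, _, _, _, _, Γ3, hTW, hF3, hR3, ?_⟩
  intro t
  obtain ⟨s, hs⟩ := hD (π' t)
  exact ⟨s, fun a ha => ho.le t _ (hs a ha)⟩

/-- One step of a tower. -/
theorem gmt_stepd {T0 : Type} {L0 : Type u} [Field L0] [Algebra k L0]
    (B : T0 → Subalgebra k L0) (L K : Type u) [Field L] [Field K]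
    [Algebra k L] [Algebra k K] [Algebra L K] [IsScalarTower k L K] [CharP L p] [CharP K p]
    {ι G : Type} [Fintype ι] (ρ : L0 →+* L) (f : ι → L) (g : G → L)
    (hM : GMTd p k B ρ f g) (lam : ι → ZMod p)
    (z : K) (hz : z ^ p - z = ∑ j, zc p K (lam j) * algebraMap L K (f j))
    (hgen : IntermediateField.adjoin L {z} = ⊤) :
    GMTd p k B ((algebraMap L K).comp ρ) (fun j => algebraMap L K (f j))
      (fun b => algebraMap L K (g b)) := by
  have hp : p.Prime := Fact.out
  obtain ⟨T, I, hT, hI, M, n, a, h, Λ, R, Γ, hW, hF, hR, hD⟩ := hM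
  have hzf : z ^ p - z = algebraMap L K (∑ j, zc p L (lam j) * f j) := by
    rw [hz, map_sum]
    refine Finset.sum_congr rfl fun j _ => ?_
    rw [map_mul, alg_zc]
  by_cases hzL : ∃ b : L, b ^ p - b = ∑ j, zc p L (lam j) * f j
  · obtain ⟨b, hb⟩ := hzL
    have h1 : (z - algebraMap L K b) ^ p = z - algebraMap L K b := by
      rw [sub_pow_char]
      have h2 : algebraMap L K b ^ p - algebraMap L K b = z ^ p - z := by
        rw [← map_pow, ← map_sub, hb, hzf]
      linear_combination -h2
    obtain ⟨c, hc⟩ := Pool.Agent.W558.zc_of_pow p _ h1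
    have h2 : z = algebraMap L K (b + zc p L c) := by
      rw [map_add, alg_zc]
      linear_combination hc
    have h3 : Function.Surjective (algebraMap L K) := by
      have h4 : IntermediateField.adjoin L {z} = ⊥ := by
        rw [IntermediateField.adjoin_simple_eq_bot_iff, h2]
        exact IntermediateField.algebraMap_mem _ _
      rw [h4] at hgen
      intro y
      have h5 : y ∈ (⊤ : IntermediateField L K) := trivial
      rw [← hgen] at h5
      exact IntermediateField.mem_bot.1 h5
    obtain ⟨h4, h5, h6⟩ := iso_map p k L K h3 T I ι G M f n a h Λ R g Γ hW hF hR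
    refine ⟨T, I, hT, hI, _, _, _, _, _, _, Γ, h4, h5, h6, ?_⟩
    intro t
    obtain ⟨s, hs⟩ := hD t
    exact ⟨s, fun a ha => ⟨ρ a, hs a ha, rfl⟩⟩
  · push Not at hzL
    have hlam : lam ∉ Λ := by
      intro hl
      obtain ⟨w, hw⟩ := hW.wl lam hl
      exact hzL w hw
    refine wt_stepd hall p k B L K M f n a h Λ R g Γ hW hR hF ρ hD lam hlam hzL z hzf hz ?_
    intro y
    have hint : IsIntegral L z := by
      refine ⟨X ^ p - (X + C (∑ j, zc p L (lam j) * f j)), ?_, ?_⟩
      · apply monic_X_pow_sub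
        rw [degree_X_add_C]
        exact_mod_cast hp.one_lt
      · rw [← aeval_def, map_sub, map_add, map_pow, aeval_X, aeval_C, ← hzf]
        ring
    have h8 : y ∈ Algebra.adjoin L {z} := by
      have h9 : y ∈ (IntermediateField.adjoin L {z}).toSubalgebra := by
        rw [hgen]; trivial
      rwa [IntermediateField.adjoin_simple_toSubalgebra_of_isAlgebraic hint.isAlgebraic] at h9
    rw [Algebra.adjoin_singleton_eq_range_aeval] at h8
    exact h8

/-- Towers. -/
theorem gmt_towerd {ι G : Type} [Fintype ι] {T0 : Type} {L0 : Type u} [Field L0] [Algebra k L0]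
    (B : T0 → Subalgebra k L0) : ∀ (r : ℕ) (L K : Type u) [Field L] [Field K]
    [Algebra k L] [Algebra k K] [Algebra L K] [IsScalarTower k L K] [CharP L p] [CharP K p]
    (ρ : L0 →+* L) (f : ι → L) (g : G → L), GMTd p k B ρ f g → ∀ (w : Fin r → K) (lam : Fin r → ι → ZMod p),
    (∀ j, w j ^ p - w j = ∑ l, zc p K (lam j l) * algebraMap L K (f l)) →
    IntermediateField.adjoin L (Set.range w) = ⊤ →
    GMTd p k B ((algebraMap L K).comp ρ) (fun j => algebraMap L K (f j))
      (fun b => algebraMap L K (g b)) := by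
  have hp : p.Prime := Fact.out
  intro r
  induction r with
  | zero =>
    intro L K _ _ _ _ _ _ _ _ ρ f g hM w lam hw hgen
    refine gmt_stepd hall p k B L K ρ f g hM 0 0 ?_ ?_
    · rw [zero_pow hp.ne_zero, sub_zero]
      symm
      refine Finset.sum_eq_zero fun j _ => ?_
      rw [Pi.zero_apply, map_zero, zero_mul]
    · rw [Set.range_eq_empty, IntermediateField.adjoin_empty] at hgen
      rw [IntermediateField.adjoin_zero, hgen]
  | succ r ih =>
    intro L K _ _ _ _ _ _ _ _ ρ f g hM w lam hw hgen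
    let L1 := IntermediateField.adjoin L {w 0}
    have hL1 : CharP L1 p := charP_of_injective_algebraMap (algebraMap L L1).injective p
    have tL1 : IsScalarTower k L1 K := IsScalarTower.of_algebraMap_eq fun c => rfl
    let z : L1 := ⟨w 0, IntermediateField.mem_adjoin_simple_self L (w 0)⟩
    have hM1 : GMTd p k B ((algebraMap L L1).comp ρ) (fun j => algebraMap L L1 (f j))
        (fun b => algebraMap L L1 (g b)) := by
      refine gmt_stepd hall p k B L L1 ρ f g hM (lam 0) z ?_ ?_
      · apply Subtype.ext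
        have h1 := hw 0
        have h2 : ((∑ j, zc p L1 (lam 0 j) * algebraMap L L1 (f j) : L1) : K) =
            ∑ l, zc p K (lam 0 l) * algebraMap L K (f l) := by
          change algebraMap L1 K _ = _
          rw [map_sum]
          refine Finset.sum_congr rfl fun j _ => ?_
          rw [map_mul, alg_zc]
          rfl
        rw [h2, ← h1]
        rfl
      · apply IntermediateField.lift_injective L1
        rw [IntermediateField.lift_adjoin_simple, IntermediateField.lift_top]
    have h2 := ih L1 K ((algebraMap L L1).comp ρ) (fun j => algebraMap L L1 (f j)) (fun b => algebraMap L L1 (g b)) hM1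
      (fun j => w j.succ) (fun j => lam j.succ) (fun j => hw j.succ) (by
        rw [← IntermediateField.restrictScalars_eq_top_iff (K := L),
          IntermediateField.adjoin_adjoin_left, ← hgen]
        congr 1
        ext y
        constructor
        · rintro (hy | ⟨j, rfl⟩)
          · exact ⟨0, hy.symm⟩
          · exact ⟨j.succ, rfl⟩
        · rintro ⟨j, rfl⟩
          refine Fin.cases ?_ (fun j => ?_) j
          · exact Or.inl rfl
          · exact Or.inr ⟨j, rfl⟩)
    exact h2

end step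

end Pool.Agent.TH214
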