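import Pool.Agent.TH214.ResGen

/-! Resolution of the varieties over charts of the base. -/

set_option autoImplicit false
set_option linter.unusedVariables false
set_option linter.unusedSectionVars false

universe u

open Polynomial AlgebraicGeometry CategoryTheory Pool.Agent.W558

namespace Pool.Agent.TH214

section gen

variable (p : ℕ) [Fact p.Prime] (k L K : Type u) [Field k] [PerfectField k] [CharP k p] [Field L]
  [Field K] [Algebra k L] [Algebra k K] [Algebra L K] [IsScalarTower k L K]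


/-- Change of the generators. -/
lemma change_gen [CharP L p] [CharP K p] {ι : Type} [Fintype ι] (f : ι → L) {r : ℕ}
    (w : Fin r → K)
    (hw : ∀ j, w j ^ p - w j ∈ AddSubgroup.closure
      ((Set.range fun t => algebraMap L K (f t)) ∪
        Set.range fun b : L => algebraMap L K (b ^ p - b)))
    (hgen : IntermediateField.adjoin L (Set.range w) = ⊤) :
    ∃ (w' : Fin r → K) (lam : Fin r → ι → ZMod p),
      (∀ j, w' j ^ p - w' j = ∑ i, zc p K (lam j i) * algebraMap L K (f i)) ∧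
      IntermediateField.adjoin L (Set.range w') = ⊤ := by
  classical
  have h1 : ∀ j, ∃ (lam : ι → ℤ) (b : L), w j ^ p - w j =
      ∑ i, lam i • algebraMap L K (f i) + algebraMap L K (b ^ p - b) := by
    intro j
    have h2 := hw j
    rw [AddSubgroup.closure_union, AddSubgroup.mem_sup] at h2
    obtain ⟨a, ha, c, hc, hac⟩ := h2
    rw [← Submodule.span_int_eq_addSubgroupClosure, Submodule.mem_toAddSubgroup,
      Submodule.mem_span_range_iff_exists_fun] at ha
    obtain ⟨lam, hl⟩ := ha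
    have hc' : ∃ b : L, c = algebraMap L K (b ^ p - b) := by
      refine AddSubgroup.closure_induction (p := fun c _ => ∃ b : L, c =
        algebraMap L K (b ^ p - b)) ?_ ?_ ?_ ?_ hc
      · rintro _ ⟨b, rfl⟩
        exact ⟨b, rfl⟩
      · refine ⟨0, ?_⟩
        rw [zero_pow (Fact.out : p.Prime).ne_zero, sub_zero, map_zero]
      · rintro _ _ _ _ ⟨b, rfl⟩ ⟨b', rfl⟩
        refine ⟨b + b', ?_⟩
        rw [← map_add]
        congr 1
        rw [add_pow_char]
        ring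
      · rintro _ _ ⟨b, rfl⟩
        refine ⟨-b, ?_⟩
        rw [← map_neg]
        congr 1
        have h3 : (-b) ^ p = -(b ^ p) := by
          have h4 : ((0 : L) - b) ^ p = 0 ^ p - b ^ p := by rw [sub_pow_char]
          rw [zero_sub, zero_pow (Fact.out : p.Prime).ne_zero, zero_sub] at h4
          exact h4
        rw [h3]
        ring
    obtain ⟨b, hb⟩ := hc'
    exact ⟨lam, b, by rw [← hac, hl, hb]⟩
  choose lam b hlb using h1
  refine ⟨fun j => w j - algebraMap L K (b j), fun j i => ((lam j i : ℤ) : ZMod p), ?_, ?_⟩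
  · intro j
    have h2 : (w j - algebraMap L K (b j)) ^ p - (w j - algebraMap L K (b j)) =
        w j ^ p - w j - algebraMap L K ((b j) ^ p - b j) := by
      rw [sub_pow_char, map_sub, map_pow]
      ring
    rw [h2, hlb j, add_sub_cancel_right]
    simp only [zc_intCast, zsmul_eq_mul]
  · rw [eq_top_iff, ← hgen, IntermediateField.adjoin_le_iff]
    rintro _ ⟨j, rfl⟩
    have h2 : w j = (w j - algebraMap L K (b j)) + algebraMap L K (b j) := by ring
    rw [h2]
    exact add_mem (IntermediateField.subset_adjoin L _ ⟨j, rfl⟩)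
      (IntermediateField.algebraMap_mem _ _)

/-- Models of elementary abelian extensions, lying over the given model. -/
theorem model_of_NBSd {T0 I0 ι G : Type} [Finite T0] [Fintype I0] [Fintype ι]
    (M : LM (⊥ : Subalgebra k L) ⊤ T0 I0) {f : ι → L} {n : ι → I0 → ℤ} {a h : T0 → ι → L}
    (hN : NBS p M f n a h) {g : G → L} {Γ : G → I0 → ℤ} (hG : Fn M g Γ) (hR : Frc M)
    {r : ℕ} (w : Fin r → K)
    (hw : ∀ j, w j ^ p - w j ∈ AddSubgroup.closure
      ((Set.range fun t => algebraMap L K (f t)) ∪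
        Set.range fun b : L => algebraMap L K (b ^ p - b)))
    (hgen : IntermediateField.adjoin L (Set.range w) = ⊤) :
    ∃ (T I : Type) (_ : Finite T) (_ : Fintype I) (M' : LM (⊥ : Subalgebra k K) ⊤ T I)
      (Γ' : G → I → ℤ), Fn M' (fun b => algebraMap L K (g b)) Γ' ∧ Frc M' ∧
        Dm M.A (algebraMap L K) M' := by
  have hcK : CharP K p := charP_of_injective_algebraMap (algebraMap k K).injective p
  have hcL : CharP L p := charP_of_injective_algebraMap (algebraMap k L).injective p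
  obtain ⟨w', lam, hw', hgen'⟩ := change_gen p L K f w hw hgen
  obtain ⟨T', I', hT', hI', M', π, Θ, n', a', h', hO, hW⟩ := wt_init p k L T0 I0 ι M f n a h hN
  have h1 : GMTd p k M.A (RingHom.id L) f g :=
    ⟨T', I', hT', hI', M', n', a', h', ⊥, _, _, hW, hG.ov hO, hR.ov hO,
      fun t => ⟨π t, fun a ha => hO.le t ha⟩⟩
  obtain ⟨T, I, hT, hI, M1, -, -, -, -, -, Γ1, -, h2, h3, h4⟩ :=
    gmt_towerd wt_pack p k M.A r L K (RingHom.id L) f g h1 w' lam hw' hgen'
  exact ⟨T, I, hT, hI, M1, Γ1, h2, h3, h4⟩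

/-- Smooth charts over the varieties. -/
theorem LM_of_NBSd {T0 I0 ι G : Type} [Finite T0] [Fintype I0] [Fintype ι] [Finite G]
    (M : LM (⊥ : Subalgebra k L) ⊤ T0 I0) {f : ι → L} {n : ι → I0 → ℤ} {a h : T0 → ι → L}
    (hN : NBS p M f n a h) {g : G → L} {Γ : G → I0 → ℤ} (hG : Fn M g Γ) (hR : Frc M)
    {r : ℕ} (w : Fin r → K)
    (hw : ∀ j, w j ^ p - w j ∈ AddSubgroup.closure
      ((Set.range fun t => algebraMap L K (f t)) ∪
        Set.range fun b : L => algebraMap L K (b ^ p - b)))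
    (hgen : IntermediateField.adjoin L (Set.range w) = ⊤)
    (A : Type u) [CommRing A] [IsDomain A] [Algebra k A] [Algebra A K]
    [IsScalarTower k A K] [IsFractionRing A K] (J : Finset T0)
    (hJ : ∀ j ∈ J, ∀ x ∈ M.A j, ∃ a : A, algebraMap A K a = algebraMap L K x) (s : G → A)
    (hs : ∀ b, algebraMap A K (s b) = algebraMap L K (g b))
    (hA : ∀ a : A, IsIntegral (Algebra.adjoin k (Set.range s ∪
      {a : A | ∃ j ∈ J, ∃ x ∈ M.A j, algebraMap A K a = algebraMap L K x})) a) :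
    ∃ (T I : Type) (_ : Finite T) (_ : Fintype I),
      Nonempty (LM (IsScalarTower.toAlgHom k A K).range (IsScalarTower.toAlgHom k A K).range
        T I) := by
  classical
  obtain ⟨T, I, hT, hI, M', Γ', hF', hR', hD'⟩ := model_of_NBSd p k L K M hN hG hR w hw hgen
  have : Fintype G := Fintype.ofFinite G
  let g1 : G → K := fun b => algebraMap L K (g b)
  -- principalize
  let g' : Option G → K := fun o => o.elim 1 g1
  let Γ0 : Option G → I → ℤ := fun o => o.elim 0 Γ'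
  have hF0 : Fn M' g' Γ0 := by
    rintro (_ | b) t
    · refine ⟨1, one_ne_zero, (M'.A t).one_mem, by rw [inv_one]; exact (M'.A t).one_mem, ?_⟩
      simp [g', Γ0]
    · exact hF' b t
  obtain ⟨T1, I1, iT1, iI1, M1, π, Θ, hE, hC⟩ := wd_ovp k K ⊥ ⊤ T I (Option G) M' Γ0
  let Γ1 : Option G → I1 → ℤ := fun a i' => ∑ i, Θ i' i * Γ0 a i
  have hF1 : Fn M1 g' Γ1 := Pool.Agent.W462.WD.Res.fn_ov hE hF0
  have hT1 : Nonempty T1 := by
    obtain ⟨t, -⟩ := M1.cv ⊤ (fun a _ => trivial)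
    exact ⟨t⟩
  have hg0 : ∀ b, g1 b ≠ 0 := by
    intro b
    obtain ⟨t⟩ := hT1
    obtain ⟨w, hw0, -, -, h1⟩ := hF1 (some b) t
    have h1' : g1 b = w * ∏ i, M1.x t i ^ Γ1 (some b) i := h1
    rw [h1']
    exact mul_ne_zero hw0 (Finset.prod_ne_zero_iff.2 fun i _ => zpow_ne_zero _ (M1.x0 t i))
  have hcmp : ∀ t b, g1 b ∈ M1.A t ∨ (g1 b)⁻¹ ∈ M1.A t := by
    intro t b
    rcases hC none (some b) t with h1 | h1
    · left
      have h2 := div_mem_of_le M1 t g' Γ1 hF1 (a := none) (b := some b) h1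
      have h3 : g' (some b) / g' none = g1 b := by simp [g']
      rwa [h3] at h2
    · right
      have h2 := div_mem_of_le M1 t g' Γ1 hF1 (a := some b) (b := none) h1
      have h3 : g' none / g' (some b) = (g1 b)⁻¹ := by simp [g']
      rwa [h3] at h2
  choose σ hσ using fun t => hD' (π t)
  have hσ1 : ∀ t, ∀ a ∈ M.A (σ t), algebraMap L K a ∈ M1.A t := fun t a ha =>
    hE.le t (hσ t a ha)
  let S : T1 → Finset G := fun t => Finset.univ.filter fun b => g1 b ∉ M1.A t
  have hS : ∀ t b, b ∈ S t ↔ g1 b ∉ M1.A t := by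
    intro t b
    simp [S]
  let q : T1 → T0 → K := fun t j => algebraMap L K (M.H j / M.H (σ t))
  have hq0 : ∀ t j, q t j ≠ 0 := fun t j =>
    (_root_.map_ne_zero _).2 (div_ne_zero (M.H0 j) (M.H0 _))
  have hqA : ∀ t j, q t j ∈ M1.A t := fun t j => hσ1 t _ (M.rt _ _)
  let r1 : T1 → K := fun t => (∏ j ∈ J, q t j) * ∏ b ∈ S t, (g1 b)⁻¹
  let ρ : A →ₐ[k] K := IsScalarTower.toAlgHom k A K
  have hρ : Function.Injective ρ := IsFractionRing.injective A K
  have hgR : ∀ b, g1 b ∈ ρ.range := fun b => ⟨s b, hs b⟩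
  have hJR : ∀ j ∈ J, ∀ x ∈ M.A j, algebraMap L K x ∈ ρ.range := by
    intro j hj x hx
    obtain ⟨a, ha⟩ := hJ j hj x hx
    exact ⟨a, ha⟩
  have hqR : ∀ t, ∀ j ∈ J, (q t j)⁻¹ ∈ ρ.range := by
    intro t j hj
    have h1 : (q t j)⁻¹ = algebraMap L K (M.H (σ t) / M.H j) := by
      change (algebraMap L K (M.H j / M.H (σ t)))⁻¹ = _
      rw [← map_inv₀, inv_div]
    rw [h1]
    exact hJR j hj _ (M.rt _ _)
  have hr1mem : ∀ t, r1 t ∈ M1.A t := by
    intro t
    refine (M1.A t).mul_mem ((M1.A t).prod_mem fun j _ => hqA t j)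
      ((M1.A t).prod_mem fun b hb => ?_)
    exact (hcmp t b).resolve_left ((hS t b).1 hb)
  have hr10 : ∀ t, r1 t ≠ 0 := fun t =>
    mul_ne_zero (Finset.prod_ne_zero_iff.2 fun j _ => hq0 t j)
      (Finset.prod_ne_zero_iff.2 fun b _ => inv_ne_zero (hg0 b))
  have hr1R : ∀ t, (r1 t)⁻¹ ∈ ρ.range := by
    intro t
    change ((∏ j ∈ J, q t j) * ∏ b ∈ S t, (g1 b)⁻¹)⁻¹ ∈ ρ.range
    rw [mul_inv, ← Finset.prod_inv_distrib, ← Finset.prod_inv_distrib]
    refine ρ.range.mul_mem (ρ.range.prod_mem fun j hj => hqR t j hj)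
      (ρ.range.prod_mem fun b _ => ?_)
    rw [inv_inv]
    exact hgR b
  -- the generators
  have hdiv : ∀ t (c d : K), r1 t = c * d → c ≠ 0 → d ∈ M1.A t → d ≠ 0 →
      c⁻¹ ∈ adj (M1.A t) (r1 t)⁻¹ := by
    intro t c d h1 h2 h3 h4
    have h5 : c⁻¹ = d * (r1 t)⁻¹ := by
      rw [h1, mul_inv, mul_left_comm, mul_inv_cancel₀ h4, mul_one]
    rw [h5]
    exact (adj (M1.A t) (r1 t)⁻¹).mul_mem (le_adj _ _ h3) (self_mem_adj _ _)
  have hgX : ∀ t b, g1 b ∈ adj (M1.A t) (r1 t)⁻¹ := by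
    intro t b
    by_cases h : g1 b ∈ M1.A t
    · exact le_adj _ _ h
    · have h1 : b ∈ S t := (hS t b).2 h
      have h2 := hdiv t (g1 b)⁻¹ ((∏ j ∈ J, q t j) * ∏ b' ∈ (S t).erase b, (g1 b')⁻¹) (by
        change (∏ j ∈ J, q t j) * ∏ b ∈ S t, (g1 b)⁻¹ = _
        rw [← Finset.mul_prod_erase _ _ h1]
        ring) (inv_ne_zero (hg0 b)) (by
          refine (M1.A t).mul_mem ((M1.A t).prod_mem fun j _ => hqA t j)
            ((M1.A t).prod_mem fun b' hb' => ?_)
          exact (hcmp t b').resolve_left ((hS t b').1 (Finset.mem_of_mem_erase hb')))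
        (mul_ne_zero (Finset.prod_ne_zero_iff.2 fun j _ => hq0 t j)
          (Finset.prod_ne_zero_iff.2 fun b _ => inv_ne_zero (hg0 b)))
      rwa [inv_inv] at h2
  have hJX : ∀ t, ∀ j ∈ J, ∀ x ∈ M.A j, algebraMap L K x ∈ adj (M1.A t) (r1 t)⁻¹ := by
    intro t j hj x hx
    obtain ⟨N, hN⟩ := M.gl (σ t) j x hx
    have h1 : algebraMap L K ((M.H j / M.H (σ t)) ^ N * x) ∈ M1.A t := hσ1 t _ hN
    have h2 := hdiv t (q t j) ((∏ j' ∈ J.erase j, q t j') * ∏ b ∈ S t, (g1 b)⁻¹) (by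
      change (∏ j ∈ J, q t j) * ∏ b ∈ S t, (g1 b)⁻¹ = _
      rw [← Finset.mul_prod_erase _ _ hj]
      ring) (hq0 t j) (by
        refine (M1.A t).mul_mem ((M1.A t).prod_mem fun j _ => hqA t j)
          ((M1.A t).prod_mem fun b' hb' => ?_)
        exact (hcmp t b').resolve_left ((hS t b').1 hb'))
      (mul_ne_zero (Finset.prod_ne_zero_iff.2 fun j _ => hq0 t j)
        (Finset.prod_ne_zero_iff.2 fun b _ => inv_ne_zero (hg0 b)))
    have h3 : algebraMap L K x = algebraMap L K ((M.H j / M.H (σ t)) ^ N * x) *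
        ((q t j)⁻¹) ^ N := by
      rw [map_mul, map_pow]
      change _ = (q t j) ^ N * _ * _
      rw [mul_right_comm, ← mul_pow, mul_inv_cancel₀ (hq0 t j), one_pow, one_mul]
    rw [h3]
    exact (adj (M1.A t) (r1 t)⁻¹).mul_mem (le_adj _ _ h1)
      ((adj (M1.A t) (r1 t)⁻¹).pow_mem h2 N)
  let X0 : Set A := Set.range s ∪
      {a : A | ∃ j ∈ J, ∃ x ∈ M.A j, algebraMap A K a = algebraMap L K x}
  have hint : ∀ y ∈ ρ.range, IsIntegral (Algebra.adjoin k (ρ '' X0)) y := by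
    rintro _ ⟨a, rfl⟩
    have h1 : Algebra.adjoin k (ρ '' X0) = (Algebra.adjoin k X0).map ρ := by
      rw [AlgHom.map_adjoin]
    rw [h1]
    obtain ⟨B, hB, hB'⟩ := hA a
    let φ : Algebra.adjoin k X0 →+* (Algebra.adjoin k X0).map ρ :=
      { toFun := fun y => ⟨ρ y, ⟨y, y.2, rfl⟩⟩
        map_one' := Subtype.ext (map_one ρ)
        map_mul' := fun y y' => Subtype.ext (map_mul ρ _ _)
        map_zero' := Subtype.ext (map_zero ρ)
        map_add' := fun y y' => Subtype.ext (map_add ρ _ _) }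
    refine ⟨B.map φ, hB.map φ, ?_⟩
    rw [eval₂_map]
    have h2 : ((algebraMap ((Algebra.adjoin k X0).map ρ) K).comp φ) =
        ρ.toRingHom.comp (algebraMap (Algebra.adjoin k X0) A) := RingHom.ext fun y => rfl
    rw [h2]
    have h3 := congrArg ρ.toRingHom hB'
    rw [hom_eval₂, map_zero] at h3
    exact h3
  have hfr : ∀ y : K, ∃ a ∈ ρ.range, ∃ b ∈ ρ.range, b ≠ 0 ∧ y = a * b⁻¹ := by
    intro y
    obtain ⟨a, b, hb, rfl⟩ := IsFractionRing.div_surjective (A := A) y
    exact ⟨_, ⟨a, rfl⟩, _, ⟨b, rfl⟩, by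
      have := nonZeroDivisors.ne_zero hb
      exact (FaithfulSMul.algebraMap_eq_zero_iff A K).not.2 this, div_eq_mul_inv _ _⟩
  obtain ⟨M2⟩ := res_gen M1 (hR'.ov hE) ρ.range (ρ '' X0) hint hfr r1 hr1mem hr10 hr1R (by
    rintro t _ ⟨a, (⟨b, rfl⟩ | ⟨j, hj, x, hx, hax⟩), rfl⟩
    · have h1 : ρ (s b) = g1 b := hs b
      rw [h1]
      exact hgX t b
    · have h1 : ρ a = algebraMap L K x := hax
      rw [h1]
      exact hJX t j hj x hx)
  exact ⟨T1, I1, iT1, iI1, ⟨M2⟩⟩

end gen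

end Pool.Agent.TH214
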