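import Pool.Agent.TH214.Point
import Pool.Agent.W558.WA.Asm1
import Pool.Agent.W349.WD.Sum

/-! Models with dual logarithmic tangent vectors and transport to logarithmic modifications. -/

set_option autoImplicit false
set_option linter.unusedVariables false
set_option linter.unusedSectionVars false

universe u

open Pool.Agent.W558 Pool.Agent.W177.WD

namespace Pool.Agent.TH214

section dual

variable {k K : Type u} [Field k] [Field K] [Algebra k K] {R0 R : Subalgebra k K} {T I : Type}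
  [Fintype I] {ι G J : Type}

/-- At each point of `M` there are logarithmic tangent vectors with arbitrary logarithmic values
on the functions `y j`, on which the logarithmic forms of the `h j` and of the `g b` vanish. -/
def Dual (M : LM R0 R T I) (n : ι → I → ℤ) (h : T → ι → K) (g : G → K) (Γ : G → I → ℤ)
    (y : J → K) (Y : J → I → ℤ) : Prop :=
  ∀ t (κ : Type u) [Field κ] [Algebra k κ] (φ : M.A t →ₐ[k] κ) (c : J → κ),
    ∃ v : LT φ (M.x t), (∀ l (hh : h t l ∈ M.A t), om v (n l) hh = 0) ∧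
      (∀ b, LGF v (Γ b) (g b) 0) ∧ ∀ j, LGF v (Y j) (y j) (c j)

end dual

section ov

variable {k K : Type u} [Field k] [Field K] [Algebra k K] {R0 R R0' R' : Subalgebra k K}
  {T I T' I' : Type} [Fintype I] [Fintype I'] {M : LM R0 R T I} {M' : LM R0' R' T' I'}
  {π : T' → T} {Θ : I' → I → ℤ} (hOv : Ov M M' π Θ)

/-- The transformed exponents. -/
def tr (Θ : I' → I → ℤ) (γ : I → ℤ) (i' : I') : ℤ := ∑ i, Θ i' i * γ i

section pt

variable {t' : T'} {κ : Type u} [Field κ] [Algebra k κ] {φ' : M'.A t' →ₐ[k] κ}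
  (v : LT (φ'.comp (Subalgebra.inclusion (hOv.le t'))) (M.x (π t')))
  (v' : LT φ' (M'.x t'))
  (h1 : ∀ a (ha : a ∈ M.A (π t')), v'.D.D ⟨a, hOv.le t' ha⟩ = v.D.D ⟨a, ha⟩)
  (h2 : ∀ i, ∑ i', (Θ i' i : κ) * v'.e i' = v.e i)

include h2 in
lemma sum_tr (n : I → ℤ) :
    ∑ i', (tr Θ n i' : κ) * v'.e i' = ∑ i, (n i : κ) * v.e i := by
  have h3 : ∀ i', (tr Θ n i' : κ) * v'.e i' = ∑ i, (n i : κ) * ((Θ i' i : κ) * v'.e i') := by
    intro i'
    unfold tr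
    push_cast
    rw [Finset.sum_mul]
    apply Finset.sum_congr rfl
    intro i _
    ring
  rw [Finset.sum_congr rfl fun i' _ => h3 i', Finset.sum_comm]
  apply Finset.sum_congr rfl
  intro i _
  rw [← Finset.mul_sum, h2 i]

include h1 h2 in
lemma om_tr (n : I → ℤ) {h : K} (hh : h ∈ M.A (π t')) (hh' : h ∈ M'.A t') :
    om v' (tr Θ n) hh' = om v n hh := by
  unfold om
  rw [sum_tr hOv v v' h2 n]
  have h3 : v'.D.D ⟨h, hh'⟩ = v.D.D ⟨h, hh⟩ := h1 _ hh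
  have h4 : (φ'.comp (Subalgebra.inclusion (hOv.le t'))) ⟨h, hh⟩ = φ' ⟨h, hh'⟩ := rfl
  rw [h3, h4]

include h1 h2 in
lemma lgf_tr {γ : I → ℤ} {z : K} {s : κ} (h : LGF v γ z s) : LGF v' (tr Θ γ) z s := by
  obtain ⟨w, w0, wi, hz, hD⟩ := h
  refine ⟨w, w0, hOv.le t' wi, ?_, hOv.le t' hD.mem, ?_⟩
  · rw [hz, prod_ov hOv]
    rfl
  · rw [sum_tr hOv v v' h2 γ]
    have h3 := hD.eq hD.mem
    have h4 : v'.D.D ⟨w, hOv.le t' hD.mem⟩ = v.D.D ⟨w, hD.mem⟩ := h1 _ hD.mem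
    have h5 : (φ'.comp (Subalgebra.inclusion (hOv.le t'))) ⟨w, hD.mem⟩ =
      φ' ⟨w, hOv.le t' hD.mem⟩ := rfl
    rw [h4, h3, h5]

end pt

include hOv in
lemma Dual.ov {ι G J : Type} {n : ι → I → ℤ} {h : T → ι → K} (hA : ∀ t l, h t l ∈ M.A t)
    {g : G → K} {Γ : G → I → ℤ} {y : J → K} {Y : J → I → ℤ} (hD : Dual M n h g Γ y Y) :
    Dual M' (fun l => tr Θ (n l)) (fun t' => h (π t')) g (fun b => tr Θ (Γ b)) y
      (fun j => tr Θ (Y j)) := by
  intro t' κ _ _ φ' c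
  obtain ⟨v, hv1, hv2, hv3⟩ := hD (π t') κ (φ'.comp (Subalgebra.inclusion (hOv.le t'))) c
  obtain ⟨v', h1, h2⟩ := hOv.lt t' κ φ' v
  refine ⟨v', ?_, ?_, ?_⟩
  · intro l hh
    rw [om_tr hOv v v' h1 h2 (n l) (hA _ l)]
    exact hv1 l _
  · intro b
    exact lgf_tr hOv v v' h1 h2 (hv2 b)
  · intro j
    exact lgf_tr hOv v v' h1 h2 (hv3 j)

include hOv in
lemma pole_ov (hΘ : ∀ i' i, 0 ≤ Θ i' i) {n : I → ℤ} (hn : ∀ i, n i ≤ 0) {t' : T'} {κ : Type u}
    [Field κ] [Algebra k κ] (φ' : M'.A t' →ₐ[k] κ)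
    (h : ∃ i', tr Θ n i' < 0 ∧ φ' ⟨M'.x t' i', M'.xA t' i'⟩ = 0) :
    ∃ i, n i < 0 ∧ (φ'.comp (Subalgebra.inclusion (hOv.le t')))
      ⟨M.x (π t') i, M.xA (π t') i⟩ = 0 := by
  obtain ⟨i0, hNneg, hi0'⟩ := h
  obtain ⟨i1, _, hi1⟩ := Finset.exists_lt_of_sum_lt (s := Finset.univ)
    (f := fun i => Θ i0 i * n i) (g := fun _ => (0 : ℤ)) (by simpa [tr] using hNneg)
  have hn1 : n i1 < 0 := by
    rcases lt_or_eq_of_le (hn i1) with h1 | h1
    · exact h1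
    · rw [h1, mul_zero] at hi1
      exact absurd hi1 (lt_irrefl _)
  have hΘ1 : 0 < Θ i0 i1 := by
    rcases lt_or_eq_of_le (hΘ i0 i1) with h1 | h1
    · exact h1
    · rw [← h1, zero_mul] at hi1
      exact absurd hi1 (lt_irrefl _)
  refine ⟨i1, hn1, ?_⟩
  have h1 : (Subalgebra.inclusion (hOv.le t')) ⟨M.x (π t') i1, M.xA (π t') i1⟩ =
      ∏ i', (⟨M'.x t' i', M'.xA t' i'⟩ : M'.A t') ^ (Θ i' i1).toNat := by
    apply Subtype.ext
    change M.x (π t') i1 =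
      (M'.A t').val (∏ i', (⟨M'.x t' i', M'.xA t' i'⟩ : M'.A t') ^ (Θ i' i1).toNat)
    rw [map_prod, hOv.x]
    refine Finset.prod_congr rfl fun i' _ => ?_
    change M'.x t' i' ^ Θ i' i1 = M'.x t' i' ^ (Θ i' i1).toNat
    rw [← zpow_natCast, Int.toNat_of_nonneg (hΘ i' i1)]
  change φ' ((Subalgebra.inclusion (hOv.le t')) ⟨M.x (π t') i1, M.xA (π t') i1⟩) = 0
  rw [h1, map_prod]
  refine Finset.prod_eq_zero (Finset.mem_univ i0) ?_
  rw [map_pow, hi0', zero_pow (by omega)]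

include hOv in
lemma nbs_ov {p : ℕ} (hΘ : ∀ i' i, 0 ≤ Θ i' i) {ι : Type} {f : ι → K} {n : ι → I → ℤ}
    {a h : T → ι → K} (hN : NBS p M f n a h) :
    NBS p M' f (fun l => tr Θ (n l)) (fun t' => a (π t')) (fun t' => h (π t')) where
  n0 := by
    intro j i'
    refine Finset.sum_nonpos fun i _ => ?_
    exact mul_nonpos_of_nonneg_of_nonpos (hΘ i' i) (hN.n0 j i)
  hA := fun t' j => hOv.le t' (hN.hA (π t') j)
  eq := by
    intro t' j
    have h1 := hN.eq (π t') j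
    rw [prod_ov hOv] at h1
    exact h1
  ln := by
    intro t' κ _ _ φ' j hj
    obtain ⟨v, hv1, hv2⟩ := hN.ln (π t') κ (φ'.comp (Subalgebra.inclusion (hOv.le t'))) j
      (pole_ov hOv hΘ (hN.n0 j) φ' hj)
    obtain ⟨v', h1, h2⟩ := hOv.lt t' κ φ' v
    refine ⟨v', ?_, ?_⟩
    · rw [om_tr hOv v v' h1 h2 (n j) (hN.hA _ j)]
      exact hv1
    · intro l hl
      rw [om_tr hOv v v' h1 h2 (n l) (hN.hA _ l)]
      exact hv2 l hl

include hOv in
lemma nfj_ov {p : ℕ} {ι : Type} {f : ι → K} {n : ι → I → ℤ}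
    {a h : T → ι → K} (hN : NFJ p M f n a h) :
    NFJ p M' f (fun l => tr Θ (n l)) (fun t' => a (π t')) (fun t' => h (π t')) where
  hA := fun t' j => hOv.le t' (hN.hA (π t') j)
  eq := by
    intro t' j
    have h1 := hN.eq (π t') j
    rw [prod_ov hOv] at h1
    exact h1
  ln := by
    intro t' κ _ _ φ' j
    obtain ⟨v, hv1, hv2⟩ := hN.ln (π t') κ (φ'.comp (Subalgebra.inclusion (hOv.le t'))) j
    obtain ⟨v', h1, h2⟩ := hOv.lt t' κ φ' v
    refine ⟨v', ?_, ?_⟩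
    · rw [om_tr hOv v v' h1 h2 (n j) (hN.hA _ j)]
      exact hv1
    · intro l hl
      rw [om_tr hOv v v' h1 h2 (n l) (hN.hA _ l)]
      exact hv2 l hl

end ov

end Pool.Agent.TH214
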