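import Pool.Agent.TH214.Prod
import Pool.Agent.W558.WT.Asm3
import Pool.Agent.W558.WA.Asm3

/-! Models of elementary abelian extensions given by twisted Laurent polynomials. -/

set_option autoImplicit false
set_option linter.unusedVariables false
set_option linter.unusedSectionVars false

universe u

open Pool.Agent.W558 Pool.Agent.W177.WD Polynomial TensorProduct

namespace Pool.Agent.TH214

lemma gma_prod_mono {p : ℕ} {k L : Type u} [Field k] [Field L] [Algebra k L] {ι J G : Type}
    [Fintype J] {f : ι → L} {g : J × G → L} (h : GMA p k f g) :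
    GMA p k f (fun b => ∏ j, g (j, b)) := by
  obtain ⟨T, I, hT, hI, M, n, a, h, Γ, hN, hG, hR⟩ := h
  exact ⟨T, I, hT, hI, M, n, a, h, _, hN, hG.prod, hR⟩

/-- Monomials in the functions. -/
lemma fn_monomials {k L : Type u} [Field k] [Field L] [Algebra k L] {R0 R : Subalgebra k L}
    {T I : Type} [Fintype I] {M : LM R0 R T I} {G J : Type} [Fintype J] {g : G → L} {y : J → L}
    {Γ : G ⊕ J → I → ℤ} (h : Fn M (Sum.elim g y) Γ) {G' : Type} (q : G' → G) (e : G' → J → ℤ) :
    Fn M (fun b => g (q b) * ∏ j, y j ^ e b j)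
      (fun b i => Γ (Sum.inl (q b)) i + ∑ j, e b j * Γ (Sum.inr j) i) := by
  intro b t
  obtain ⟨w, w0, wA, wi, hw⟩ := h (Sum.inl (q b)) t
  choose v v0 vA vi hv using fun j => h (Sum.inr j) t
  simp only [Sum.elim_inl] at hw
  simp only [Sum.elim_inr] at hv
  refine ⟨w * ∏ j, v j ^ e b j, mul_ne_zero w0 (Finset.prod_ne_zero_iff.2 fun j _ =>
    zpow_ne_zero _ (v0 j)), (M.A t).mul_mem wA ((M.A t).prod_mem fun j _ =>
    zpow_mem_of (vA j) (Or.inr (vi j))), ?_, ?_⟩
  · rw [mul_inv, ← Finset.prod_inv_distrib]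
    refine (M.A t).mul_mem wi ((M.A t).prod_mem fun j _ => ?_)
    rw [← zpow_neg]
    exact zpow_mem_of (vA j) (Or.inr (vi j))
  · have h1 : ∏ j, y j ^ e b j = (∏ j, v j ^ e b j) *
        ∏ i, M.x t i ^ (∑ j, e b j * Γ (Sum.inr j) i) := by
      rw [prod_zpow_comm (M.x t) (M.x0 t), ← Finset.prod_mul_distrib]
      refine Finset.prod_congr rfl fun j _ => ?_
      rw [← mul_zpow, ← hv j]
    have h2 : ∏ i, M.x t i ^ (Γ (Sum.inl (q b)) i + ∑ j, e b j * Γ (Sum.inr j) i) =
        (∏ i, M.x t i ^ Γ (Sum.inl (q b)) i) *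
          ∏ i, M.x t i ^ (∑ j, e b j * Γ (Sum.inr j) i) := by
      rw [← Finset.prod_mul_distrib]
      exact Finset.prod_congr rfl fun i _ => zpow_add₀ (M.x0 t i) _ _
    change g (q b) * ∏ j, y j ^ e b j =
      (w * ∏ j, v j ^ e b j) * ∏ i, M.x t i ^ (Γ (Sum.inl (q b)) i + ∑ j, e b j * Γ (Sum.inr j) i)
    rw [h1, h2, hw]
    ring

section main

variable (p : ℕ) [Fact p.Prime] (k K : Type u) [Field k] [PerfectField k] [CharP k p] [Field K]
  [Algebra k K] [CharP K p] (m n : ℕ) (x : Fin m → Fin 2 → K) (y : Fin n → K)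
  (P Q : Fin m → MvPolynomial (Fin 2) k) (τ : Type) [Fintype τ] (F : τ → (Fin n → ℤ) →₀ k)
  (tw : τ → Prop) (U V : τ → Fin m → MvPolynomial (Fin 2) k) (b : τ → K)
  (r : ℕ) (w : Fin r → K) (lam : Fin r → Fin m → ZMod p) (mu : Fin r → τ → ZMod p)

/-- Models of elementary abelian extensions of the field `k (x, y)` given by sums of functions
of two of the variables `x` each and of products of such functions with jointly nondegenerate
Laurent polynomials in `y`. -/
theorem tw_model (hxy : AlgebraicIndependent k (Sum.elim (fun q : Fin m × Fin 2 => x q.1 q.2) y))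
    (hQ : ∀ i, Q i ≠ 0) (hU : ∀ t i, U t i ≠ 0) (hV : ∀ t i, V t i ≠ 0) (hND : ND F tw)
    (hb1 : ∀ t, tw t → b t =
      ∏ i, MvPolynomial.aeval (x i) (U t i) / MvPolynomial.aeval (x i) (V t i))
    (hb0 : ∀ t, ¬ tw t → b t = 1)
    (hw : ∀ j, w j ^ p - w j = ∑ i, zc p K (lam j i) *
      (MvPolynomial.aeval (x i) (P i) / MvPolynomial.aeval (x i) (Q i)) +
      ∑ t, zc p K (mu j t) * (b t * ∑ e ∈ (F t).support, F t e • ∏ l, y l ^ e l))
    (hgen : IntermediateField.adjoin k (Set.range w ∪
      Set.range (Sum.elim (fun q : Fin m × Fin 2 => x q.1 q.2) y)) = ⊤)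
    (G : Type) [Finite G] (s : G → K) (R S : G → Fin m → MvPolynomial (Fin 2) k)
    (hR : ∀ b i, R b i ≠ 0) (hS : ∀ b i, S b i ≠ 0) (ex : G → Fin n → ℤ)
    (hs' : ∀ b, s b = (∏ i, MvPolynomial.aeval (x i) (R b i) / MvPolynomial.aeval (x i) (S b i)) *
      ∏ l, y l ^ ex b l) :
    ∃ (T I : Type) (_ : Finite T) (_ : Fintype I) (M : LM (⊥ : Subalgebra k K) ⊤ T I)
      (Γ : G → I → ℤ), Fn M s Γ ∧ Frc M := by
  classical
  have hp : p.Prime := Fact.out
  let J := (Fin m × Fin 2) ⊕ Fin n
  let L := RF k J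
  let E := RF k (Fin 2)
  let _ : Algebra L K := (rsub hxy).toRingHom.toAlgebra
  have tL : IsScalarTower k L K := IsScalarTower.of_algebraMap_eq fun c =>
    ((rsub hxy).commutes c).symm
  have hcL : CharP L p := charP_of_injective_algebraMap (algebraMap k L).injective p
  let v : J → L := fun q => algebraMap (MvPolynomial J k) L (MvPolynomial.X q)
  have hv : Rat (k := k) v := rat_RF _
  let v1 : Fin m × Fin 2 → L := fun q => v (Sum.inl q)
  let y1 : Fin n → L := fun l => v (Sum.inr l)
  have hvs : v = Sum.elim v1 y1 := by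
    funext q
    rcases q with q | l <;> rfl
  have hs : Rat (k := k) (Sum.elim v1 y1) := by
    rw [← hvs]
    exact hv
  have hv1 : AlgebraicIndependent k v1 := hs.ind.comp Sum.inl Sum.inl_injective
  have hy1 : AlgebraicIndependent k y1 := hs.ind.comp Sum.inr Sum.inr_injective
  have hLK : ∀ y : L, algebraMap L K y = rsub hxy y := fun y => rfl
  let L1 := RF k (Fin m × Fin 2)
  let v0 : Fin m × Fin 2 → L1 := fun q => algebraMap (MvPolynomial (Fin m × Fin 2) k) L1
    (MvPolynomial.X q)
  have hv0 : Rat (k := k) v0 := rat_RF _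
  have hvi : ∀ i, AlgebraicIndependent k (fun c => v0 (i, c)) := fun i =>
    hv0.ind.comp (fun c => (i, c)) (Prod.mk_right_injective i)
  have hval : ∀ (i : Fin m) (A : MvPolynomial (Fin 2) k),
      algebraMap L K (rsub hv1 (rsub (hvi i) (algebraMap (MvPolynomial (Fin 2) k) E A))) =
        MvPolynomial.aeval (x i) A := by
    intro i A
    have hxi : AlgebraicIndependent k (fun c => x i c) :=
      hxy.comp (fun c => Sum.inl (i, c)) (fun a b hab => by simpa using hab)
    have h1 : ∀ z : L1, rsub hxy (rsub hv1 z) = ((rsub hxy).comp (rsub hv1)) z := fun z => rfl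
    rw [hLK, h1, rsub_rsub (hvi i) ((rsub hxy).comp (rsub hv1)) hxi, rsub_algebraMap]
    intro c
    change rsub hxy (rsub hv1 (v0 (i, c))) = _
    have h2 : rsub hv1 (v0 (i, c)) = v1 (i, c) := rsub_X hv1 (i, c)
    rw [h2]
    exact rsub_X hxy (Sum.inl (i, c))
  let f : Fin m → E := fun i => algebraMap (MvPolynomial (Fin 2) k) E (P i) /
    algebraMap (MvPolynomial (Fin 2) k) E (Q i)
  let c : Fin m → τ ⊕ G → E := fun i => Sum.elim
    (fun t => algebraMap (MvPolynomial (Fin 2) k) E (U t i) /
      algebraMap (MvPolynomial (Fin 2) k) E (V t i))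
    (fun b => algebraMap (MvPolynomial (Fin 2) k) E (R b i) /
      algebraMap (MvPolynomial (Fin 2) k) E (S b i))
  have hne : ∀ A : MvPolynomial (Fin 2) k, A ≠ 0 →
      algebraMap (MvPolynomial (Fin 2) k) E A ≠ 0 := fun A hA =>
    (FaithfulSMul.algebraMap_eq_zero_iff _ _).not.2 hA
  have hc : ∀ i b, c i b ≠ 0 := by
    rintro i (t | b)
    · exact div_ne_zero (hne _ (hU t i)) (hne _ (hV t i))
    · exact div_ne_zero (hne _ (hR b i)) (hne _ (hS b i))
  have hGM := gma_family (p := p) wa_prod (τ ⊕ G)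
    (fun f c hc => gma_plane wa_gin wa_gir wa_loc p k (τ ⊕ G) f c hc) (Fin m) L1 v0 hv0 f c hc
  have hGM1 := gma_prod_mono hGM
  have hGM2 := gmd_prod (rsub hv1) (rsub hy1) (productMap_injective_of_ind hs.ind hv1 hy1)
    (productMap_gen hs hv1 hy1) hGM1 (rat_RF (Fin n))
  let e : τ → Option (τ ⊕ G) := fun t => if tw t then some (Sum.inl t) else none
  have he : ∀ t, e t ≠ none ↔ tw t := by
    intro t
    change (if tw t then some (Sum.inl t) else none) ≠ none ↔ tw t
    split_ifs with h
    · exact ⟨fun _ => h, fun _ => by simp⟩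
    · exact ⟨fun h' => absurd rfl h', fun h' => absurd h' h⟩
  have hND' : ND F fun t => e t ≠ none := by
    intro κ _ _ l z hz t0 ht0
    obtain ⟨a, h1, h2⟩ := hND κ l z hz t0 (ht0.imp_left (he t0).1)
    exact ⟨a, h1, fun t hne ht => h2 t hne (ht.imp_left (he t).1)⟩
  have hGM3 := gma_twist wa_ovp hGM2 F e hND'
  have hGT := gmt_init wt_pack hGM3
  -- the values in `K`
  have hyK : ∀ l, algebraMap L K (rsub hy1 (algebraMap (MvPolynomial (Fin n) k) (RF k (Fin n))
      (MvPolynomial.X l))) = y l := by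
    intro l
    rw [rsub_X hy1 l]
    exact rsub_X hxy (Sum.inr l)
  have hfK : ∀ i, algebraMap L K (rsub hv1 (rsub (hvi i) (f i))) =
      MvPolynomial.aeval (x i) (P i) / MvPolynomial.aeval (x i) (Q i) := by
    intro i
    rw [map_div₀, map_div₀, map_div₀, hval, hval]
  have hcK : ∀ (q : τ ⊕ G), algebraMap L K (rsub hv1 (∏ i, rsub (hvi i) (c i q))) =
      Sum.elim (fun t => ∏ i, MvPolynomial.aeval (x i) (U t i) / MvPolynomial.aeval (x i) (V t i))
        (fun b => ∏ i, MvPolynomial.aeval (x i) (R b i) / MvPolynomial.aeval (x i) (S b i)) q := by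
    intro q
    rw [map_prod, map_prod]
    rcases q with t | b
    · refine Finset.prod_congr rfl fun i _ => ?_
      change algebraMap L K (rsub hv1 (rsub (hvi i) (_ / _))) = _
      rw [map_div₀, map_div₀, map_div₀, hval, hval]
    · refine Finset.prod_congr rfl fun i _ => ?_
      change algebraMap L K (rsub hv1 (rsub (hvi i) (_ / _))) = _
      rw [map_div₀, map_div₀, map_div₀, hval, hval]
  have htop : IntermediateField.adjoin L (Set.range w) = ⊤ := by
    rw [eq_top_iff]
    intro y' _
    have hy : y' ∈ IntermediateField.adjoin k (Set.range w ∪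
      Set.range (Sum.elim (fun q : Fin m × Fin 2 => x q.1 q.2) y)) := by
      rw [hgen]; trivial
    have hle : IntermediateField.adjoin k (Set.range w ∪
      Set.range (Sum.elim (fun q : Fin m × Fin 2 => x q.1 q.2) y)) ≤
        (IntermediateField.adjoin L (Set.range w)).restrictScalars k := by
      rw [IntermediateField.adjoin_le_iff]
      rintro y' (⟨j, rfl⟩ | ⟨q, rfl⟩)
      · exact IntermediateField.subset_adjoin L _ ⟨j, rfl⟩
      · change (Sum.elim (fun q : Fin m × Fin 2 => x q.1 q.2) y) q ∈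
          IntermediateField.adjoin L (Set.range w)
        have e1 : (Sum.elim (fun q : Fin m × Fin 2 => x q.1 q.2) y) q =
            algebraMap L K (v q) := (rsub_X hxy q).symm
        rw [e1]
        exact IntermediateField.algebraMap_mem _ _
    exact hle hy
  obtain ⟨T', I', hT', hI', M', n', a', h', Λ', R', Γ', -, hF', hR'⟩ :=
    gmt_tower wt_pack p k r L K _ _ hGT w (fun j => Sum.elim (lam j) (mu j)) (by
      intro j
      rw [hw j, Fintype.sum_sum_type]
      congr 1
      · refine Finset.sum_congr rfl fun i _ => ?_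
        exact congrArg _ (hfK i).symm
      · refine Finset.sum_congr rfl fun t _ => ?_
        refine congrArg _ ?_
        simp only [Sum.elim_inr]
        unfold twf
        rw [map_mul, map_sum]
        congr 1
        · by_cases ht : tw t
          · have h1 : e t = some (Sum.inl t) := if_pos ht
            rw [h1, hb1 t ht]
            exact (hcK (Sum.inl t)).symm
          · have h1 : e t = none := if_neg ht
            rw [h1, hb0 t ht]
            exact (map_one _).symm
        · refine Finset.sum_congr rfl fun q _ => ?_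
          rw [Algebra.smul_def, Algebra.smul_def, map_mul, ← IsScalarTower.algebraMap_apply k L K,
            map_prod]
          congr 1
          refine Finset.prod_congr rfl fun l _ => ?_
          rw [map_zpow₀, hyK]) htop
  have hF2 : Fn M' (Sum.elim (fun q : τ ⊕ G => algebraMap L K
      (rsub hv1 (∏ i, rsub (hvi i) (c i q)))) y) Γ' := by
    intro q
    have h1 := hF' q
    rcases q with q | l
    · exact h1
    · have h2 : (fun b => (algebraMap L K)
          ((Sum.elim (fun b => (rsub hv1) (∏ j, (rsub (hvi j)) (c j b)))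
            fun j => (rsub hy1) ((algebraMap (MvPolynomial (Fin n) k) (RF k (Fin n)))
              (MvPolynomial.X j))) b)) (Sum.inr l) = y l := hyK l
      intro t
      obtain ⟨w', a1, a2, a3, a4⟩ := h1 t
      refine ⟨w', a1, a2, a3, ?_⟩
      rw [← a4]
      exact h2.symm
  obtain ⟨Γf, hF3⟩ : ∃ Γf : G → I' → ℤ, Fn M' (fun b : G => algebraMap L K
      (rsub hv1 (∏ i, rsub (hvi i) (c i (Sum.inr b)))) * ∏ l, y l ^ ex b l) Γf :=
    ⟨_, fn_monomials hF2 (fun b : G => Sum.inr b) ex⟩
  refine ⟨T', I', hT', hI', M', Γf, ?_, hR'⟩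
  have e2 : (fun b : G => algebraMap L K (rsub hv1 (∏ i, rsub (hvi i) (c i (Sum.inr b)))) *
      ∏ l, y l ^ ex b l) = s := by
    funext b
    rw [hs', hcK]
    rfl
  rw [← e2]
  exact hF3

end main

end Pool.Agent.TH214
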