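import Pool.Agent.TH214.TwistJ
import Pool.Agent.TH214.Model
import Pool.Agent.W558.WD.Asm5

/-! Models of purely inseparable extensions given by twisted Laurent polynomials. -/

set_option autoImplicit false
set_option linter.unusedVariables false
set_option linter.unusedSectionVars false

universe u

open Pool.Agent.W558 Pool.Agent.W177.WD Polynomial TensorProduct AlgebraicGeometry CategoryTheory

namespace Pool.Agent.TH214

/-- The field `L` has a model on which the functions `f j` have a joint normal form,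
the functions `g b` and `y j` are locally monomials, with dual logarithmic vectors of the `y j`. -/
def GMJD (p : ℕ) (k : Type u) {L : Type u} [Field k] [Field L] [Algebra k L] {ι G J : Type}
    (f : ι → L) (g : G → L) (y : J → L) : Prop :=
  ∃ (T I : Type) (_ : Finite T) (_ : Fintype I) (M : LM (⊥ : Subalgebra k L) ⊤ T I)
    (n : ι → I → ℤ) (a h : T → ι → L) (Γ : G → I → ℤ) (Y : J → I → ℤ),
    NFJ p M f n a h ∧ Fn M g Γ ∧ Fn M y Y ∧ Dual M n h g Γ y Y ∧ Frc M

section prod

variable {p : ℕ} {k : Type u} [Field k]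

open Pool.Agent.W191.WD.Prod in
/-- The product with a compactified torus. -/
theorem gmjd_prod {E1 E2 L : Type u} [Field E1] [Field E2] [Field L] [Algebra k E1] [Algebra k E2]
    [Algebra k L] (j1 : E1 →ₐ[k] L) (j2 : E2 →ₐ[k] L)
    (hinj0 : Function.Injective (Algebra.TensorProduct.productMap j1 j2))
    (hfr : ∀ x : L, ∃ a b : E1 ⊗[k] E2, b ≠ 0 ∧
      x * Algebra.TensorProduct.productMap j1 j2 b = Algebra.TensorProduct.productMap j1 j2 a)
    {ι G : Type} {r : ℕ} {f : ι → E1} {g : G → E1} {y : Fin r → E2}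
    (h1 : GM p k f g) (h2 : Rat (k := k) y) :
    GMJD p k (fun l => j1 (f l)) (fun b => j1 (g b)) (fun j => j2 (y j)) := by
  obtain ⟨T1, I1, hT1, hI1, M1, n1, a1, h1, Γ1, hN1, hF1, hR1⟩ := h1
  obtain ⟨T2, I2, hT2, hI2, M2, Y, hY, hD2, hR2⟩ := exists_torus h2
  let _ : Algebra E1 L := j1.toRingHom.toAlgebra
  let _ : Algebra E2 L := j2.toRingHom.toAlgebra
  have t1 : IsScalarTower k E1 L := IsScalarTower.of_algebraMap_eq fun x => (j1.commutes x).symm
  have t2 : IsScalarTower k E2 L := IsScalarTower.of_algebraMap_eq fun x => (j2.commutes x).symm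
  have e1 : IsScalarTower.toAlgHom k E1 L = j1 := AlgHom.ext fun x => rfl
  have e2 : IsScalarTower.toAlgHom k E2 L = j2 := AlgHom.ext fun x => rfl
  have hinj : Inj L k E1 E2 := by
    unfold Inj
    rw [e1, e2]
    exact hinj0
  have hA : ∀ (t : T1 × T2) (j : ι), algebraMap E1 L (h1 t.1 j) ∈ (prodLM hinj M1 M2).A t :=
    fun t j => meml (hN1.hA _ _)
  have hFg : Fn (prodLM hinj M1 M2) (fun b => algebraMap E1 L (g b))
      (fun b => Sum.elim (Γ1 b) 0) := by
    intro b t
    obtain ⟨w, hw0, hw, hw', e⟩ := hF1 b t.1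
    refine ⟨algebraMap E1 L w, (_root_.map_ne_zero _).2 hw0, meml hw, ?_, ?_⟩
    · rw [← map_inv₀]
      exact meml hw'
    · rw [prod_monl, ← map_mul, ← e]
  have hFy : Fn (prodLM hinj M1 M2) (fun j => algebraMap E2 L (y j))
      (fun j => Sum.elim 0 (Y j)) := by
    intro b t
    obtain ⟨w, hw0, hw, hw', e⟩ := hY b t.2
    refine ⟨algebraMap E2 L w, (_root_.map_ne_zero _).2 hw0, memr hw, ?_, ?_⟩
    · rw [← map_inv₀]
      exact memr hw'
    · rw [prod_monr, ← map_mul, ← e]
  refine ⟨T1 × T2, I1 ⊕ I2, inferInstance, inferInstance, prodLM hinj M1 M2,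
    fun j => Sum.elim (n1 j) 0, fun t j => algebraMap E1 L (a1 t.1 j),
    fun t j => algebraMap E1 L (h1 t.1 j), fun b => Sum.elim (Γ1 b) 0, fun j => Sum.elim 0 (Y j),
    ?_, hFg, hFy, ?_, frc hinj ?_ M1 M2 hR1 hR2⟩
  · refine ⟨hA, ?_, ?_⟩
    · rintro t j
      rw [prod_monl, ← map_pow, ← map_mul, ← map_add, ← hN1.eq]
      rfl
    · rintro t κ _ _ φ j
      obtain ⟨v1, hv1, hv1'⟩ := hN1.ln t.1 κ (φ.comp (i1 (M1.A t.1) (M2.A t.2))) j
      obtain ⟨v, hv, hv'⟩ := ext_lt hinj M1 M2 t κ φ v1 (zeroLT _ _)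
      refine ⟨v, ?_, ?_⟩
      · rw [hv (n1 j) (h1 t.1 j) (hN1.hA _ _) (hA t j)]
        exact hv1
      · intro l hl
        rw [hv (n1 l) (h1 t.1 l) (hN1.hA _ _) (hA t l)]
        exact hv1' l hl
  · intro t κ _ _ φ c
    obtain ⟨v2, hv2⟩ := hD2 t.2 κ (φ.comp (i2 (M1.A t.1) (M2.A t.2))) c
    obtain ⟨v, hv, hv'⟩ := ext_lt hinj M1 M2 t κ φ (zeroLT _ _) v2
    refine ⟨v, ?_, ?_, ?_⟩
    · intro l hh
      rw [hv (n1 l) (h1 t.1 l) (hN1.hA _ _) hh]
      exact om_zero _ _ _ _
    · intro b
      obtain ⟨w, hw0, hw, hw', e⟩ := hF1 b t.1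
      refine lgf_of_om (w := algebraMap E1 L w) ((_root_.map_ne_zero _).2 hw0) (meml hw) ?_ ?_ ?_
      · rw [← map_inv₀]
        exact meml hw'
      · rw [prod_monl, ← map_mul, ← e]
        rfl
      · rw [hv (Γ1 b) w hw (meml hw), mul_zero]
        exact om_zero _ _ _ _
    · intro j
      obtain ⟨w, hw0, hw, hw', e⟩ := hY j t.2
      refine lgf_of_om (w := algebraMap E2 L w) ((_root_.map_ne_zero _).2 hw0) (memr hw) ?_ ?_ ?_
      · rw [← map_inv₀]
        exact memr hw'
      · rw [prod_monr, ← map_mul, ← e]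
        rfl
      · rw [hv' (Y j) w hw (memr hw)]
        exact om_of_lgf (M2.x0 t.2) hw e (hv2 j)
  · rw [e1, e2]
    exact hfr

/-- Adding twisted Laurent polynomials. -/
theorem gmj_twist (hovp : WA_ovp.{u}) [Fact p.Prime] {L : Type u} [Field L] [Algebra k L]
    {ι G J τ : Type} [Fintype J] [Finite τ] {f : ι → L} {g : G → L} {y : J → L}
    (h : GMJD p k f g y) (F : τ → (J → ℤ) →₀ k) (e : τ → G) (hND : ND F fun _ => True) :
    GM p k (Sum.elim f (twf g y F (fun t => some (e t)))) (Sum.elim g y) := by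
  obtain ⟨T, I, hT, hI, M, n, a, h, Γ, Y, hN, hG, hY, hD, hR⟩ := h
  obtain ⟨T', I', hT', hI', M', π, Θ, n', a', h', hOv, hΘ, hN'⟩ :=
    add_twistJ hovp p M hN hG hY hD F e hND
  refine ⟨T', I', hT', hI', M', n', a', h', Sum.elim (fun b => tr Θ (Γ b)) (fun j => tr Θ (Y j)),
    hN', ?_, hR.ov hOv⟩
  rintro (b | j) t
  · exact hG.ov hOv b t
  · exact hY.ov hOv j t

lemma gm_prod_mono {L : Type u} [Field L] [Algebra k L] {ι J G : Type}
    [Fintype J] {f : ι → L} {g : J × G → L} (h : GM p k f g) :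
    GM p k f (fun b => ∏ j, g (j, b)) := by
  obtain ⟨T, I, hT, hI, M, n, a, h, Γ, hN, hG, hR⟩ := h
  exact ⟨T, I, hT, hI, M, n, a, h, _, hN, hG.prod, hR⟩

end prod

section main

variable (p : ℕ) [Fact p.Prime] (k K : Type u) [Field k] [PerfectField k] [CharP k p] [Field K]
  [Algebra k K] (m n : ℕ) (x : Fin m → Fin 2 → K) (y : Fin n → K)
  (P Q : Fin m → MvPolynomial (Fin 2) k) (τ : Type) [Fintype τ] (F : τ → (Fin n → ℤ) →₀ k)
  (U V : τ → Fin m → MvPolynomial (Fin 2) k) (z : K)

/-- Models of the purely inseparable extension. -/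
theorem pi_model (hxy : AlgebraicIndependent k (Sum.elim (fun q : Fin m × Fin 2 => x q.1 q.2) y))
    (hQ : ∀ i, Q i ≠ 0) (hU : ∀ t i, U t i ≠ 0) (hV : ∀ t i, V t i ≠ 0)
    (hND : ND F fun _ => True)
    (hz : z ^ p = ∑ i, MvPolynomial.aeval (x i) (P i) / MvPolynomial.aeval (x i) (Q i) +
      ∑ t, (∏ i, MvPolynomial.aeval (x i) (U t i) / MvPolynomial.aeval (x i) (V t i)) *
        ∑ e ∈ (F t).support, F t e • ∏ l, y l ^ e l)
    (hzx : z ∉ IntermediateField.adjoin k
      (Set.range (Sum.elim (fun q : Fin m × Fin 2 => x q.1 q.2) y)))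
    (hgen : IntermediateField.adjoin k
      (insert z (Set.range (Sum.elim (fun q : Fin m × Fin 2 => x q.1 q.2) y))) = ⊤)
    (G : Type) [Finite G] (s : G → K) (R S : G → Fin m → MvPolynomial (Fin 2) k)
    (hR : ∀ b i, R b i ≠ 0) (hS : ∀ b i, S b i ≠ 0) (ex : G → Fin n → ℤ)
    (hs' : ∀ b, s b = (∏ i, MvPolynomial.aeval (x i) (R b i) / MvPolynomial.aeval (x i) (S b i)) *
      ∏ l, y l ^ ex b l) :
    ∃ (T I : Type) (_ : Finite T) (_ : Fintype I) (M : LM (⊥ : Subalgebra k K) ⊤ T I)
      (Γ : G → I → ℤ), Fn M s Γ ∧ Frc M := by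
  classical
  have hp : p.Prime := Fact.out
  let J := (Fin m × Fin 2) ⊕ Fin n
  let L := RF k J
  let E := RF k (Fin 2)
  let _ : Algebra L K := (rsub hxy).toRingHom.toAlgebra
  have tL : IsScalarTower k L K := IsScalarTower.of_algebraMap_eq fun c =>
    ((rsub hxy).commutes c).symm
  have hcK : CharP K p := charP_of_injective_algebraMap (algebraMap k K).injective p
  have hcL : CharP L p := charP_of_injective_algebraMap (algebraMap k L).injective p
  let v : J → L := fun q => algebraMap (MvPolynomial J k) L (MvPolynomial.X q)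
  have hv : Rat (k := k) v := rat_RF _
  let v1 : Fin m × Fin 2 → L := fun q => v (Sum.inl q)
  let y1 : Fin n → L := fun l => v (Sum.inr l)
  have hvs : v = Sum.elim v1 y1 := by
    funext q
    rcases q with q | l <;> rfl
  have hs : Rat (k := k) (Sum.elim v1 y1) := by
    rw [← hvs]
    exact hv
  have hv1 : AlgebraicIndependent k v1 := hs.ind.comp Sum.inl Sum.inl_injective
  have hy1 : AlgebraicIndependent k y1 := hs.ind.comp Sum.inr Sum.inr_injective
  have hLK : ∀ y : L, algebraMap L K y = rsub hxy y := fun y => rfl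
  let L1 := RF k (Fin m × Fin 2)
  let v0 : Fin m × Fin 2 → L1 := fun q => algebraMap (MvPolynomial (Fin m × Fin 2) k) L1
    (MvPolynomial.X q)
  have hv0 : Rat (k := k) v0 := rat_RF _
  have hvi : ∀ i, AlgebraicIndependent k (fun c => v0 (i, c)) := fun i =>
    hv0.ind.comp (fun c => (i, c)) (Prod.mk_right_injective i)
  have hval : ∀ (i : Fin m) (A : MvPolynomial (Fin 2) k),
      algebraMap L K (rsub hv1 (rsub (hvi i) (algebraMap (MvPolynomial (Fin 2) k) E A))) =
        MvPolynomial.aeval (x i) A := by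
    intro i A
    have hxi : AlgebraicIndependent k (fun c => x i c) :=
      hxy.comp (fun c => Sum.inl (i, c)) (fun a b hab => by simpa using hab)
    have h1 : ∀ z : L1, rsub hxy (rsub hv1 z) = ((rsub hxy).comp (rsub hv1)) z := fun z => rfl
    rw [hLK, h1, rsub_rsub (hvi i) ((rsub hxy).comp (rsub hv1)) hxi, rsub_algebraMap]
    intro c
    change rsub hxy (rsub hv1 (v0 (i, c))) = _
    have h2 : rsub hv1 (v0 (i, c)) = v1 (i, c) := rsub_X hv1 (i, c)
    rw [h2]
    exact rsub_X hxy (Sum.inl (i, c))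
  let f : Fin m → E := fun i => algebraMap (MvPolynomial (Fin 2) k) E (P i) /
    algebraMap (MvPolynomial (Fin 2) k) E (Q i)
  let c : Fin m → τ ⊕ G → E := fun i => Sum.elim
    (fun t => algebraMap (MvPolynomial (Fin 2) k) E (U t i) /
      algebraMap (MvPolynomial (Fin 2) k) E (V t i))
    (fun b => algebraMap (MvPolynomial (Fin 2) k) E (R b i) /
      algebraMap (MvPolynomial (Fin 2) k) E (S b i))
  have hne : ∀ A : MvPolynomial (Fin 2) k, A ≠ 0 →
      algebraMap (MvPolynomial (Fin 2) k) E A ≠ 0 := fun A hA =>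
    (FaithfulSMul.algebraMap_eq_zero_iff _ _).not.2 hA
  have hc : ∀ i b, c i b ≠ 0 := by
    rintro i (t | b)
    · exact div_ne_zero (hne _ (hU t i)) (hne _ (hV t i))
    · exact div_ne_zero (hne _ (hR b i)) (hne _ (hS b i))
  have hGM := gm_family (p := p) wd_prod (τ ⊕ G)
    (fun f c hc => gm_plane p k (τ ⊕ G) f c hc) (Fin m) L1 v0 hv0 f c hc
  have hGM1 := gm_prod_mono hGM
  have hGM2 := gmjd_prod (rsub hv1) (rsub hy1) (productMap_injective_of_ind hs.ind hv1 hy1)
    (productMap_gen hs hv1 hy1) hGM1 (rat_RF (Fin n))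
  have hGM3 := gmj_twist wa_ovp hGM2 F (fun t => Sum.inl t) hND
  -- the values in `K`
  have hyK : ∀ l, algebraMap L K (rsub hy1 (algebraMap (MvPolynomial (Fin n) k) (RF k (Fin n))
      (MvPolynomial.X l))) = y l := by
    intro l
    rw [rsub_X hy1 l]
    exact rsub_X hxy (Sum.inr l)
  have hfK : ∀ i, algebraMap L K (rsub hv1 (rsub (hvi i) (f i))) =
      MvPolynomial.aeval (x i) (P i) / MvPolynomial.aeval (x i) (Q i) := by
    intro i
    rw [map_div₀, map_div₀, map_div₀, hval, hval]
  have hcK' : ∀ (q : τ ⊕ G), algebraMap L K (rsub hv1 (∏ i, rsub (hvi i) (c i q))) =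
      Sum.elim (fun t => ∏ i, MvPolynomial.aeval (x i) (U t i) / MvPolynomial.aeval (x i) (V t i))
        (fun b => ∏ i, MvPolynomial.aeval (x i) (R b i) / MvPolynomial.aeval (x i) (S b i)) q := by
    intro q
    rw [map_prod, map_prod]
    rcases q with t | b
    · refine Finset.prod_congr rfl fun i _ => ?_
      change algebraMap L K (rsub hv1 (rsub (hvi i) (_ / _))) = _
      rw [map_div₀, map_div₀, map_div₀, hval, hval]
    · refine Finset.prod_congr rfl fun i _ => ?_
      change algebraMap L K (rsub hv1 (rsub (hvi i) (_ / _))) = _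
      rw [map_div₀, map_div₀, map_div₀, hval, hval]
  -- the functions in `L`
  let ff : Fin m → L := fun i => rsub hv1 (rsub (hvi i) (f i))
  let tf : τ → L := twf (fun b => rsub hv1 (∏ j, rsub (hvi j) (c j b)))
    (fun j => rsub hy1 (algebraMap (MvPolynomial (Fin n) k) (RF k (Fin n)) (MvPolynomial.X j))) F
    (fun t => some (Sum.inl t))
  have htK : ∀ t, algebraMap L K (tf t) =
      (∏ i, MvPolynomial.aeval (x i) (U t i) / MvPolynomial.aeval (x i) (V t i)) *
        ∑ e ∈ (F t).support, F t e • ∏ l, y l ^ e l := by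
    intro t
    change algebraMap L K (rsub hv1 (∏ j, rsub (hvi j) (c j (Sum.inl t))) *
      ∑ m ∈ (F t).support, F t m • ∏ j, (rsub hy1 (algebraMap (MvPolynomial (Fin n) k)
        (RF k (Fin n)) (MvPolynomial.X j))) ^ m j) = _
    rw [map_mul, map_sum, hcK']
    congr 1
    refine Finset.sum_congr rfl fun q _ => ?_
    rw [Algebra.smul_def, Algebra.smul_def, map_mul, ← IsScalarTower.algebraMap_apply k L K,
      map_prod]
    congr 1
    refine Finset.prod_congr rfl fun l _ => ?_
    rw [map_zpow₀, hyK]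
  let fL : L := ∑ i, ff i + ∑ t, tf t
  have hfK : algebraMap L K fL = z ^ p := by
    rw [hz, map_add, map_sum, map_sum]
    congr 1
    · exact Finset.sum_congr rfl fun i _ => hfK i
    · exact Finset.sum_congr rfl fun t _ => htK t
  have hnp : ∀ b : L, b ^ p ≠ fL := by
    intro b hb
    have h1 : (algebraMap L K b) ^ p = z ^ p := by rw [← map_pow, hb, hfK]
    have h2 : algebraMap L K b = z := by
      have h3 : (algebraMap L K b - z) ^ p = 0 := by rw [sub_pow_char, h1, sub_self]
      exact sub_eq_zero.1 (pow_eq_zero_iff hp.ne_zero |>.1 h3)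
    apply hzx
    rw [← h2, hLK]
    obtain ⟨A, B, hB, h4⟩ := hv.gen b
    have h5 : ∀ A : MvPolynomial J k,
        rsub hxy (MvPolynomial.aeval v A) ∈ IntermediateField.adjoin k
          (Set.range (Sum.elim (fun q : Fin m × Fin 2 => x q.1 q.2) y)) := by
      intro A
      have h6 : rsub hxy (MvPolynomial.aeval v A) =
          MvPolynomial.aeval (Sum.elim (fun q : Fin m × Fin 2 => x q.1 q.2) y) A := by
        rw [← AlgHom.comp_apply, MvPolynomial.comp_aeval]
        congr 2
        funext q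
        exact rsub_X hxy q
      rw [h6]
      apply IntermediateField.algebra_adjoin_le_adjoin
      rw [Algebra.adjoin_range_eq_range_aeval]
      exact ⟨A, rfl⟩
    have hB0 : MvPolynomial.aeval v B ≠ 0 := fun h =>
      hB ((injective_iff_map_eq_zero _).1 hv.ind B h)
    have h7 : b = MvPolynomial.aeval v A / MvPolynomial.aeval v B := (eq_div_iff hB0).2 h4
    rw [h7, map_div₀]
    exact IntermediateField.div_mem _ (h5 A) (h5 B)
  -- the functions which are not p-th powers
  let ι := {i : Fin m // ¬ ∃ b, b ^ p = f i}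
  have hroot : ∀ i : Fin m, ∃ b : L, i ∉ Set.range (Subtype.val : ι → Fin m) →
      b ^ p = ff i := by
    intro i
    by_cases hi : ∃ b, b ^ p = f i
    · obtain ⟨b, hb⟩ := hi
      refine ⟨rsub hv1 (rsub (hvi i) b), fun _ => ?_⟩
      change _ = rsub hv1 (rsub (hvi i) (f i))
      rw [← map_pow, ← map_pow, hb]
    · exact ⟨0, fun h => absurd ⟨⟨i, hi⟩, rfl⟩ h⟩
  choose r hr using hroot
  let g : L := ∑ q : ι ⊕ τ, Sum.elim (fun i : ι => ff i.1) tf q
  let a0 : L := ∑ i : Fin m, if i ∈ Set.range (Subtype.val : ι → Fin m) then 0 else r i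
  have hsplit : fL = g + a0 ^ p := by
    have h1 : (∑ i : ι, ff i.1) = ∑ i : Fin m, if i ∈ Set.range (Subtype.val : ι → Fin m) then
        ff i else 0 := by
      have h2 : (∑ i : ι, ff i.1) = ∑ i ∈ (Finset.univ : Finset ι).map
          (Function.Embedding.subtype _), ff i := by
        rw [Finset.sum_map]; rfl
      rw [h2, ← Finset.sum_filter]
      refine Finset.sum_congr ?_ fun _ _ => rfl
      ext i
      simp [ι]
    have h3 : a0 ^ p = ∑ i : Fin m, if i ∈ Set.range (Subtype.val : ι → Fin m) then 0 else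
        ff i := by
      change (∑ i : Fin m, if i ∈ Set.range (Subtype.val : ι → Fin m) then 0 else r i) ^ p = _
      rw [sum_pow_char]
      refine Finset.sum_congr rfl fun i _ => ?_
      split_ifs with h
      · exact zero_pow hp.ne_zero
      · exact hr i h
    have h4 : g = ∑ i : ι, ff i.1 + ∑ t, tf t := Fintype.sum_sum_type _
    have h5 : ∑ i, ff i = (∑ i : ι, ff i.1) + a0 ^ p := by
      rw [h1, h3, ← Finset.sum_add_distrib]
      refine Finset.sum_congr rfl fun i _ => ?_
      split_ifs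
      · rw [add_zero]
      · rw [zero_add]
    change ∑ i, ff i + ∑ t, tf t = _
    rw [h4, h5]
    ring
  have hgnp : ∀ b : L, b ^ p ≠ g := by
    intro b hb
    apply hnp (b + a0)
    rw [add_pow_char, hb, hsplit]
  have hιne : Nonempty (ι ⊕ τ) := by
    by_contra hcon
    rw [not_nonempty_iff] at hcon
    apply hgnp 0
    rw [zero_pow hp.ne_zero]
    exact (Fintype.sum_empty _).symm
  have hg : ∀ h0 : Fintype (ι ⊕ τ), g = Finset.sum (@Finset.univ (ι ⊕ τ) h0)
      (Sum.elim (fun i : ι => ff i.1) tf) := by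
    intro h0
    exact Finset.sum_congr (by ext i; simp only [Finset.mem_univ]) fun _ _ => rfl
  obtain ⟨T1, I1, hT1, hI1, M1, n1, a1, h1, Γ1, hN1, hF1, hR1⟩ :=
    gm_sum wd_sum (ι := ι ⊕ τ) hGM3 g (fun h0 => hg h0)
  -- the root
  let w : K := z - algebraMap L K a0
  have hw : w ^ p = algebraMap L K g := by
    change (z - algebraMap L K a0) ^ p = _
    rw [sub_pow_char, ← hfK, hsplit, map_add, map_pow]
    ring
  have hwgen : ∀ y : K, ∃ A : L[X], aeval w A = y := by
    have hint : IsIntegral L w := by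
      refine ⟨X ^ p - C g, monic_X_pow_sub_C g hp.ne_zero, ?_⟩
      rw [← aeval_def, map_sub, map_pow, aeval_X, aeval_C, hw, sub_self]
    have htop : IntermediateField.adjoin L {w} = ⊤ := by
      rw [eq_top_iff]
      intro y' _
      have hy : y' ∈ IntermediateField.adjoin k
        (insert z (Set.range (Sum.elim (fun q : Fin m × Fin 2 => x q.1 q.2) y))) := by
        rw [hgen]; trivial
      have hle : IntermediateField.adjoin k
        (insert z (Set.range (Sum.elim (fun q : Fin m × Fin 2 => x q.1 q.2) y))) ≤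
          (IntermediateField.adjoin L {w}).restrictScalars k := by
        rw [IntermediateField.adjoin_le_iff]
        rintro y' (hyz | ⟨q, rfl⟩)
        · rw [hyz]
          change z ∈ IntermediateField.adjoin L {w}
          have e1 : z = w + algebraMap L K a0 := by simp [w]
          rw [e1]
          exact IntermediateField.add_mem _ (IntermediateField.mem_adjoin_simple_self L w)
            (IntermediateField.algebraMap_mem _ _)
        · change (Sum.elim (fun q : Fin m × Fin 2 => x q.1 q.2) y) q ∈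
            IntermediateField.adjoin L {w}
          have e1 : (Sum.elim (fun q : Fin m × Fin 2 => x q.1 q.2) y) q =
              algebraMap L K (v q) := (rsub_X hxy q).symm
          rw [e1]
          exact IntermediateField.algebraMap_mem _ _
      exact hle hy
    intro y
    have h8 : y ∈ Algebra.adjoin L {w} := by
      have h9 : y ∈ (IntermediateField.adjoin L {w}).toSubalgebra := by
        rw [htop]; trivial
      rwa [IntermediateField.adjoin_simple_toSubalgebra_of_isAlgebraic hint.isAlgebraic] at h9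
    rw [Algebra.adjoin_singleton_eq_range_aeval] at h8
    exact h8
  obtain ⟨T', I', hT', hI', M', Γ', hF', hR'⟩ := exists_LM_root wd_bun wd_ppr wd_pcut p k L K M1 g
    n1 a1 h1 _ _ hN1 hR1 hF1 hgnp w hw hwgen
  have hF2 : Fn M' (Sum.elim (fun q : τ ⊕ G => algebraMap L K
      (rsub hv1 (∏ i, rsub (hvi i) (c i q)))) y) Γ' := by
    intro q
    have h1 := hF' q
    rcases q with q | l
    · exact h1
    · have h2 : (fun b => (algebraMap L K)
          ((Sum.elim (fun b => (rsub hv1) (∏ j, (rsub (hvi j)) (c j b)))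
            fun j => (rsub hy1) ((algebraMap (MvPolynomial (Fin n) k) (RF k (Fin n)))
              (MvPolynomial.X j))) b)) (Sum.inr l) = y l := hyK l
      intro t
      obtain ⟨w', a1, a2, a3, a4⟩ := h1 t
      refine ⟨w', a1, a2, a3, ?_⟩
      rw [← a4]
      exact h2.symm
  obtain ⟨Γf, hF3⟩ : ∃ Γf : G → I' → ℤ, Fn M' (fun b : G => algebraMap L K
      (rsub hv1 (∏ i, rsub (hvi i) (c i (Sum.inr b)))) * ∏ l, y l ^ ex b l) Γf :=
    ⟨_, fn_monomials hF2 (fun b : G => Sum.inr b) ex⟩
  refine ⟨T', I', hT', hI', M', Γf, ?_, hR'⟩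
  have e2 : (fun b : G => algebraMap L K (rsub hv1 (∏ i, rsub (hvi i) (c i (Sum.inr b)))) *
      ∏ l, y l ^ ex b l) = s := by
    funext b
    rw [hs', hcK']
    rfl
  rw [← e2]
  exact hF3

/-- Models, without the assumption that the extension is proper. -/
theorem pi_model' (hxy : AlgebraicIndependent k (Sum.elim (fun q : Fin m × Fin 2 => x q.1 q.2) y))
    (hQ : ∀ i, Q i ≠ 0) (hU : ∀ t i, U t i ≠ 0) (hV : ∀ t i, V t i ≠ 0)
    (hND : ND F fun _ => True)
    (hz : z ^ p = ∑ i, MvPolynomial.aeval (x i) (P i) / MvPolynomial.aeval (x i) (Q i) +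
      ∑ t, (∏ i, MvPolynomial.aeval (x i) (U t i) / MvPolynomial.aeval (x i) (V t i)) *
        ∑ e ∈ (F t).support, F t e • ∏ l, y l ^ e l)
    (hgen : IntermediateField.adjoin k
      (insert z (Set.range (Sum.elim (fun q : Fin m × Fin 2 => x q.1 q.2) y))) = ⊤)
    (G : Type) [Finite G] (s : G → K) (R S : G → Fin m → MvPolynomial (Fin 2) k)
    (hR : ∀ b i, R b i ≠ 0) (hS : ∀ b i, S b i ≠ 0) (ex : G → Fin n → ℤ)
    (hs' : ∀ b, s b = (∏ i, MvPolynomial.aeval (x i) (R b i) / MvPolynomial.aeval (x i) (S b i)) *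
      ∏ l, y l ^ ex b l) :
    ∃ (T I : Type) (_ : Finite T) (_ : Fintype I) (M : LM (⊥ : Subalgebra k K) ⊤ T I)
      (Γ : G → I → ℤ), Fn M s Γ ∧ Frc M := by
  by_cases hzx : z ∈ IntermediateField.adjoin k
      (Set.range (Sum.elim (fun q : Fin m × Fin 2 => x q.1 q.2) y))
  · have hcK : CharP K p := charP_of_injective_algebraMap (algebraMap k K).injective p
    have htop : IntermediateField.adjoin k (Set.range (fun j : Fin 0 => (0 : K)) ∪
        Set.range (Sum.elim (fun q : Fin m × Fin 2 => x q.1 q.2) y)) = ⊤ := by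
      rw [eq_top_iff, ← hgen, IntermediateField.adjoin_le_iff]
      have hle := IntermediateField.adjoin.mono k
        (Set.range (Sum.elim (fun q : Fin m × Fin 2 => x q.1 q.2) y))
        (Set.range (fun j : Fin 0 => (0 : K)) ∪
        Set.range (Sum.elim (fun q : Fin m × Fin 2 => x q.1 q.2) y)) Set.subset_union_right
      rintro a (rfl | ha)
      · exact hle hzx
      · exact hle (IntermediateField.subset_adjoin k _ ha)
    exact tw_model p k K m n x y (fun _ => 0) (fun _ => 1) Empty (fun t => t.elim)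
      (fun _ => True) (fun t => t.elim) (fun t => t.elim) (fun t => t.elim) 0 (fun _ => 0)
      (fun _ _ => 0) (fun _ t => t.elim) hxy (fun _ => one_ne_zero) (fun t => t.elim)
      (fun t => t.elim) (fun κ _ _ l z hz t => t.elim) (fun t => t.elim) (fun t => t.elim)
      (fun j => j.elim0) htop G s R S hR hS ex hs'
  · exact pi_model p k K m n x y P Q τ F U V z hxy hQ hU hV hND hz hzx hgen G s R S hR hS ex hs'

/-- Smooth charts over the varieties. -/
theorem pi_LM (hxy : AlgebraicIndependent k (Sum.elim (fun q : Fin m × Fin 2 => x q.1 q.2) y))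
    (hQ : ∀ i, Q i ≠ 0) (hU : ∀ t i, U t i ≠ 0) (hV : ∀ t i, V t i ≠ 0)
    (hND : ND F fun _ => True)
    (hz : z ^ p = ∑ i, MvPolynomial.aeval (x i) (P i) / MvPolynomial.aeval (x i) (Q i) +
      ∑ t, (∏ i, MvPolynomial.aeval (x i) (U t i) / MvPolynomial.aeval (x i) (V t i)) *
        ∑ e ∈ (F t).support, F t e • ∏ l, y l ^ e l)
    (hgen : IntermediateField.adjoin k
      (insert z (Set.range (Sum.elim (fun q : Fin m × Fin 2 => x q.1 q.2) y))) = ⊤)
    (A : Type u) [CommRing A] [IsDomain A] [Algebra k A] [Algebra.FiniteType k A] [Algebra A K]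
    [IsScalarTower k A K] [IsFractionRing A K] (S : Finset A)
    (hS : ∀ a ∈ S, ∃ (R H : Fin m → MvPolynomial (Fin 2) k) (e : Fin n → ℤ),
      (∀ i, R i ≠ 0 ∧ H i ≠ 0) ∧ algebraMap A K a =
        (∏ i, MvPolynomial.aeval (x i) (R i) / MvPolynomial.aeval (x i) (H i)) *
          ∏ l, y l ^ e l)
    (hA : ∀ a : A, IsIntegral (Algebra.adjoin k (S : Set A)) a) :
    ∃ (T I : Type) (_ : Finite T) (_ : Fintype I),
      Nonempty (LM (IsScalarTower.toAlgHom k A K).range (IsScalarTower.toAlgHom k A K).range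
        T I) := by
  classical
  let ρ : A →ₐ[k] K := IsScalarTower.toAlgHom k A K
  have hρ : Function.Injective ρ := IsFractionRing.injective A K
  obtain ⟨e⟩ : Nonempty ({a // a ∈ S} ≃ Fin S.card) := ⟨S.equivFin⟩
  choose R H ex hFH hFH' using fun b : Fin S.card => hS (e.symm b).1 (e.symm b).2
  obtain ⟨T, I, hT, hI, M, Γ, hFn, hR⟩ := pi_model' p k K m n x y P Q τ F U V z
    hxy hQ hU hV hND hz hgen
    (Fin S.card) (fun b => ρ (e.symm b).1) R H (fun b i => (hFH b i).1) (fun b i => (hFH b i).2)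
    ex (fun b => hFH' b)
  have hfg : ρ.range.FG := by
    have h1 : (⊤ : Subalgebra k A).FG := Algebra.FiniteType.out
    have h2 := h1.map ρ
    rwa [Algebra.map_top] at h2
  have hint : ∀ y ∈ ρ.range, IsIntegral (Algebra.adjoin k
      (Set.range fun b : Fin S.card => ρ (e.symm b).1)) y := by
    rintro _ ⟨a, rfl⟩
    have h1 : Algebra.adjoin k (Set.range fun b : Fin S.card => ρ (e.symm b).1) =
        (Algebra.adjoin k (S : Set A)).map ρ := by
      rw [AlgHom.map_adjoin]
      congr 1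
      ext y
      constructor
      · rintro ⟨b, rfl⟩
        exact ⟨_, (e.symm b).2, rfl⟩
      · rintro ⟨a, ha, rfl⟩
        exact ⟨e ⟨a, ha⟩, by simp⟩
    rw [h1]
    obtain ⟨B, hB, hB'⟩ := hA a
    let φ : Algebra.adjoin k (S : Set A) →+* (Algebra.adjoin k (S : Set A)).map ρ :=
      { toFun := fun y => ⟨ρ y, ⟨y, y.2, rfl⟩⟩
        map_one' := Subtype.ext (map_one ρ)
        map_mul' := fun y y' => Subtype.ext (map_mul ρ _ _)
        map_zero' := Subtype.ext (map_zero ρ)
        map_add' := fun y y' => Subtype.ext (map_add ρ _ _) }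
    refine ⟨B.map φ, hB.map φ, ?_⟩
    rw [eval₂_map]
    have h2 : ((algebraMap ((Algebra.adjoin k (S : Set A)).map ρ) K).comp φ) =
        ρ.toRingHom.comp (algebraMap (Algebra.adjoin k (S : Set A)) A) := RingHom.ext fun y => rfl
    rw [h2]
    have h3 := congrArg ρ.toRingHom hB'
    rw [hom_eval₂, map_zero] at h3
    exact h3
  have hfr : ∀ y : K, ∃ a ∈ ρ.range, ∃ b ∈ ρ.range, b ≠ 0 ∧ y = a * b⁻¹ := by
    intro y
    obtain ⟨a, b, hb, rfl⟩ := IsFractionRing.div_surjective (A := A) y
    exact ⟨_, ⟨a, rfl⟩, _, ⟨b, rfl⟩, by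
      have := nonZeroDivisors.ne_zero hb
      exact (FaithfulSMul.algebraMap_eq_zero_iff A K).not.2 this, div_eq_mul_inv _ _⟩
  obtain ⟨T', I', hT', hI', M', -⟩ := wd_res k K T I (Fin S.card) M
    (fun b => ρ (e.symm b).1) Γ hFn hR ρ.range hfg (fun b => ⟨_, rfl⟩) hint hfr
  exact ⟨T', I', hT', hI', ⟨M'⟩⟩

/-- Resolution of the varieties. -/
theorem pi_resolution
    (hxy : AlgebraicIndependent k (Sum.elim (fun q : Fin m × Fin 2 => x q.1 q.2) y))
    (hQ : ∀ i, Q i ≠ 0) (hU : ∀ t i, U t i ≠ 0) (hV : ∀ t i, V t i ≠ 0)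
    (hND : ND F fun _ => True)
    (hz : z ^ p = ∑ i, MvPolynomial.aeval (x i) (P i) / MvPolynomial.aeval (x i) (Q i) +
      ∑ t, (∏ i, MvPolynomial.aeval (x i) (U t i) / MvPolynomial.aeval (x i) (V t i)) *
        ∑ e ∈ (F t).support, F t e • ∏ l, y l ^ e l)
    (hgen : IntermediateField.adjoin k
      (insert z (Set.range (Sum.elim (fun q : Fin m × Fin 2 => x q.1 q.2) y))) = ⊤)
    (A : Type u) [CommRing A] [IsDomain A] [Algebra k A] [Algebra.FiniteType k A] [Algebra A K]
    [IsScalarTower k A K] [IsFractionRing A K] (S : Finset A)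
    (hS : ∀ a ∈ S, ∃ (R H : Fin m → MvPolynomial (Fin 2) k) (e : Fin n → ℤ),
      (∀ i, R i ≠ 0 ∧ H i ≠ 0) ∧ algebraMap A K a =
        (∏ i, MvPolynomial.aeval (x i) (R i) / MvPolynomial.aeval (x i) (H i)) *
          ∏ l, y l ^ e l)
    (hA : ∀ a : A, IsIntegral (Algebra.adjoin k (S : Set A)) a) :
    IsResolvableVariety (X := Spec (CommRingCat.of A))
      (Spec.map (CommRingCat.ofHom (algebraMap k A))) := by
  apply isResolvableVariety_spec
  obtain ⟨T, I, hT, hI, ⟨M⟩⟩ := pi_LM p k K m n x y P Q τ F U V z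
    hxy hQ hU hV hND hz hgen A S hS hA
  exact hasResolution_of_LM _ (IsFractionRing.injective A K) M

end main

end Pool.Agent.TH214
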