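import Pool.Agent.W558.WA.Stms
import Pool.Agent.W177.WD.PCut

/-! Logarithmic tangent vectors and their values on functions which are locally monomials. -/

set_option autoImplicit false
set_option linter.unusedVariables false
set_option linter.unusedSectionVars false

universe u

open Pool.Agent.W558 Pool.Agent.W177.WD

namespace Pool.Agent.TH214

section lt

variable {k K : Type u} [Field k] [Field K] [Algebra k K] {A : Subalgebra k K} {κ : Type u}
  [Field κ] [Algebra k κ] {φ : A →ₐ[k] κ} {I : Type} {x : I → K}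

/-- The logarithmic tangent vector `v + c • w`. -/
noncomputable def ltAdd (v w : LT φ x) (c : κ) : LT φ x where
  D := TV.comb 1 c v.D w.D
  e := fun i => v.e i + c * w.e i
  hx := by
    intro i h
    rw [TV.comb_D, v.hx i h, w.hx i h]
    ring

variable [Fintype I]

lemma om_ltAdd (v w : LT φ x) (c : κ) (n : I → ℤ) {h : K} (hh : h ∈ A) :
    om (ltAdd v w c) n hh = om v n hh + c * om w n hh := by
  unfold om
  have h1 : (ltAdd v w c).D.D ⟨h, hh⟩ = 1 * v.D.D ⟨h, hh⟩ + c * w.D.D ⟨h, hh⟩ :=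
    TV.comb_D _ _ _ _ _
  have h2 : ∑ i, (n i : κ) * (ltAdd v w c).e i =
      ∑ i, (n i : κ) * v.e i + c * ∑ i, (n i : κ) * w.e i := by
    rw [Finset.mul_sum, ← Finset.sum_add_distrib]
    refine Finset.sum_congr rfl fun i _ => ?_
    change (n i : κ) * (v.e i + c * w.e i) = _
    ring
  rw [h1, h2]
  ring

lemma om_smul_sum (v : LT φ x) (n : I → ℤ) {M : Type} (S : Finset M) (c : M → k) (u : M → K)
    (hu : ∀ m ∈ S, u m ∈ A) (val : M → κ) (hval : ∀ m (hm : m ∈ S), om v n (hu m hm) = val m)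
    (hh : ∑ m ∈ S, c m • u m ∈ A) :
    om v n hh = ∑ m ∈ S, algebraMap k κ (c m) * val m := by
  classical
  induction S using Finset.induction_on with
  | empty =>
    unfold om
    have : (⟨∑ m ∈ (∅ : Finset M), c m • u m, hh⟩ : A) = 0 := Subtype.ext (by simp)
    rw [this, map_zero, map_zero, Finset.sum_empty, zero_mul, add_zero]
  | insert b S hb ih =>
    have h1 : ∑ m ∈ S, c m • u m ∈ A := A.sum_mem fun m hm =>
      A.smul_mem (hu m (Finset.mem_insert_of_mem hm)) _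
    have h2 := ih (fun m hm => hu m (Finset.mem_insert_of_mem hm))
      (fun m hm => hval m (Finset.mem_insert_of_mem hm)) h1
    have h3 := hval b (Finset.mem_insert_self b S)
    have e0 : ∑ m ∈ insert b S, algebraMap k κ (c m) * val m =
        algebraMap k κ (c b) * val b + ∑ m ∈ S, algebraMap k κ (c m) * val m :=
      Finset.sum_insert hb
    rw [e0, ← h2, ← h3]
    unfold om
    have h4 : (⟨∑ m ∈ insert b S, c m • u m, hh⟩ : A) =
        c b • ⟨u b, hu b (Finset.mem_insert_self b S)⟩ + ⟨∑ m ∈ S, c m • u m, h1⟩ :=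
      Subtype.ext (Finset.sum_insert hb)
    rw [h4, map_add, map_add, map_smul, map_smul]
    simp only [Algebra.smul_def]
    ring

/-- The logarithmic value of the vector `v` on the function `z = w * x ^ γ`, `w` a unit,
is `s`. -/
def LGF (v : LT φ x) (γ : I → ℤ) (z : K) (s : κ) : Prop :=
  ∃ w, w ≠ 0 ∧ w⁻¹ ∈ A ∧ z = w * ∏ i, x i ^ γ i ∧
    LG v.D w (s - ∑ i, (γ i : κ) * v.e i)

lemma LGF.one (v : LT φ x) : LGF v 0 1 0 := by
  refine ⟨1, one_ne_zero, by rw [inv_one]; exact A.one_mem, by simp, ?_⟩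
  have := LG.one (A := A) (φ := φ) v.D
  simpa using this

lemma LGF.mul {v : LT φ x} (hx0 : ∀ i, x i ≠ 0) {γ γ' : I → ℤ} {z z' : K} {s s' : κ}
    (h : LGF v γ z s) (h' : LGF v γ' z' s') : LGF v (fun i => γ i + γ' i) (z * z') (s + s') := by
  obtain ⟨w, h0, h1, h2, h3⟩ := h
  obtain ⟨w', h0', h1', h2', h3'⟩ := h'
  refine ⟨w * w', mul_ne_zero h0 h0', ?_, ?_, ?_⟩
  · rw [mul_inv]
    exact A.mul_mem h1 h1'
  · rw [h2, h2']
    have e : ∏ i, x i ^ (γ i + γ' i) = (∏ i, x i ^ γ i) * ∏ i, x i ^ γ' i := by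
      rw [← Finset.prod_mul_distrib]
      exact Finset.prod_congr rfl fun i _ => zpow_add₀ (hx0 i) _ _
    rw [e]
    ring
  · have h4 := h3.mul h3'
    have e : s - ∑ i, (γ i : κ) * v.e i + (s' - ∑ i, (γ' i : κ) * v.e i) =
        s + s' - ∑ i, ((γ i + γ' i : ℤ) : κ) * v.e i := by
      have : ∑ i, ((γ i + γ' i : ℤ) : κ) * v.e i =
          ∑ i, (γ i : κ) * v.e i + ∑ i, (γ' i : κ) * v.e i := by
        rw [← Finset.sum_add_distrib]
        refine Finset.sum_congr rfl fun i _ => ?_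
        push_cast
        ring
      rw [this]
      ring
    rw [← e]
    exact h4

lemma LGF.zpow {v : LT φ x} {γ : I → ℤ} {z : K} {s : κ}
    (h : LGF v γ z s) (n : ℤ) : LGF v (fun i => n * γ i) (z ^ n) (n * s) := by
  obtain ⟨w, h0, h1, h2, h3⟩ := h
  refine ⟨w ^ n, zpow_ne_zero _ h0, ?_, ?_, ?_⟩
  · rw [← zpow_neg]
    exact zpow_mem_of (LG.mem h3) (Or.inr h1)
  · rw [h2, mul_zpow, ← Finset.prod_zpow]
    congr 1
    refine Finset.prod_congr rfl fun i _ => ?_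
    rw [← zpow_mul, mul_comm]
  · have h4 := h3.zpow h0 n (Or.inr h1)
    have e : (n : κ) * (s - ∑ i, (γ i : κ) * v.e i) =
        n * s - ∑ i, ((n * γ i : ℤ) : κ) * v.e i := by
      rw [mul_sub, Finset.mul_sum]
      congr 1
      refine Finset.sum_congr rfl fun i _ => ?_
      push_cast
      ring
    rw [← e]
    exact h4

lemma LGF.prod {v : LT φ x} (hx0 : ∀ i, x i ≠ 0) {B : Type} (S : Finset B) (e : B → ℤ)
    (γ : B → I → ℤ) (z : B → K) (s : B → κ) (h : ∀ b ∈ S, LGF v (γ b) (z b) (s b)) :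
    LGF v (fun i => ∑ b ∈ S, e b * γ b i) (∏ b ∈ S, z b ^ e b) (∑ b ∈ S, (e b : κ) * s b) := by
  classical
  induction S using Finset.induction_on with
  | empty =>
    have h1 := LGF.one v
    have e1 : (fun i => ∑ b ∈ (∅ : Finset B), e b * γ b i) = (0 : I → ℤ) := by
      funext i
      exact Finset.sum_empty
    rw [e1, Finset.prod_empty, Finset.sum_empty]
    exact h1
  | insert b S hb ih =>
    have h1 := ih fun b' hb' => h b' (Finset.mem_insert_of_mem hb')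
    have h2 := (h b (Finset.mem_insert_self b S)).zpow (e b)
    have h3 := h2.mul hx0 h1
    rw [Finset.prod_insert hb, Finset.sum_insert hb]
    have e1 : (fun i => ∑ b' ∈ insert b S, e b' * γ b' i) =
        fun i => e b * γ b i + ∑ b' ∈ S, e b' * γ b' i := by
      funext i
      rw [Finset.sum_insert hb]
    rw [e1]
    exact h3

/-- Logarithmic values exist. -/
lemma LGF.exists (v : LT φ x) {γ : I → ℤ} {z w : K} (h0 : w ≠ 0) (h1 : w ∈ A) (h2 : w⁻¹ ∈ A)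
    (h3 : z = w * ∏ i, x i ^ γ i) : ∃ s, LGF v γ z s := by
  have h4 : φ ⟨w, h1⟩ * φ ⟨w⁻¹, h2⟩ = 1 := by
    rw [← map_mul, ← map_one φ]
    congr 1
    exact Subtype.ext (mul_inv_cancel₀ h0)
  refine ⟨v.D.D ⟨w, h1⟩ * φ ⟨w⁻¹, h2⟩ + ∑ i, (γ i : κ) * v.e i, w, h0, h2, h3, h1, ?_⟩
  rw [add_sub_cancel_right]
  calc v.D.D ⟨w, h1⟩ = v.D.D ⟨w, h1⟩ * (φ ⟨w, h1⟩ * φ ⟨w⁻¹, h2⟩) := by rw [h4, mul_one]
    _ = _ := by ring

lemma LGF.add {v v' : LT φ x} (c : κ) {γ : I → ℤ} {z : K} {s s' : κ} (hx0 : ∀ i, x i ≠ 0)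
    (h : LGF v γ z s) (h' : LGF v' γ z s') : LGF (ltAdd v v' c) γ z (s + c * s') := by
  obtain ⟨w, h0, h1, h2, h3⟩ := h
  obtain ⟨w', h0', h1', h2', h3'⟩ := h'
  have hP : ∏ i, x i ^ γ i ≠ 0 := Finset.prod_ne_zero_iff.2 fun i _ => zpow_ne_zero _ (hx0 i)
  have hw : w' = w := mul_right_cancel₀ hP (h2'.symm.trans h2)
  subst hw
  refine ⟨w', h0, h1, h2, h3.mem, ?_⟩
  have e1 : (ltAdd v v' c).D.D ⟨w', h3.mem⟩ = 1 * v.D.D ⟨w', h3.mem⟩ + c * v'.D.D ⟨w', h3.mem⟩ :=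
    TV.comb_D _ _ _ _ _
  have e2 : ∑ i, (γ i : κ) * (ltAdd v v' c).e i =
      ∑ i, (γ i : κ) * v.e i + c * ∑ i, (γ i : κ) * v'.e i := by
    rw [Finset.mul_sum, ← Finset.sum_add_distrib]
    refine Finset.sum_congr rfl fun i _ => ?_
    change (γ i : κ) * (v.e i + c * v'.e i) = _
    ring
  rw [e1, e2, h3.eq, h3'.eq]
  ring

/-- The value of the logarithmic form on a monomial. -/
lemma LGF.om_eq {v : LT φ x} (hx0 : ∀ i, x i ≠ 0) (hxA : ∀ i, x i ∈ A) {γ : I → ℤ} {z : K} {s : κ}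
    (h : LGF v γ z s) (n : I → ℤ) (hn : ∀ i, n i ≤ γ i)
    (hh : z * ∏ i, x i ^ (- n i) ∈ A) : om v n hh = φ ⟨_, hh⟩ * s := by
  obtain ⟨w, h0, h1, h2, h3⟩ := h
  have e : z * ∏ i, x i ^ (- n i) = w * ∏ i, x i ^ (γ i - n i) := by
    rw [h2, mul_assoc, ← Finset.prod_mul_distrib]
    congr 1
    refine Finset.prod_congr rfl fun i _ => ?_
    rw [← zpow_add₀ (hx0 i), sub_eq_add_neg]
  have h4 : LG v.D (w * ∏ i, x i ^ (γ i - n i)) (s - ∑ i, (γ i : κ) * v.e i +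
      ∑ i, ((γ i - n i : ℤ) : κ) * v.e i) := by
    refine h3.mul (LG.prod _ _ _ fun i _ => ?_)
    refine LG.zpow ⟨hxA i, v.hx i (hxA i)⟩ (hx0 i) _ (Or.inl ?_)
    have := hn i
    omega
  rw [← e] at h4
  have h5 := h4.eq hh
  unfold om
  rw [h5]
  have e2 : ∑ i, ((γ i - n i : ℤ) : κ) * v.e i =
      ∑ i, (γ i : κ) * v.e i - ∑ i, (n i : κ) * v.e i := by
    rw [← Finset.sum_sub_distrib]
    refine Finset.sum_congr rfl fun i _ => ?_
    push_cast
    ring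
  rw [e2]
  ring

end lt

section pv

variable {k K : Type u} [Field k] [Field K] [Algebra k K] {A : Subalgebra k K} {κ : Type u}
  [Field κ] [Algebra k κ] (φ : A →ₐ[k] κ)

/-- The value of `z` at the point `φ` is `s`. -/
def PV (z : K) (s : κ) : Prop := ∃ hz : z ∈ A, φ ⟨z, hz⟩ = s

variable {φ}

lemma PV.one : PV φ 1 1 := ⟨A.one_mem, map_one φ⟩

lemma PV.mul {z z' : K} {s s' : κ} (h : PV φ z s) (h' : PV φ z' s') : PV φ (z * z') (s * s') := by
  obtain ⟨hz, h1⟩ := h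
  obtain ⟨hz', h1'⟩ := h'
  refine ⟨A.mul_mem hz hz', ?_⟩
  rw [← h1, ← h1', ← map_mul]
  rfl

lemma PV.inv {z : K} {s : κ} (h : PV φ z s) (h0 : z ≠ 0) (hi : z⁻¹ ∈ A) : PV φ z⁻¹ s⁻¹ := by
  obtain ⟨hz, h1⟩ := h
  refine ⟨hi, ?_⟩
  have h4 : φ ⟨z, hz⟩ * φ ⟨z⁻¹, hi⟩ = 1 := by
    rw [← map_mul, ← map_one φ]
    congr 1
    exact Subtype.ext (mul_inv_cancel₀ h0)
  rw [h1] at h4
  exact eq_inv_of_mul_eq_one_right h4

lemma PV.ne {z : K} {s : κ} (h : PV φ z s) (h0 : z ≠ 0) (hi : z⁻¹ ∈ A) : s ≠ 0 := by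
  obtain ⟨hz, h1⟩ := h
  have h4 : φ ⟨z, hz⟩ * φ ⟨z⁻¹, hi⟩ = 1 := by
    rw [← map_mul, ← map_one φ]
    congr 1
    exact Subtype.ext (mul_inv_cancel₀ h0)
  rw [h1] at h4
  exact left_ne_zero_of_mul_eq_one h4

lemma PV.pow {z : K} {s : κ} (h : PV φ z s) (n : ℕ) : PV φ (z ^ n) (s ^ n) := by
  obtain ⟨hz, h1⟩ := h
  refine ⟨A.pow_mem hz n, ?_⟩
  rw [← h1, ← map_pow]
  rfl

lemma PV.zpow {z : K} {s : κ} (h : PV φ z s) (h0 : z ≠ 0) (n : ℤ) (hi : 0 ≤ n ∨ z⁻¹ ∈ A) :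
    PV φ (z ^ n) (s ^ n) := by
  rcases le_or_gt 0 n with h1 | h1
  · obtain ⟨m, rfl⟩ := Int.eq_ofNat_of_zero_le h1
    rw [zpow_natCast, zpow_natCast]
    exact h.pow m
  · have hi' := hi.resolve_left (not_le.2 h1)
    obtain ⟨m, hm⟩ := Int.eq_ofNat_of_zero_le (show 0 ≤ -n by omega)
    have h2 : n = -(m : ℤ) := by omega
    rw [h2, zpow_neg, zpow_natCast, zpow_neg, zpow_natCast, ← inv_pow, ← inv_pow]
    exact (h.inv h0 hi').pow m

lemma PV.prod {B : Type} (S : Finset B) (z : B → K) (s : B → κ) (h : ∀ b ∈ S, PV φ (z b) (s b)) :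
    PV φ (∏ b ∈ S, z b) (∏ b ∈ S, s b) := by
  classical
  induction S using Finset.induction_on with
  | empty => simpa using PV.one (φ := φ)
  | insert b S hb ih =>
    rw [Finset.prod_insert hb, Finset.prod_insert hb]
    exact (h b (Finset.mem_insert_self b S)).mul (ih fun i hi => h i (Finset.mem_insert_of_mem hi))

end pv

end Pool.Agent.TH214
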