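import Pool.Agent.TH214.Lgf

/-! The logarithmic differential of a function `b * G (y)` at a point, where `G` is a Laurent
polynomial and `b` and the `y j` are locally monomials. -/

set_option autoImplicit false
set_option linter.unusedVariables false
set_option linter.unusedSectionVars false

universe u

open Pool.Agent.W558 Pool.Agent.W177.WD

namespace Pool.Agent.TH214

section laurent

variable {k κ : Type u} [Field k] [Field κ] [Algebra k κ] {J : Type} [Fintype J]

/-- The exponents of the initial form of `G` with respect to the weights `l`. -/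
def face (G : (J → ℤ) →₀ k) (l : J → ℤ) : Finset (J → ℤ) :=
  G.support.filter fun m => ∀ m' ∈ G.support, ∑ j, l j * m j ≤ ∑ j, l j * m' j

/-- The value of the initial form of `G` at the point `z`. -/
noncomputable def vl (G : (J → ℤ) →₀ k) (l : J → ℤ) (z : J → κ) : κ :=
  ∑ m ∈ face G l, algebraMap k κ (G m) * ∏ j, z j ^ m j

/-- The value of the logarithmic derivative `∑ j, a j * z j * ∂ / ∂ z j` of the initial form of
`G` at the point `z`. -/
noncomputable def der (G : (J → ℤ) →₀ k) (l : J → ℤ) (z a : J → κ) : κ :=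
  ∑ m ∈ face G l, algebraMap k κ (G m) * (∑ j, (m j : κ) * a j) * ∏ j, z j ^ m j

lemma der_add (G : (J → ℤ) →₀ k) (l : J → ℤ) (z a b : J → κ) (c : κ) :
    der G l z (fun j => a j + c * b j) = der G l z a + c * der G l z b := by
  unfold der
  rw [Finset.mul_sum, ← Finset.sum_add_distrib]
  refine Finset.sum_congr rfl fun m _ => ?_
  have : ∑ j, (m j : κ) * (a j + c * b j) = ∑ j, (m j : κ) * a j + c * ∑ j, (m j : κ) * b j := by
    rw [Finset.mul_sum, ← Finset.sum_add_distrib]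
    refine Finset.sum_congr rfl fun j _ => ?_
    ring
  rw [this]
  ring

lemma der_zero (G : (J → ℤ) →₀ k) (l : J → ℤ) (z : J → κ) : der G l z (fun _ => 0) = 0 := by
  unfold der
  refine Finset.sum_eq_zero fun m _ => ?_
  simp

lemma der_sum (G : (J → ℤ) →₀ k) (l : J → ℤ) (z : J → κ) {τ : Type} (S : Finset τ) (r : τ → κ)
    (a : τ → J → κ) : der G l z (fun j => ∑ t ∈ S, r t * a t j) = ∑ t ∈ S, r t * der G l z (a t) := by
  classical
  induction S using Finset.induction_on with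
  | empty =>
    rw [Finset.sum_empty]
    exact (congrArg _ (funext fun j => Finset.sum_empty)).trans (der_zero G l z)
  | insert t S ht ih =>
    rw [Finset.sum_insert ht, ← ih]
    have e : (fun j => ∑ t' ∈ insert t S, r t' * a t' j) =
        fun j => (∑ t' ∈ S, r t' * a t' j) + r t * a t j := by
      funext j
      rw [Finset.sum_insert ht, add_comm]
    rw [e, der_add, add_comm]

end laurent

section point

variable {k K : Type u} [Field k] [Field K] [Algebra k K] {A : Subalgebra k K} {κ : Type u}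
  [Field κ] [Algebra k κ] (φ : A →ₐ[k] κ) {I J : Type} [Fintype I] [Fintype J] {x : I → K}
  (hxA : ∀ i, x i ∈ A) (hx0 : ∀ i, x i ≠ 0)

open Classical in
/-- The values of the local equations, with `0` replaced by `1`. -/
noncomputable def qv (i : I) : κ := if φ ⟨x i, hxA i⟩ = 0 then 1 else φ ⟨x i, hxA i⟩

lemma qv_ne (i : I) : qv φ hxA i ≠ 0 := by
  unfold qv
  split_ifs with h
  · exact one_ne_zero
  · exact h

/-- The point of the torus. -/
noncomputable def zp {w : J → K} (hwA : ∀ j, w j ∈ A) (Y : J → I → ℤ) (j : J) : κ :=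
  φ ⟨w j, hwA j⟩ * ∏ i, qv φ hxA i ^ Y j i

open Classical in
/-- The weights. -/
noncomputable def ls (Y : J → I → ℤ) (j : J) : ℤ :=
  ∑ i ∈ Finset.univ.filter (fun i => φ ⟨x i, hxA i⟩ = 0), Y j i

lemma prod_zpow_comm (q : I → κ) (hq : ∀ i, q i ≠ 0) (Y : J → I → ℤ) (m : J → ℤ) :
    ∏ i, q i ^ (∑ j, m j * Y j i) = ∏ j, (∏ i, q i ^ Y j i) ^ m j := by
  have h1 : ∀ i, q i ^ (∑ j, m j * Y j i) = ∏ j, (q i ^ Y j i) ^ m j := by
    intro i
    classical
    have h2 : ∀ S : Finset J, q i ^ (∑ j ∈ S, m j * Y j i) = ∏ j ∈ S, (q i ^ Y j i) ^ m j := by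
      intro S
      induction S using Finset.induction_on with
      | empty => simp
      | insert j S hj ih =>
        rw [Finset.sum_insert hj, Finset.prod_insert hj, zpow_add₀ (hq i), ih]
        congr 1
        rw [← zpow_mul, mul_comm]
    exact h2 _
  rw [Finset.prod_congr rfl fun i _ => h1 i, Finset.prod_comm]
  refine Finset.prod_congr rfl fun j _ => ?_
  rw [Finset.prod_zpow]

variable {y w : J → K} (Y : J → I → ℤ) (hw0 : ∀ j, w j ≠ 0) (hwA : ∀ j, w j ∈ A)
  (hwi : ∀ j, (w j)⁻¹ ∈ A) (hy : ∀ j, y j = w j * ∏ i, x i ^ Y j i)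
  {b wb : K} (B : I → ℤ) (hb0 : wb ≠ 0) (hbA : wb ∈ A) (hbi : wb⁻¹ ∈ A)
  (hb : b = wb * ∏ i, x i ^ B i)

/-- The exponents of the monomials. -/
def gm (Y : J → I → ℤ) (B : I → ℤ) (m : J → ℤ) (i : I) : ℤ := B i + ∑ j, m j * Y j i

include hw0 hwA hwi hy hb0 hbA hbi hb hx0 in
open Classical in
/-- The values of the monomials. -/
lemma pv_term (n : I → ℤ) (m : J → ℤ) (hn : ∀ i, n i ≤ gm Y B m i) :
    PV φ (b * (∏ j, y j ^ m j) * ∏ i, x i ^ (-n i))
      (if (∀ i, φ ⟨x i, hxA i⟩ = 0 → gm Y B m i = n i) then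
        φ ⟨wb, hbA⟩ * (∏ i, qv φ hxA i ^ (B i - n i)) * ∏ j, zp φ hxA hwA Y j ^ m j else 0) := by
  have e1 : b * (∏ j, y j ^ m j) * ∏ i, x i ^ (-n i) =
      wb * (∏ j, w j ^ m j) * ∏ i, x i ^ (gm Y B m i - n i) := by
    have h1 : ∏ j, y j ^ m j = (∏ j, w j ^ m j) * ∏ i, x i ^ (∑ j, m j * Y j i) := by
      have h2 : ∀ j, y j ^ m j = w j ^ m j * (∏ i, x i ^ Y j i) ^ m j := fun j => by
        rw [hy j, mul_zpow]
      rw [Finset.prod_congr rfl fun j _ => h2 j, Finset.prod_mul_distrib]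
      congr 1
      have h3 : ∀ i, x i ^ (∑ j, m j * Y j i) = ∏ j, (x i ^ Y j i) ^ m j := by
        intro i
        have h2 : ∀ S : Finset J, x i ^ (∑ j ∈ S, m j * Y j i) = ∏ j ∈ S, (x i ^ Y j i) ^ m j := by
          intro S
          induction S using Finset.induction_on with
          | empty => simp
          | insert j S hj ih =>
            rw [Finset.sum_insert hj, Finset.prod_insert hj, zpow_add₀ (hx0 i), ih]
            congr 1
            rw [← zpow_mul, mul_comm]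
        exact h2 _
      rw [Finset.prod_congr rfl fun i _ => h3 i, Finset.prod_comm]
      refine Finset.prod_congr rfl fun j _ => ?_
      rw [Finset.prod_zpow]
    have h4 : ∏ i, x i ^ (gm Y B m i - n i) =
        (∏ i, x i ^ B i) * (∏ i, x i ^ (∑ j, m j * Y j i)) * ∏ i, x i ^ (-n i) := by
      rw [← Finset.prod_mul_distrib, ← Finset.prod_mul_distrib]
      refine Finset.prod_congr rfl fun i _ => ?_
      rw [← zpow_add₀ (hx0 i), ← zpow_add₀ (hx0 i),
        show gm Y B m i - n i = B i + ∑ j, m j * Y j i + -n i by unfold gm; ring]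
    rw [h1, h4, hb]
    ring
  have h5 : PV φ (wb * (∏ j, w j ^ m j) * ∏ i, x i ^ (gm Y B m i - n i))
      (φ ⟨wb, hbA⟩ * (∏ j, φ ⟨w j, hwA j⟩ ^ m j) *
        ∏ i, φ ⟨x i, hxA i⟩ ^ (gm Y B m i - n i)) := by
    refine (PV.mul (PV.mul ⟨hbA, rfl⟩ (PV.prod _ _ _ fun j _ => ?_))
      (PV.prod _ _ _ fun i _ => ?_))
    · exact PV.zpow ⟨hwA j, rfl⟩ (hw0 j) _ (Or.inr (hwi j))
    · refine PV.zpow ⟨hxA i, rfl⟩ (hx0 i) _ (Or.inl ?_)
      have := hn i
      omega
  rw [← e1] at h5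
  have e2 : φ ⟨wb, hbA⟩ * (∏ j, φ ⟨w j, hwA j⟩ ^ m j) *
        ∏ i, φ ⟨x i, hxA i⟩ ^ (gm Y B m i - n i) =
      (if (∀ i, φ ⟨x i, hxA i⟩ = 0 → gm Y B m i = n i) then
        φ ⟨wb, hbA⟩ * (∏ i, qv φ hxA i ^ (B i - n i)) * ∏ j, zp φ hxA hwA Y j ^ m j else 0) := by
    split_ifs with hc
    · have h6 : ∏ i, φ ⟨x i, hxA i⟩ ^ (gm Y B m i - n i) =
          ∏ i, qv φ hxA i ^ (gm Y B m i - n i) := by
        refine Finset.prod_congr rfl fun i _ => ?_
        by_cases h0 : φ ⟨x i, hxA i⟩ = 0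
        · rw [hc i h0, sub_self, zpow_zero, zpow_zero]
        · unfold qv
          rw [if_neg h0]
      have h7 : ∏ i, qv φ hxA i ^ (gm Y B m i - n i) =
          (∏ i, qv φ hxA i ^ (B i - n i)) * ∏ i, qv φ hxA i ^ (∑ j, m j * Y j i) := by
        rw [← Finset.prod_mul_distrib]
        refine Finset.prod_congr rfl fun i _ => ?_
        rw [← zpow_add₀ (qv_ne φ hxA i)]
        congr 1
        unfold gm
        ring
      have h8 : ∏ j, zp φ hxA hwA Y j ^ m j =
          (∏ j, φ ⟨w j, hwA j⟩ ^ m j) * ∏ j, (∏ i, qv φ hxA i ^ Y j i) ^ m j := by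
        rw [← Finset.prod_mul_distrib]
        refine Finset.prod_congr rfl fun j _ => ?_
        unfold zp
        rw [mul_zpow]
      rw [h6, h7, h8, prod_zpow_comm (qv φ hxA) (qv_ne φ hxA)]
      ring
    · push Not at hc
      obtain ⟨i, hi, hi'⟩ := hc
      have h9 : ∏ i, φ ⟨x i, hxA i⟩ ^ (gm Y B m i - n i) = 0 := by
        refine Finset.prod_eq_zero (Finset.mem_univ i) ?_
        rw [hi]
        exact zero_zpow _ (sub_ne_zero.2 hi')
      rw [h9, mul_zero]
  rw [← e2]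
  exact h5

include hw0 hwi in
lemma zp_ne (j : J) : zp φ hxA hwA Y j ≠ 0 := by
  unfold zp
  refine mul_ne_zero (PV.ne (φ := φ) ⟨hwA j, rfl⟩ (hw0 j) (hwi j)) ?_
  exact Finset.prod_ne_zero_iff.2 fun i _ => zpow_ne_zero _ (qv_ne φ hxA i)

open Classical in
/-- The minimal exponents. -/
lemma face_eq (G : (J → ℤ) →₀ k) (n : I → ℤ) (hn : ∀ m ∈ G.support, ∀ i, n i ≤ gm Y B m i)
    (m0 : J → ℤ) (hm0 : m0 ∈ G.support)
    (h0 : ∀ i, φ ⟨x i, hxA i⟩ = 0 → gm Y B m0 i = n i) (m : J → ℤ) (hm : m ∈ G.support) :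
    (∀ i, φ ⟨x i, hxA i⟩ = 0 → gm Y B m i = n i) ↔ m ∈ face G (ls φ hxA Y) := by
  have hl : ∀ m : J → ℤ, ∑ j, ls φ hxA Y j * m j =
      ∑ i ∈ Finset.univ.filter (fun i => φ ⟨x i, hxA i⟩ = 0), gm Y B m i -
      ∑ i ∈ Finset.univ.filter (fun i => φ ⟨x i, hxA i⟩ = 0), B i := by
    intro m
    rw [← Finset.sum_sub_distrib]
    unfold ls gm
    simp only [add_sub_cancel_left]
    rw [Finset.sum_comm]
    refine Finset.sum_congr rfl fun j _ => ?_
    rw [Finset.sum_mul]
    refine Finset.sum_congr rfl fun i _ => ?_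
    ring
  unfold face
  rw [Finset.mem_filter]
  constructor
  · intro h
    refine ⟨hm, fun m' hm' => ?_⟩
    rw [hl, hl]
    refine sub_le_sub_right (Finset.sum_le_sum fun i hi => ?_) _
    rw [h i (Finset.mem_filter.1 hi).2]
    exact hn m' hm' i
  · rintro ⟨-, h⟩ i hi
    have h1 := h m0 hm0
    rw [hl, hl] at h1
    have h2 : ∑ i ∈ Finset.univ.filter (fun i => φ ⟨x i, hxA i⟩ = 0), gm Y B m i ≤
        ∑ i ∈ Finset.univ.filter (fun i => φ ⟨x i, hxA i⟩ = 0), n i := by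
      have h3 : ∑ i ∈ Finset.univ.filter (fun i => φ ⟨x i, hxA i⟩ = 0), gm Y B m0 i =
          ∑ i ∈ Finset.univ.filter (fun i => φ ⟨x i, hxA i⟩ = 0), n i :=
        Finset.sum_congr rfl fun i hi => h0 i (Finset.mem_filter.1 hi).2
      rw [← h3]
      linarith
    have h4 := (Finset.sum_eq_sum_iff_of_le fun i (_ : i ∈ Finset.univ.filter
      (fun i => φ ⟨x i, hxA i⟩ = 0)) => hn m hm i).1
      (le_antisymm (Finset.sum_le_sum fun i _ => hn m hm i) h2)
    exact (h4 i (Finset.mem_filter.2 ⟨Finset.mem_univ i, hi⟩)).symm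

include hw0 hwA hwi hy hb0 hbA hbi hb hx0 in
open Classical in
/-- The value of the logarithmic differential of `b * G (y)`. -/
lemma om_twist (G : (J → ℤ) →₀ k) (n : I → ℤ) (hn : ∀ m ∈ G.support, ∀ i, n i ≤ gm Y B m i) :
    ∃ c : κ, c ≠ 0 ∧ ∀ (v : LT φ x) (a : J → κ) (s : κ), (∀ j, LGF v (Y j) (y j) (a j)) →
      LGF v B b s →
      ∀ hh : b * (∑ m ∈ G.support, G m • ∏ j, y j ^ m j) * ∏ i, x i ^ (-n i) ∈ A,
        om v n hh = if (∃ m ∈ G.support, ∀ i, φ ⟨x i, hxA i⟩ = 0 → gm Y B m i = n i) then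
          c * (s * vl G (ls φ hxA Y) (zp φ hxA hwA Y) +
            der G (ls φ hxA Y) (zp φ hxA hwA Y) a) else 0 := by
  refine ⟨φ ⟨wb, hbA⟩ * ∏ i, qv φ hxA i ^ (B i - n i), mul_ne_zero
    (PV.ne (φ := φ) ⟨hbA, rfl⟩ hb0 hbi)
    (Finset.prod_ne_zero_iff.2 fun i _ => zpow_ne_zero _ (qv_ne φ hxA i)), ?_⟩
  intro v a s hv hvb hh
  have hsum : b * (∑ m ∈ G.support, G m • ∏ j, y j ^ m j) * ∏ i, x i ^ (-n i) =
      ∑ m ∈ G.support, G m • (b * (∏ j, y j ^ m j) * ∏ i, x i ^ (-n i)) := by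
    rw [Finset.mul_sum, Finset.sum_mul]
    refine Finset.sum_congr rfl fun m _ => ?_
    simp only [Algebra.smul_def]
    ring
  have hpv := fun m (hm : m ∈ G.support) =>
    pv_term φ hxA hx0 Y hw0 hwA hwi hy B hb0 hbA hbi hb n m (hn m hm)
  have hL : ∀ m : J → ℤ, LGF v (gm Y B m) (b * ∏ j, y j ^ m j)
      (s + ∑ j, (m j : κ) * a j) := by
    intro m
    exact hvb.mul hx0 (LGF.prod hx0 Finset.univ m Y y a fun j _ => hv j)
  have key : om v n hh = ∑ m ∈ G.support, algebraMap k κ (G m) *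
      ((if (∀ i, φ ⟨x i, hxA i⟩ = 0 → gm Y B m i = n i) then
        φ ⟨wb, hbA⟩ * (∏ i, qv φ hxA i ^ (B i - n i)) * ∏ j, zp φ hxA hwA Y j ^ m j else 0) *
        (s + ∑ j, (m j : κ) * a j)) := by
    have h1 : ∑ m ∈ G.support, G m • (b * (∏ j, y j ^ m j) * ∏ i, x i ^ (-n i)) ∈ A := by
      rw [← hsum]
      exact hh
    have h2 : om v n hh = om v n h1 := by
      congr 1
    rw [h2]
    refine om_smul_sum v n G.support (fun m => G m)
      (fun m => b * (∏ j, y j ^ m j) * ∏ i, x i ^ (-n i)) (fun m hm => (hpv m hm).1) _ ?_ h1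
    intro m hm
    have h3 := (hL m).om_eq hx0 hxA n (hn m hm) (hpv m hm).1
    rw [h3, (hpv m hm).2]
  rw [key]
  split_ifs with hc
  · obtain ⟨m0, hm0, h0⟩ := hc
    unfold vl der
    have hf : face G (ls φ hxA Y) = G.support.filter
        (fun m => ∀ i, φ ⟨x i, hxA i⟩ = 0 → gm Y B m i = n i) := by
      ext m
      rw [Finset.mem_filter]
      constructor
      · intro hm
        have hm' : m ∈ G.support := (Finset.mem_filter.1 hm).1
        exact ⟨hm', (face_eq φ hxA Y B G n hn m0 hm0 h0 m hm').2 hm⟩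
      · rintro ⟨hm, h⟩
        exact (face_eq φ hxA Y B G n hn m0 hm0 h0 m hm).1 h
    rw [hf, Finset.sum_filter, Finset.sum_filter, Finset.mul_sum, ← Finset.sum_add_distrib,
      Finset.mul_sum]
    refine Finset.sum_congr rfl fun m _ => ?_
    split_ifs
    · ring
    · ring
  · push Not at hc
    refine Finset.sum_eq_zero fun m hm => ?_
    obtain ⟨i, hi, hi'⟩ := hc m hm
    rw [if_neg, zero_mul, mul_zero]
    intro h
    exact hi' (h i hi)

include hw0 hwA hwi hy hb0 hbA hbi hb hxA hx0 in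
/-- Membership. -/
lemma twist_mem (G : (J → ℤ) →₀ k) (n : I → ℤ) (hn : ∀ m ∈ G.support, ∀ i, n i ≤ gm Y B m i) :
    b * (∑ m ∈ G.support, G m • ∏ j, y j ^ m j) * ∏ i, x i ^ (-n i) ∈ A := by
  have hsum : b * (∑ m ∈ G.support, G m • ∏ j, y j ^ m j) * ∏ i, x i ^ (-n i) =
      ∑ m ∈ G.support, G m • (b * (∏ j, y j ^ m j) * ∏ i, x i ^ (-n i)) := by
    rw [Finset.mul_sum, Finset.sum_mul]
    refine Finset.sum_congr rfl fun m _ => ?_
    simp only [Algebra.smul_def]
    ring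
  rw [hsum]
  refine A.sum_mem fun m hm => A.smul_mem ?_ _
  have e1 : b * (∏ j, y j ^ m j) * ∏ i, x i ^ (-n i) =
      wb * (∏ j, w j ^ m j) * ∏ i, x i ^ (gm Y B m i - n i) := by
    have h1 : ∏ j, y j ^ m j = (∏ j, w j ^ m j) * ∏ i, x i ^ (∑ j, m j * Y j i) := by
      have h2 : ∀ j, y j ^ m j = w j ^ m j * (∏ i, x i ^ Y j i) ^ m j := fun j => by
        rw [hy j, mul_zpow]
      rw [Finset.prod_congr rfl fun j _ => h2 j, Finset.prod_mul_distrib]
      congr 1
      have h3 : ∀ i, x i ^ (∑ j, m j * Y j i) = ∏ j, (x i ^ Y j i) ^ m j := by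
        intro i
        classical
        have h2 : ∀ S : Finset J, x i ^ (∑ j ∈ S, m j * Y j i) = ∏ j ∈ S, (x i ^ Y j i) ^ m j := by
          intro S
          induction S using Finset.induction_on with
          | empty => simp
          | insert j S hj ih =>
            rw [Finset.sum_insert hj, Finset.prod_insert hj, zpow_add₀ (hx0 i), ih]
            congr 1
            rw [← zpow_mul, mul_comm]
        exact h2 _
      rw [Finset.prod_congr rfl fun i _ => h3 i, Finset.prod_comm]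
      refine Finset.prod_congr rfl fun j _ => ?_
      rw [Finset.prod_zpow]
    have h4 : ∏ i, x i ^ (gm Y B m i - n i) =
        (∏ i, x i ^ B i) * (∏ i, x i ^ (∑ j, m j * Y j i)) * ∏ i, x i ^ (-n i) := by
      rw [← Finset.prod_mul_distrib, ← Finset.prod_mul_distrib]
      refine Finset.prod_congr rfl fun i _ => ?_
      rw [← zpow_add₀ (hx0 i), ← zpow_add₀ (hx0 i),
        show gm Y B m i - n i = B i + ∑ j, m j * Y j i + -n i by unfold gm; ring]
    rw [h1, h4, hb]
    ring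
  rw [e1]
  refine A.mul_mem (A.mul_mem hbA (A.prod_mem fun j _ => zpow_mem_of (hwA j) (Or.inr (hwi j))))
    (A.prod_mem fun i _ => zpow_mem_of (hxA i) (Or.inl ?_))
  have := hn m hm i
  omega

end point

end Pool.Agent.TH214
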