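import Pool.Agent.TH214.Dual

/-! Artin-Schreier normal form of functions `b t * G t (y)`, where the `G t` are jointly
nondegenerate Laurent polynomials. -/

set_option autoImplicit false
set_option linter.unusedVariables false
set_option linter.unusedSectionVars false

universe u

open Pool.Agent.W558 Pool.Agent.W177.WD

namespace Pool.Agent.TH214

/-- Joint nondegeneracy at infinity of the Laurent polynomials `F t`; the `F t` with `tw t` may
be multiplied with arbitrary functions of other variables. -/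
def ND {k : Type u} [Field k] {J τ : Type} [Fintype J] (F : τ → (J → ℤ) →₀ k) (tw : τ → Prop) :
    Prop :=
  ∀ (κ : Type u) [Field κ] [Algebra k κ] (l : J → ℤ) (z : J → κ), (∀ j, z j ≠ 0) → ∀ t0,
    (tw t0 ∨ ∃ m ∈ (F t0).support, ∑ j, l j * m j < 0) →
    ∃ a : J → κ, der (F t0) l z a ≠ 0 ∧ ∀ t, t ≠ t0 →
      (tw t ∨ ∃ m ∈ (F t).support, ∑ j, l j * m j ≤ 0) → der (F t) l z a = 0

/-- Solution of a system of linear equations. -/
lemma correct {k κ : Type u} [Field k] [Field κ] [Algebra k κ] {J τ : Type} [Fintype J]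
    [Finite τ] (F : τ → (J → ℤ) →₀ k) (l : J → ℤ) (z : J → κ) (C tw : τ → Prop)
    (a : τ → J → κ) (h1 : ∀ t, C t → tw t → der (F t) l z (a t) ≠ 0)
    (h2 : ∀ t t', C t → tw t → C t' → t' ≠ t → der (F t') l z (a t) = 0) (s : τ → κ) :
    ∃ c : J → κ, (∀ t, C t → tw t → der (F t) l z c = s t) ∧
      ∀ t, C t → ¬ tw t → der (F t) l z c = 0 := by
  classical
  have := Fintype.ofFinite τ
  let S : Finset τ := Finset.univ.filter fun t => C t ∧ tw t
  refine ⟨fun j => ∑ t ∈ S, (s t / der (F t) l z (a t)) * a t j, ?_, ?_⟩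
  · intro t hC ht
    rw [der_sum]
    rw [Finset.sum_eq_single t]
    · exact div_mul_cancel₀ _ (h1 t hC ht)
    · intro t' ht' hne
      obtain ⟨-, hC', htw'⟩ := Finset.mem_filter.1 ht'
      rw [h2 t' t hC' htw' hC hne.symm, mul_zero]
    · intro h
      exact absurd (Finset.mem_filter.2 ⟨Finset.mem_univ t, hC, ht⟩) h
  · intro t hC ht
    rw [der_sum]
    refine Finset.sum_eq_zero fun t' ht' => ?_
    obtain ⟨-, hC', htw'⟩ := Finset.mem_filter.1 ht'
    have hne : t ≠ t' := by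
      rintro rfl
      exact ht htw'
    rw [h2 t' t hC' htw' hC hne, mul_zero]

section main

variable {k K : Type u} [Field k] [Field K] [Algebra k K] {R0 R : Subalgebra k K}
  {T I : Type} [Finite T] [Fintype I] {ι G J τ : Type} [Fintype J] [Finite τ]

lemma tr_gm {I' : Type} (Θ : I' → I → ℤ) (Y : J → I → ℤ) (B : I → ℤ) (m : J → ℤ) (i' : I') :
    tr Θ (gm Y B m) i' = gm (fun j => tr Θ (Y j)) (tr Θ B) m i' := by
  unfold tr gm
  simp only [mul_add, Finset.sum_add_distrib, Finset.mul_sum]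
  congr 1
  rw [Finset.sum_comm]
  refine Finset.sum_congr rfl fun j _ => Finset.sum_congr rfl fun i _ => ?_
  ring

/-- The pole exponents. -/
def npole {k : Type u} [Field k] {I : Type} (F : (J → ℤ) →₀ k) (Y : J → I → ℤ) (B : I → ℤ)
    (i : I) : ℤ :=
  (insert (0 : ℤ) (F.support.image fun m => gm Y B m i)).min' (Finset.insert_nonempty _ _)

lemma npole_le {I : Type} (F : (J → ℤ) →₀ k) (Y : J → I → ℤ) (B : I → ℤ) (i : I) :
    npole F Y B i ≤ 0 := Finset.min'_le _ _ (Finset.mem_insert_self _ _)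

lemma npole_le_gm {I : Type} (F : (J → ℤ) →₀ k) (Y : J → I → ℤ) (B : I → ℤ) (i : I)
    (m : J → ℤ) (hm : m ∈ F.support) : npole F Y B i ≤ gm Y B m i :=
  Finset.min'_le _ _ (Finset.mem_insert_of_mem (Finset.mem_image_of_mem _ hm))

lemma npole_eq {I : Type} (F : (J → ℤ) →₀ k) (Y : J → I → ℤ) (B : I → ℤ) (i : I) :
    npole F Y B i = 0 ∨ ∃ m ∈ F.support, gm Y B m i = npole F Y B i := by
  have h := Finset.min'_mem (insert (0 : ℤ) (F.support.image fun m => gm Y B m i))
    (Finset.insert_nonempty _ _)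
  rcases Finset.mem_insert.1 h with h | h
  · exact Or.inl h
  · obtain ⟨m, hm, h⟩ := Finset.mem_image.1 h
    exact Or.inr ⟨m, hm, h⟩

lemma npole_min {I : Type} (F : (J → ℤ) →₀ k) (Y : J → I → ℤ) (B : I → ℤ) (i : I) (c : ℤ)
    (h0 : c ≤ 0) (h : ∀ m ∈ F.support, c ≤ gm Y B m i) : c ≤ npole F Y B i := by
  rcases npole_eq F Y B i with h1 | ⟨m, hm, h1⟩
  · rw [h1]; exact h0
  · rw [← h1]; exact h m hm

/-- The twisted functions. -/
noncomputable def twf (g : G → K) (y : J → K) (F : τ → (J → ℤ) →₀ k) (e : τ → Option G)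
    (t : τ) : K :=
  (e t).elim 1 g * ∑ m ∈ (F t).support, F t m • ∏ j, y j ^ m j

theorem add_twist (hovp : WA_ovp.{u}) (p : ℕ) [Fact p.Prime] (M : LM R0 R T I) {f : ι → K}
    {n : ι → I → ℤ} {a h : T → ι → K} {g : G → K} {Γ : G → I → ℤ} {y : J → K} {Y : J → I → ℤ}
    (hN : NBS p M f n a h) (hG : Fn M g Γ) (hY : Fn M y Y) (hD : Dual M n h g Γ y Y)
    (F : τ → (J → ℤ) →₀ k) (e : τ → Option G) (hND : ND F fun t => e t ≠ none) :
    ∃ (T' I' : Type) (_ : Finite T') (_ : Fintype I') (M' : LM R0 R T' I') (π : T' → T)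
      (Θ : I' → I → ℤ) (n' : ι ⊕ τ → I' → ℤ) (a' h' : T' → ι ⊕ τ → K),
      Ov M M' π Θ ∧ (∀ i' i, 0 ≤ Θ i' i) ∧ NBS p M' (Sum.elim f (twf g y F e)) n' a' h' := by
  classical
  have : Fintype τ := Fintype.ofFinite τ
  have hp : p.Prime := Fact.out
  let B : τ → I → ℤ := fun t => (e t).elim 0 Γ
  let X : Type := Option (Σ t : τ, {m // m ∈ (F t).support})
  let Γ' : X → I → ℤ := fun o => o.elim 0 fun q => gm Y (B q.1) q.2.1
  obtain ⟨T', I', iT, iI, M', π, Θ, hOv, hΘ, hC⟩ := hovp k K R0 R T I X M Γ'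
  let Y1 : J → I' → ℤ := fun j => tr Θ (Y j)
  let Γ1 : G → I' → ℤ := fun b => tr Θ (Γ b)
  let B1 : τ → I' → ℤ := fun t => (e t).elim 0 Γ1
  have htr0 : tr Θ (0 : I → ℤ) = 0 := by
    funext i'
    unfold tr
    simp
  have hB1 : ∀ t, tr Θ (B t) = B1 t := by
    intro t
    change tr Θ ((e t).elim 0 Γ) = (e t).elim 0 Γ1
    rcases e t with _ | b
    · exact htr0
    · rfl
  let N : τ → I' → ℤ := fun t => npole (F t) Y1 (B1 t)
  have hN0 := nbs_ov hOv hΘ hN
  have hD1 := hD.ov hOv hN.hA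
  have hG1 : Fn M' g Γ1 := hG.ov hOv
  have hY1 : Fn M' y Y1 := hY.ov hOv
  -- representation of the multipliers
  have hB : ∀ t t', ∃ w, w ≠ 0 ∧ w ∈ M'.A t' ∧ w⁻¹ ∈ M'.A t' ∧
      (e t).elim 1 g = w * ∏ i, M'.x t' i ^ B1 t i := by
    intro t t'
    change ∃ w, w ≠ 0 ∧ w ∈ M'.A t' ∧ w⁻¹ ∈ M'.A t' ∧
      (e t).elim 1 g = w * ∏ i, M'.x t' i ^ ((e t).elim 0 Γ1 : I' → ℤ) i
    rcases e t with _ | b
    · refine ⟨1, one_ne_zero, Subalgebra.one_mem _, by rw [inv_one]; exact Subalgebra.one_mem _, ?_⟩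
      simp
    · exact hG1 b t'
  choose wb wb0 wbA wbi hwb using hB
  choose w w0 wA wi hw using fun (t' : T') (j : J) => hY1 j t'
  have hn : ∀ t, ∀ m ∈ (F t).support, ∀ i, N t i ≤ gm Y1 (B1 t) m i := fun t m hm i =>
    npole_le_gm _ _ _ _ m hm
  have hmem : ∀ t t', twf g y F e t * ∏ i, M'.x t' i ^ (-N t i) ∈ M'.A t' := fun t t' =>
    twist_mem (M'.xA t') (M'.x0 t') Y1 (w0 t') (wA t') (wi t') (hw t') (B1 t) (wb0 t t')
      (wbA t t') (wbi t t') (hwb t t') (F t) (N t) (hn t)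
  refine ⟨T', I', iT, iI, M', π, Θ, Sum.elim (fun l => tr Θ (n l)) N,
    fun t' => Sum.elim (a (π t')) (fun _ => 0),
    fun t' => Sum.elim (h (π t')) (fun t => twf g y F e t * ∏ i, M'.x t' i ^ (-N t i)),
    hOv, hΘ, ?_, ?_, ?_, ?_⟩
  · rintro (l | t) i
    · exact hN0.n0 l i
    · exact npole_le _ _ _ _
  · rintro t' (l | t)
    · exact hN0.hA t' l
    · exact hmem t t'
  · rintro t' (l | t)
    · exact hN0.eq t' l
    · simp only [Sum.elim_inr]
      have h1 : (∏ i, M'.x t' i ^ N t i) * (twf g y F e t * ∏ i, M'.x t' i ^ (-N t i)) =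
          twf g y F e t * ((∏ i, M'.x t' i ^ N t i) * ∏ i, M'.x t' i ^ (-N t i)) := by ring
      have h2 : (∏ i, M'.x t' i ^ N t i) * ∏ i, M'.x t' i ^ (-N t i) = 1 := by
        rw [← Finset.prod_mul_distrib]
        refine Finset.prod_eq_one fun i _ => ?_
        rw [← zpow_add₀ (M'.x0 t' i), add_neg_cancel, zpow_zero]
      rw [h1, h2, mul_one, zero_pow hp.ne_zero, sub_zero, zero_add]
  · intro t' κ _ _ φ
    -- the data at the point
    let x := M'.x t'
    have hxA := M'.xA t'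
    have hx0 := M'.x0 t'
    let z := zp φ hxA (wA t') Y1
    let l := ls φ hxA Y1
    have hz : ∀ j, z j ≠ 0 := zp_ne φ hxA Y1 (w0 t') (wA t') (wi t')
    let C : τ → Prop := fun t =>
      ∃ m ∈ (F t).support, ∀ i, φ ⟨x i, hxA i⟩ = 0 → gm Y1 (B1 t) m i = N t i
    choose c c0 hc using fun t => om_twist φ hxA hx0 Y1 (w0 t') (wA t') (wi t') (hw t') (B1 t)
      (wb0 t t') (wbA t t') (wbi t t') (hwb t t') (F t) (N t) (hn t)
    have hl : ∀ m : J → ℤ, ∑ j, l j * m j =
        ∑ i ∈ Finset.univ.filter (fun i => φ ⟨x i, hxA i⟩ = 0), gm Y1 0 m i := by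
      intro m
      change ∑ j, ls φ hxA Y1 j * m j = _
      unfold ls gm
      simp only [Pi.zero_apply, zero_add]
      rw [Finset.sum_comm]
      refine Finset.sum_congr rfl fun j _ => ?_
      rw [Finset.sum_mul]
      refine Finset.sum_congr rfl fun i _ => ?_
      ring
    have hCle : ∀ t, C t → (e t ≠ none ∨ ∃ m ∈ (F t).support, ∑ j, l j * m j ≤ 0) := by
      rintro t ⟨m, hm, h1⟩
      by_cases he : e t = none
      · right
        refine ⟨m, hm, ?_⟩
        rw [hl]
        have hB0 : B1 t = 0 := by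
          change ((e t).elim 0 Γ1 : I' → ℤ) = 0
          rw [he]
          rfl
        refine Finset.sum_nonpos fun i hi => ?_
        have h2 := h1 i (Finset.mem_filter.1 hi).2
        rw [hB0] at h2
        rw [h2]
        exact npole_le _ _ _ _
      · exact Or.inl he
    have hunit : ∀ i, φ ⟨x i, hxA i⟩ = 0 → ¬ (x i)⁻¹ ∈ M'.A t' := by
      intro i hi hi'
      have h1 : φ ⟨x i, hxA i⟩ * φ ⟨(x i)⁻¹, hi'⟩ = 1 := by
        rw [← map_mul, ← map_one φ]
        congr 1
        exact Subtype.ext (mul_inv_cancel₀ (hx0 i))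
      rw [hi, zero_mul] at h1
      exact zero_ne_one h1
    have hΓ' : ∀ (q : Σ t : τ, {m // m ∈ (F t).support}) (i' : I'),
        ∑ i, Θ i' i * Γ' (some q) i = gm Y1 (B1 q.1) q.2.1 i' := by
      intro q i'
      have h1 := tr_gm Θ Y (B q.1) q.2.1 i'
      rw [hB1] at h1
      exact h1
    have hΓ0 : ∀ i' : I', ∑ i, Θ i' i * Γ' none i = 0 := by
      intro i'
      refine Finset.sum_eq_zero fun i _ => ?_
      change Θ i' i * (0 : ℤ) = 0
      rw [mul_zero]
    have hCC : ∀ q q' : Σ t : τ, {m // m ∈ (F t).support},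
        (∀ i', gm Y1 (B1 q.1) q.2.1 i' ≤ gm Y1 (B1 q'.1) q'.2.1 i' ∨ (x i')⁻¹ ∈ M'.A t') ∨
        (∀ i', gm Y1 (B1 q'.1) q'.2.1 i' ≤ gm Y1 (B1 q.1) q.2.1 i' ∨ (x i')⁻¹ ∈ M'.A t') := by
      intro q q'
      rcases hC (some q) (some q') t' with h1 | h1
      · left
        intro i'
        have h2 := h1 i'
        change (∑ i, Θ i' i * Γ' (some q) i ≤ ∑ i, Θ i' i * Γ' (some q') i) ∨ _ at h2
        rwa [hΓ', hΓ'] at h2
      · right
        intro i'
        have h2 := h1 i'
        change (∑ i, Θ i' i * Γ' (some q') i ≤ ∑ i, Θ i' i * Γ' (some q) i) ∨ _ at h2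
        rwa [hΓ', hΓ'] at h2
    have hCC0 : ∀ q : Σ t : τ, {m // m ∈ (F t).support},
        (∀ i', gm Y1 (B1 q.1) q.2.1 i' ≤ 0 ∨ (x i')⁻¹ ∈ M'.A t') ∨
        (∀ i', 0 ≤ gm Y1 (B1 q.1) q.2.1 i' ∨ (x i')⁻¹ ∈ M'.A t') := by
      intro q
      rcases hC (some q) none t' with h1 | h1
      · left
        intro i'
        have h2 := h1 i'
        change (∑ i, Θ i' i * Γ' (some q) i ≤ ∑ i, Θ i' i * Γ' none i) ∨ _ at h2
        rwa [hΓ', hΓ0] at h2
      · right
        intro i'
        have h2 := h1 i'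
        change (∑ i, Θ i' i * Γ' none i ≤ ∑ i, Θ i' i * Γ' (some q) i) ∨ _ at h2
        rwa [hΓ', hΓ0] at h2
    have hpole : ∀ t0, (∃ i, N t0 i < 0 ∧ φ ⟨x i, hxA i⟩ = 0) →
        C t0 ∧ (e t0 ≠ none ∨ ∃ m ∈ (F t0).support, ∑ j, l j * m j < 0) := by
      rintro t0 ⟨i0, hi0, hi0'⟩
      -- the minimal monomial
      have hne : ∃ m, m ∈ (F t0).support := by
        rcases npole_eq (F t0) Y1 (B1 t0) i0 with h1 | ⟨m, hm, -⟩
        · exact absurd h1 hi0.ne
        · exact ⟨m, hm⟩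
      obtain ⟨m1, hm1⟩ := hne
      have : Nonempty {m // m ∈ (F t0).support} := ⟨⟨m1, hm1⟩⟩
      obtain ⟨⟨m0, hm0⟩, hmin⟩ := Pool.Agent.W349.WD.Sum.exists_min
        (fun a b : {m // m ∈ (F t0).support} =>
          ∀ i', gm Y1 (B1 t0) a.1 i' ≤ gm Y1 (B1 t0) b.1 i' ∨ (x i')⁻¹ ∈ M'.A t')
        (fun a b => hCC ⟨t0, a⟩ ⟨t0, b⟩)
        (by
          intro a b c h1 h2 i'
          rcases h1 i' with h3 | h3
          · rcases h2 i' with h4 | h4
            · exact Or.inl (h3.trans h4)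
            · exact Or.inr h4
          · exact Or.inr h3)
      have hmin' : ∀ m ∈ (F t0).support, ∀ i, φ ⟨x i, hxA i⟩ = 0 →
          gm Y1 (B1 t0) m0 i ≤ gm Y1 (B1 t0) m i := fun m hm i hi =>
        (hmin ⟨m, hm⟩ i).resolve_right (hunit i hi)
      -- comparison with the constant
      have hz0 : (∀ i, φ ⟨x i, hxA i⟩ = 0 → gm Y1 (B1 t0) m0 i ≤ 0) ∨
          (∀ i, φ ⟨x i, hxA i⟩ = 0 → 0 ≤ gm Y1 (B1 t0) m0 i) := by
        rcases hCC0 ⟨t0, ⟨m0, hm0⟩⟩ with h1 | h1
        · left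
          intro i hi
          exact (h1 i).resolve_right (hunit i hi)
        · right
          intro i hi
          exact (h1 i).resolve_right (hunit i hi)
      rcases hz0 with hz0 | hz0
      · have hCm : ∀ i, φ ⟨x i, hxA i⟩ = 0 → gm Y1 (B1 t0) m0 i = N t0 i := by
          intro i hi
          refine le_antisymm ?_ (npole_le_gm _ _ _ _ m0 hm0)
          exact npole_min _ _ _ _ _ (hz0 i hi) fun m hm => hmin' m hm i hi
        refine ⟨⟨m0, hm0, hCm⟩, ?_⟩
        by_cases he : e t0 = none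
        · right
          refine ⟨m0, hm0, ?_⟩
          rw [hl]
          have hB0 : B1 t0 = 0 := by
            change ((e t0).elim 0 Γ1 : I' → ℤ) = 0
            rw [he]
            rfl
          refine Finset.sum_neg' (fun i hi => ?_) ⟨i0, ?_, ?_⟩
          · have h2 := hz0 i (Finset.mem_filter.1 hi).2
            rw [hB0] at h2
            exact h2
          · exact Finset.mem_filter.2 ⟨Finset.mem_univ _, hi0'⟩
          · have h2 := hCm i0 hi0'
            rw [hB0] at h2
            rw [h2]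
            exact hi0
        · exact Or.inl he
      · exfalso
        have h5 : 0 ≤ N t0 i0 := npole_min _ _ _ _ _ le_rfl fun m hm =>
          (hz0 i0 hi0').trans (hmin' m hm i0 hi0')
        exact absurd hi0 (not_lt.2 h5)
    have hbLG : ∀ (v : LT φ x) (sb : G → κ), (∀ b, LGF v (Γ1 b) (g b) (sb b)) → ∀ t,
        LGF v (B1 t) ((e t).elim 1 g) ((e t).elim 0 sb) := by
      intro v sb hv t
      change LGF v ((e t).elim 0 Γ1) ((e t).elim 1 g) ((e t).elim 0 sb)
      rcases e t with _ | b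
      · exact LGF.one v
      · exact hv b
    rintro (j0 | t0) ⟨i0, hi0, hi0'⟩
    · obtain ⟨v0, hv0, hv0'⟩ := hN0.ln t' κ φ j0 ⟨i0, hi0, hi0'⟩
      choose α hα using fun j => LGF.exists v0 (w0 t' j) (wA t' j) (wi t' j) (hw t' j)
      have hsb : ∀ b, ∃ s, LGF v0 (Γ1 b) (g b) s := by
        intro b
        obtain ⟨w', h0', h1', h2', h3'⟩ := hG1 b t'
        exact LGF.exists v0 h0' h1' h2' h3'
      choose sb hsb using hsb
      -- vectors for the correction
      have hav : ∀ t, ∃ a : J → κ, C t → e t ≠ none → (der (F t) l z a ≠ 0 ∧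
          ∀ t', C t' → t' ≠ t → der (F t') l z a = 0) := by
        intro t
        by_cases h : e t ≠ none
        · obtain ⟨a, h1, h2⟩ := hND κ l z hz t (Or.inl h)
          exact ⟨a, fun _ _ => ⟨h1, fun t' hC' hne => h2 t' hne (hCle t' hC')⟩⟩
        · exact ⟨0, fun _ h' => absurd h' h⟩
      choose av hav using hav
      obtain ⟨cc, hcc1, hcc2⟩ := correct F l z C (fun t => e t ≠ none) av
        (fun t h1 h2 => (hav t h1 h2).1) (fun t t' h1 h2 h3 h4 => (hav t h1 h2).2 t' h3 h4)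
        (fun t => -(((e t).elim 0 sb : κ) * vl (F t) l z))
      obtain ⟨vD, hvD1, hvD2, hvD3⟩ := hD1 t' κ φ (fun j => cc j - α j)
      refine ⟨ltAdd v0 vD 1, ?_, ?_⟩
      · change om (ltAdd v0 vD 1) (tr Θ (n j0)) (hN0.hA t' j0) ≠ 0
        rw [om_ltAdd, hvD1 j0, mul_zero, add_zero]
        exact hv0
      · rintro (l' | t) hne
        · change om (ltAdd v0 vD 1) (tr Θ (n l')) (hN0.hA t' l') = 0
          rw [om_ltAdd, hvD1 l', mul_zero, add_zero]
          exact hv0' l' fun h => hne (by rw [h])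
        · have hy' : ∀ j, LGF (ltAdd v0 vD 1) (Y1 j) (y j) (cc j) := by
            intro j
            have h1 := LGF.add 1 hx0 (hα j) (hvD3 j)
            have h2 : α j + 1 * (cc j - α j) = cc j := by ring
            rw [h2] at h1
            exact h1
          have hg' : ∀ b, LGF (ltAdd v0 vD 1) (Γ1 b) (g b) (sb b) := by
            intro b
            have h1 := LGF.add 1 hx0 (hsb b) (hvD2 b)
            rw [mul_zero, add_zero] at h1
            exact h1
          have h3 := hc t (ltAdd v0 vD 1) cc _ hy' (hbLG _ _ hg' t) (hmem t t')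
          refine Eq.trans h3 ?_
          split_ifs with hCt
          · by_cases he : e t = none
            · have h4 : der (F t) (ls φ hxA Y1) (zp φ hxA (wA t') Y1) cc = 0 :=
                hcc2 t hCt (not_not.2 he)
              rw [h4, he]
              simp
            · have h4 : der (F t) (ls φ hxA Y1) (zp φ hxA (wA t') Y1) cc =
                  -(((e t).elim 0 sb : κ) * vl (F t) l z) := hcc1 t hCt he
              rw [h4]
              change c t * (((e t).elim 0 sb : κ) * vl (F t) l z +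
                -(((e t).elim 0 sb : κ) * vl (F t) l z)) = 0
              rw [add_neg_cancel, mul_zero]
          · rfl
    · obtain ⟨hC0, hneg⟩ := hpole t0 ⟨i0, hi0, hi0'⟩
      obtain ⟨av, hav1, hav2⟩ := hND κ l z hz t0 hneg
      obtain ⟨vD, hvD1, hvD2, hvD3⟩ := hD1 t' κ φ av
      have hval : ∀ t, om vD (N t) (hmem t t') = if C t then c t * der (F t) l z av else 0 := by
        intro t
        have h3 := hc t vD av _ hvD3 (hbLG vD (fun _ => 0) hvD2 t) (hmem t t')
        have h4 : ((e t).elim (0 : κ) fun _ => 0) = 0 := by rcases e t with _ | b <;> rfl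
        rw [h4, zero_mul, zero_add] at h3
        exact h3
      refine ⟨vD, ?_, ?_⟩
      · change om vD (N t0) (hmem t0 t') ≠ 0
        rw [hval, if_pos hC0]
        exact mul_ne_zero (c0 t0) hav1
      · rintro (l' | t) hne
        · exact hvD1 l' (hN0.hA t' l')
        · change om vD (N t) (hmem t t') = 0
          rw [hval]
          split_ifs with hCt
          · rw [hav2 t (fun h => hne (by rw [h])) (hCle t hCt), mul_zero]
          · rfl

end main

end Pool.Agent.TH214
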