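import Pool.Agent.TH214.Dom

/-! Restriction of models to affine varieties over which they lie. -/

set_option autoImplicit false
set_option linter.unusedVariables false
set_option linter.unusedSectionVars false

universe u

open Polynomial AlgebraicGeometry CategoryTheory Pool.Agent.W558

namespace Pool.Agent.TH214

/-- Restriction of a model to the part where the functions `r t` do not vanish. -/
theorem res_gen {k K : Type u} [Field k] [Field K] [Algebra k K] {T I : Type} [Finite T]
    [Fintype I] (M : LM (⊥ : Subalgebra k K) ⊤ T I) (hFrc : Frc M) (R : Subalgebra k K)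
    (X : Set K) (hRint : ∀ x ∈ R, IsIntegral (Algebra.adjoin k X) x)
    (hfrac : ∀ x : K, ∃ a ∈ R, ∃ b ∈ R, b ≠ 0 ∧ x = a * b⁻¹) (r : T → K)
    (hrmem : ∀ t, r t ∈ M.A t) (hr0 : ∀ t, r t ≠ 0) (hrR : ∀ t, (r t)⁻¹ ∈ R)
    (hX : ∀ t, ∀ x ∈ X, x ∈ adj (M.A t) (r t)⁻¹) : Nonempty (LM R R T I) := by
  classical
  have hT : Nonempty T := by
    obtain ⟨t, -⟩ := M.cv ⊤ (fun a _ => trivial)
    exact ⟨t⟩
  let C : T → Subalgebra k K := fun t => adj (M.A t) (r t)⁻¹
  have hleC : ∀ t, M.A t ≤ C t := fun t => le_adj _ _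
  have hrC : ∀ t, (r t)⁻¹ ∈ C t := fun t => self_mem_adj _ _
  have hRC : ∀ t, R ≤ C t := by
    intro t x hx
    have h1 : IsIntegral (Algebra.adjoin k X) x := hRint x hx
    have hle : Algebra.adjoin k X ≤ C t := Algebra.adjoin_le fun x hx => hX t x hx
    have h2 : IsIntegral (C t) x := by
      have h3 := h1.map_of_comp_eq (Subalgebra.inclusion hle).toRingHom (RingHom.id K) rfl
      exact h3
    have := M.sm t
    have hsm : Algebra.Smooth k (C t) := smooth_adj_inv (hrmem t) (hr0 t)
    have hIC : IsIntegrallyClosed (C t) := wd_norm k (C t)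
    have hfr : IsFractionRing (C t) K := by
      refine IsFractionRing.of_field (C t) K fun z => ?_
      obtain ⟨a, ha, b, hb, hb0, hz⟩ := hFrc t z
      exact ⟨⟨a, hleC t ha⟩, ⟨b, hleC t hb⟩, by
        rw [div_eq_mul_inv]; exact hz⟩
    obtain ⟨y, hy⟩ := IsIntegrallyClosed.isIntegral_iff.1 h2
    rw [← hy]
    exact y.2
  -- generators
  have hfg : ∀ t, ∃ y : Finset K, M.A t = Algebra.adjoin k (y : Set K) := by
    intro t
    have := M.sm t
    have h1 : Algebra.FiniteType k (M.A t) := inferInstance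
    obtain ⟨y, hy⟩ := (M.A t).fg_iff_finiteType.2 h1
    exact ⟨y, hy.symm⟩
  choose y hy using hfg
  have : Fintype T := Fintype.ofFinite T
  obtain ⟨c, hcR, hc0, hc⟩ := Pool.Agent.W22.W558Restr.exists_den R hfrac
    (Finset.univ.image M.H ∪ Finset.univ.biUnion fun t => (y t).image fun z => M.H t * z)
  have hcH : ∀ t, c * M.H t ∈ R := fun t =>
    hc _ (Finset.mem_union_left _ (Finset.mem_image_of_mem _ (Finset.mem_univ t)))
  have hcHy : ∀ t, ∀ z ∈ y t, c * (M.H t * z) ∈ R := fun t z hz =>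
    hc _ (Finset.mem_union_right _ (Finset.mem_biUnion.2 ⟨t, Finset.mem_univ t,
      Finset.mem_image_of_mem _ hz⟩))
  have hdn1 : ∀ t, ∀ f ∈ M.A t, ∃ n : ℕ, (c * M.H t) ^ n * f ∈ R := by
    intro t f hf
    have hmono : ∀ (n m : ℕ) (f : K), n ≤ m → (c * M.H t) ^ n * f ∈ R →
        (c * M.H t) ^ m * f ∈ R := by
      intro n m f hnm h
      obtain ⟨e, rfl⟩ := Nat.exists_eq_add_of_le hnm
      rw [add_comm, pow_add, mul_assoc]
      exact R.mul_mem (R.pow_mem (hcH t) e) h
    rw [hy t] at hf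
    induction hf using Algebra.adjoin_induction with
    | mem x hx =>
      refine ⟨1, ?_⟩
      rw [pow_one, mul_assoc]
      exact hcHy t x hx
    | algebraMap a => exact ⟨0, by rw [pow_zero, one_mul]; exact R.algebraMap_mem a⟩
    | add a b _ _ ha hb =>
      obtain ⟨n, hn⟩ := ha
      obtain ⟨m, hm⟩ := hb
      refine ⟨max n m, ?_⟩
      rw [mul_add]
      exact R.add_mem (hmono _ _ _ (le_max_left _ _) hn) (hmono _ _ _ (le_max_right _ _) hm)
    | mul a b _ _ ha hb =>
      obtain ⟨n, hn⟩ := ha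
      obtain ⟨m, hm⟩ := hb
      refine ⟨n + m, ?_⟩
      rw [pow_add, mul_mul_mul_comm]
      exact R.mul_mem hn hm
  have hcan : ∀ (t : T) (n : ℕ) (f : K), f = f * r t ^ n * ((r t)⁻¹) ^ n := by
    intro t n f
    rw [mul_assoc, ← mul_pow, mul_inv_cancel₀ (hr0 t), one_pow, mul_one]
  have hrat : ∀ t t', (c * M.H t') / (c * M.H t) = M.H t' / M.H t := by
    intro t t'
    rw [mul_div_mul_left _ _ hc0]
  let M' : LM R R T I :=
    { A := C
      H := fun t => c * M.H t
      x := M.x
      sm := fun t => by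
        have := M.sm t
        exact smooth_adj_inv (hrmem t) (hr0 t)
      base := hRC
      H0 := fun t => mul_ne_zero hc0 (M.H0 t)
      HR := hcH
      rt := fun t t' => by
        rw [hrat]
        exact hleC t (M.rt t t')
      gl := by
        intro t t' f hf
        obtain ⟨n, hn⟩ := (mem_adj_inv (hrmem t') (hr0 t')).1 hf
        obtain ⟨m, hm⟩ := M.gl t t' _ hn
        refine ⟨m, ?_⟩
        rw [hrat]
        have h1 : (M.H t' / M.H t) ^ m * f =
            (M.H t' / M.H t) ^ m * (f * r t' ^ n) * ((r t')⁻¹) ^ n := by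
          rw [mul_assoc, ← hcan]
        rw [h1]
        exact (C t).mul_mem (hleC t hm) ((C t).pow_mem (hRC t (hrR t')) n)
      dn := by
        intro t f hf
        obtain ⟨n, hn⟩ := (mem_adj_inv (hrmem t) (hr0 t)).1 hf
        obtain ⟨m, hm⟩ := hdn1 t _ hn
        refine ⟨m, ?_⟩
        have h1 : (c * M.H t) ^ m * f = (c * M.H t) ^ m * (f * r t ^ n) * ((r t)⁻¹) ^ n := by
          rw [mul_assoc, ← hcan]
        rw [h1]
        exact R.mul_mem hm (R.pow_mem (hrR t) n)
      cv := by
        intro V hV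
        obtain ⟨t, ht⟩ := M.cv V (fun a ha => hV a ((bot_le : (⊥ : Subalgebra k K) ≤ R) ha))
        refine ⟨t, ?_⟩
        refine adj_induction (M.A t) (r t)⁻¹ (p := fun f => f ∈ V) (fun a ha => ht a ha)
          (fun a b ha hb => V.add_mem _ _ ha hb)
          (fun a ha => V.mul_mem _ _ ha (hV _ (hrR t)))
      xA := fun t i => hleC t (M.xA t i)
      x0 := M.x0
      gi := by
        intro t t' i
        obtain ⟨n, hn⟩ := M.gi t t' i
        exact ⟨n, by rw [hrat]; exact hleC t hn⟩
      snc := fun t => SNC.loc (M.snc t) (M.xA t) (hrmem t) (hr0 t) }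
  exact ⟨M'⟩

end Pool.Agent.TH214
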