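import Pool.Agent.TH214.Dual
import Pool.Agent.W498.Tor.Tor
import Pool.Agent.W191.WD.Prod

/-! The compactified torus with its logarithmic tangent vectors, and products with it. -/

set_option autoImplicit false
set_option linter.unusedVariables false
set_option linter.unusedSectionVars false

universe u

open scoped IntermediateField.algebraAdjoinAdjoin

open Pool.Agent.W558 Pool.Agent.W177.WD Polynomial TensorProduct

namespace Pool.Agent.TH214

section torus

variable {k K : Type u} [Field k] [Field K] [Algebra k K] {T I : Type}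

/-- Logarithmic tangent vectors with arbitrary values on the functions `y j`. -/
def DualY {R0 R : Subalgebra k K} [Fintype I] {J : Type} (M : LM R0 R T I) (y : J → K)
    (Y : J → I → ℤ) : Prop :=
  ∀ t (κ : Type u) [Field κ] [Algebra k κ] (φ : M.A t →ₐ[k] κ) (c : J → κ),
    ∃ v : LT φ (M.x t), ∀ j, LGF v (Y j) (y j) (c j)

/-- The point. -/
noncomputable def ptLM (k K : Type u) [Field k] [Field K] [Algebra k K] :
    LM (⊥ : Subalgebra k K) ⊤ Unit Empty where
  A := fun _ => ⊥
  H := fun _ => 1
  x := fun _ i => i.elim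
  sm := fun _ => Algebra.Smooth.of_equiv (Algebra.botEquiv k K).symm
  base := fun _ => le_rfl
  H0 := fun _ => one_ne_zero
  HR := fun _ => Algebra.mem_top
  rt := fun _ _ => by rw [div_one]; exact Subalgebra.one_mem _
  gl := fun _ _ f hf => ⟨0, by rw [pow_zero, one_mul]; exact hf⟩
  dn := fun _ f _ => ⟨0, Algebra.mem_top⟩
  cv := fun V hV => ⟨(), fun f hf => hV f hf⟩
  xA := fun _ i => i.elim
  x0 := fun _ i => i.elim
  gi := fun _ _ i => i.elim
  snc := fun _ κ _ _ φ i => i.elim

open Pool.Agent.W498.Tor in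
/-- Extension of logarithmic tangent vectors to the product with the projective line. -/
lemma dualY_prod [Fintype I] {r : ℕ} (M : LM (⊥ : Subalgebra k K) ⊤ T I) {z : K} (hz : z ≠ 0)
    (h : ∀ t, Tr (M.A t) z) {y : Fin r → K} {Y : Fin r → I → ℤ} (hD : DualY M y Y) :
    DualY (prodLM M hz h) (Fin.snoc (α := fun _ => K) y z)
      (Fin.snoc (α := fun _ => I ⊕ Bool → ℤ) (fun j => Sum.elim (Y j) 0)
        (Sum.elim 0 (fun c => if c then 1 else -1))) := by
  rintro ⟨t, b⟩ κ _ _ φ c
  let φ0 : M.A t →ₐ[k] κ := φ.comp (Subalgebra.inclusion (le_adj (M.A t) (zz z b)))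
  obtain ⟨v0, hv0⟩ := hD t κ φ0 (fun j => c j.castSucc)
  let s : κ := if b then c (Fin.last r) else - c (Fin.last r)
  obtain ⟨E, hE1, hE2⟩ := ext_pe ((h t).zz hz b) φ φ0 (fun a => rfl) v0.D
    (φ ⟨zz z b, self_mem_adj _ _⟩ * s)
  have hx : ∀ i (hi : xx (M.x t) z b i ∈ adj (M.A t) (zz z b)),
      E.D ⟨xx (M.x t) z b i, hi⟩ = φ ⟨xx (M.x t) z b i, hi⟩ *
        (Sum.elim v0.e (fun c => if b = c then s else 0)) i := by
    rintro (i | c) hi
    · exact (hE1 (M.x t i) (M.xA t i) _).trans (v0.hx i (M.xA t i))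
    · simp only [Sum.elim_inr]
      by_cases hc : b = c
      · have h5 : (⟨xx (M.x t) z b (Sum.inr c), hi⟩ : adj (M.A t) (zz z b)) =
            ⟨zz z b, self_mem_adj _ _⟩ := Subtype.ext (if_pos hc)
        rw [if_pos hc]
        exact (congrArg (fun q => E.D q) h5).trans ((hE2 _).trans
          (congrArg (fun q => q * s) (congrArg (fun q => φ q) h5).symm))
      · have h5 : (⟨xx (M.x t) z b (Sum.inr c), hi⟩ : adj (M.A t) (zz z b)) = 1 :=
          Subtype.ext (if_neg hc)
        rw [if_neg hc, h5, E.D_one, mul_zero]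
  let v : LT φ (xx (M.x t) z b) := ⟨E, Sum.elim v0.e (fun c => if b = c then s else 0), hx⟩
  have key : ∀ (γ : I → ℤ) (w : K) (q : κ), LGF v0 γ w q → LGF v (Sum.elim γ 0) w q := by
    rintro γ w q ⟨w', h0, h1, h2, h3⟩
    refine ⟨w', h0, le_adj _ _ h1, ?_, le_adj _ _ h3.mem, ?_⟩
    · rw [h2, Fintype.prod_sum_type]
      congr 1
      simp only [Sum.elim_inl, Sum.elim_inr, Pi.zero_apply, zpow_zero, Finset.prod_const_one,
        mul_one]
      rfl
    · have e1 : E.D ⟨w', le_adj _ _ h3.mem⟩ = v0.D.D ⟨w', h3.mem⟩ := hE1 w' h3.mem _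
      have e2 : φ ⟨w', le_adj _ _ h3.mem⟩ = φ0 ⟨w', h3.mem⟩ := rfl
      have e3 : ∑ i, ((Sum.elim γ (0 : Bool → ℤ) i : ℤ) : κ) * v.e i =
          ∑ i, (γ i : κ) * v0.e i := by
        rw [Fintype.sum_sum_type]
        simp only [Sum.elim_inl, Sum.elim_inr, Pi.zero_apply, Int.cast_zero, zero_mul,
          Finset.sum_const_zero, add_zero]
        rfl
      change E.D ⟨w', _⟩ = φ ⟨w', _⟩ * (q - ∑ i, ((Sum.elim γ (0 : Bool → ℤ) i : ℤ) : κ) * v.e i)
      rw [e1, e2, e3, h3.eq]
  refine ⟨v, fun j => ?_⟩
  refine Fin.lastCases ?_ (fun j => ?_) j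
  · rw [Fin.snoc_last, Fin.snoc_last]
    obtain ⟨w', -, -, -, -⟩ := LGF.one v
    refine ⟨1, one_ne_zero, by rw [inv_one]; exact Subalgebra.one_mem _, ?_,
      Subalgebra.one_mem _, ?_⟩
    · rw [Fintype.prod_sum_type, one_mul]
      simp only [Sum.elim_inl, Sum.elim_inr, Pi.zero_apply, zpow_zero, Finset.prod_const_one,
        one_mul, Fintype.prod_bool]
      change z = (if b = true then zz z b else 1) ^ _ * (if b = false then zz z b else 1) ^ _
      cases b
      · simp [zz]
      · simp [zz]
    · have e1 : E.D ⟨1, Subalgebra.one_mem _⟩ = 0 := E.D_one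
      have e3 : ∑ i, ((Sum.elim (0 : I → ℤ) (fun c : Bool => if c then (1 : ℤ) else -1) i : ℤ) : κ)
          * v.e i = c (Fin.last r) := by
        rw [Fintype.sum_sum_type]
        simp only [Sum.elim_inl, Sum.elim_inr, Pi.zero_apply, Int.cast_zero, zero_mul,
          Finset.sum_const_zero, zero_add, Fintype.sum_bool]
        change ((1 : ℤ) : κ) * (if b = true then s else 0) +
          ((-1 : ℤ) : κ) * (if b = false then s else 0) = _
        cases b
        · simp [s]
        · simp [s]
      change E.D ⟨1, _⟩ = φ ⟨1, _⟩ * (c (Fin.last r) -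
        ∑ i, ((Sum.elim (0 : I → ℤ) (fun c : Bool => if c then (1 : ℤ) else -1) i : ℤ) : κ) * v.e i)
      rw [e1, e3, sub_self, mul_zero]
  · rw [Fin.snoc_castSucc, Fin.snoc_castSucc]
    exact key _ _ _ (hv0 j)

open Pool.Agent.W498.Tor in
theorem torus_aux (k K : Type u) [Field k] [Field K] [Algebra k K] :
    ∀ (r : ℕ) (y : Fin r → K), AlgebraicIndependent k y →
    ∃ (T I : Type) (_ : Finite T) (_ : Fintype I) (M : LM (⊥ : Subalgebra k K) ⊤ T I)
      (Y : Fin r → I → ℤ),
      (∀ t, ∀ f ∈ M.A t, f ∈ IntermediateField.adjoin k (Set.range y)) ∧ Fn M y Y ∧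
      DualY M y Y ∧ ∀ t j, y j ∈ IntermediateField.adjoin k (M.A t : Set K) := by
  intro r
  induction r with
  | zero =>
    intro y hy
    refine ⟨Unit, Empty, inferInstance, inferInstance, ptLM k K, fun j => j.elim0, ?_,
      fun j => j.elim0, ?_, fun t j => j.elim0⟩
    · intro t f hf
      obtain ⟨c, rfl⟩ := Algebra.mem_bot.1 hf
      exact IntermediateField.algebraMap_mem _ c
    · intro t κ _ _ φ c
      exact ⟨⟨TV.zero φ, fun i => i.elim, fun i => i.elim⟩, fun j => j.elim0⟩
  | succ r ih =>
    intro y hy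
    have hz' : AlgebraicIndependent k (y ∘ Fin.castSucc) :=
      hy.comp _ (Fin.castSucc_injective r)
    obtain ⟨T', I', iT, iI, M', Y, h1, h2, h3, h3'⟩ := ih (y ∘ Fin.castSucc) hz'
    let S : Set K := Set.range (y ∘ Fin.castSucc)
    have hS : S = y '' (Set.range Fin.castSucc) := Set.range_comp _ _
    have htr : Transcendental (Algebra.adjoin k S) (y (Fin.last r)) := by
      have h4 : Fin.last r ∉ Set.range (Fin.castSucc : Fin r → Fin (r + 1)) := by
        rintro ⟨i, hi⟩
        exact (Fin.castSucc_lt_last i).ne hi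
      have h5 := hy.transcendental_adjoin h4
      rw [hS]
      exact h5
    have htr' : Transcendental (IntermediateField.adjoin k S) (y (Fin.last r)) := by
      intro h4
      exact htr ((IsFractionRing.isAlgebraic_iff (Algebra.adjoin k S)
        (IntermediateField.adjoin k S) K).2 h4)
    have hz0 : y (Fin.last r) ≠ 0 := by
      intro h0
      apply htr
      rw [h0]
      exact isAlgebraic_zero
    have hTr : ∀ t, Tr (M'.A t) (y (Fin.last r)) := by
      intro t P hP
      let j : M'.A t →+* IntermediateField.adjoin k S :=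
        { toFun := fun a => ⟨a, h1 t a a.2⟩
          map_one' := rfl
          map_mul' := fun a b => rfl
          map_zero' := rfl
          map_add' := fun a b => rfl }
      have hj : Function.Injective j := fun a b hab =>
        Subtype.ext (congrArg (fun x : IntermediateField.adjoin k S => (x : K)) hab)
      have h4 : aeval (y (Fin.last r)) (P.map j) = 0 := by
        rw [aeval_def, eval₂_map]
        exact hP
      have h5 := transcendental_iff.1 htr' _ h4
      exact (Polynomial.map_eq_zero_iff hj).1 h5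
    have hysnoc : (Fin.snoc (α := fun _ => K) (y ∘ Fin.castSucc) (y (Fin.last r)) :
        Fin (r + 1) → K) = y := by
      funext j
      refine Fin.lastCases ?_ (fun j => ?_) j
      · rw [Fin.snoc_last]
      · rw [Fin.snoc_castSucc]
        rfl
    refine ⟨T' × Bool, I' ⊕ Bool, inferInstance, inferInstance, prodLM M' hz0 hTr,
      Fin.snoc (α := fun _ => I' ⊕ Bool → ℤ) (fun j => Sum.elim (Y j) 0)
        (Sum.elim 0 (fun c => if c then 1 else -1)), ?_, ?_, ?_, ?_⟩
    · rintro ⟨t, b⟩ f hf
      have h4 : IntermediateField.adjoin k S ≤ IntermediateField.adjoin k (Set.range y) := by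
        apply IntermediateField.adjoin.mono
        rintro _ ⟨i, rfl⟩
        exact ⟨_, rfl⟩
      have h5 : y (Fin.last r) ∈ IntermediateField.adjoin k (Set.range y) :=
        IntermediateField.subset_adjoin _ _ ⟨_, rfl⟩
      refine adj_induction (M'.A t) (zz (y (Fin.last r)) b)
        (p := fun f => f ∈ IntermediateField.adjoin k (Set.range y)) ?_ ?_ ?_ f hf
      · exact fun a ha => h4 (h1 t a ha)
      · exact fun a b ha hb => add_mem ha hb
      · intro a ha
        refine mul_mem ha ?_
        cases b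
        · exact inv_mem h5
        · exact h5
    · intro j
      refine Fin.lastCases ?_ (fun j => ?_) j
      · have h4 := f1_self M' hz0 hTr
        rw [Fin.snoc_last]
        exact h4
      · have h4 := f1_prod M' hz0 hTr (g := y j.castSucc) (γ := Y j) (fun t => h2 j t)
        rw [Fin.snoc_castSucc]
        exact h4
    · have h4 := dualY_prod M' hz0 hTr h3
      rw [hysnoc] at h4
      exact h4
    · rintro ⟨t, b⟩ j
      have hle : IntermediateField.adjoin k (M'.A t : Set K) ≤
          IntermediateField.adjoin k ((prodLM M' hz0 hTr).A (t, b) : Set K) := by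
        apply IntermediateField.adjoin.mono
        intro f hf
        exact le_adj _ _ hf
      refine Fin.lastCases ?_ (fun j => ?_) j
      · have h4 : zz (y (Fin.last r)) b ∈
            IntermediateField.adjoin k ((prodLM M' hz0 hTr).A (t, b) : Set K) :=
          IntermediateField.subset_adjoin _ _ (self_mem_adj _ _)
        cases b
        · have h5 := inv_mem h4
          have h6 : (zz (y (Fin.last r)) false)⁻¹ = y (Fin.last r) := by
            simp [zz]
          rw [h6] at h5
          exact h5
        · exact h4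
      · exact hle (h3' t j)

/-- The compactified torus. -/
theorem exists_torus {k K : Type u} [Field k] [Field K] [Algebra k K] {r : ℕ} {y : Fin r → K}
    (hy : Rat (k := k) y) :
    ∃ (T I : Type) (_ : Finite T) (_ : Fintype I) (M : LM (⊥ : Subalgebra k K) ⊤ T I)
      (Y : Fin r → I → ℤ), Fn M y Y ∧ DualY M y Y ∧ Frc M := by
  obtain ⟨T, I, hT, hI, M, Y, h1, h2, h3, h4⟩ := torus_aux k K r y hy.ind
  refine ⟨T, I, hT, hI, M, Y, h2, h3, ?_⟩
  intro t x
  have hx : x ∈ IntermediateField.adjoin k (M.A t : Set K) := by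
    have hm : ∀ P : MvPolynomial (Fin r) k, MvPolynomial.aeval y P ∈
        IntermediateField.adjoin k (M.A t : Set K) := by
      intro P
      have hP : MvPolynomial.aeval y P ∈ Algebra.adjoin k (Set.range y) := by
        rw [Algebra.adjoin_range_eq_range_aeval]
        exact ⟨P, rfl⟩
      have hle : Algebra.adjoin k (Set.range y) ≤
          (IntermediateField.adjoin k (M.A t : Set K)).toSubalgebra := by
        rw [Algebra.adjoin_le_iff]
        rintro _ ⟨j, rfl⟩
        exact h4 t j
      exact hle hP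
    obtain ⟨P, Q, hQ, h5⟩ := hy.gen x
    have hQ0 : MvPolynomial.aeval y Q ≠ 0 := fun h =>
      hQ ((injective_iff_map_eq_zero _).1 hy.ind Q h)
    have h6 : x = MvPolynomial.aeval y P / MvPolynomial.aeval y Q := (eq_div_iff hQ0).2 h5
    rw [h6]
    exact IntermediateField.div_mem _ (hm P) (hm Q)
  obtain ⟨a, ha, b, hb, hab⟩ := IntermediateField.mem_adjoin_iff_div.1 hx
  have hA : Algebra.adjoin k (M.A t : Set K) = M.A t := Algebra.adjoin_eq _
  rw [hA] at ha hb
  by_cases h0 : b = 0
  · exact ⟨0, Subalgebra.zero_mem _, 1, Subalgebra.one_mem _, one_ne_zero, by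
      rw [hab, h0]; simp⟩
  · exact ⟨a, ha, b, hb, h0, by rw [hab, div_eq_mul_inv]⟩

end torus

end Pool.Agent.TH214
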