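import Pool.Agent.TH214.Twist

/-! Joint normal form of functions `b t * F t (y)`, where the `F t` are jointly strongly
nondegenerate Laurent polynomials. -/

set_option autoImplicit false
set_option linter.unusedVariables false
set_option linter.unusedSectionVars false

universe u

open Pool.Agent.W558 Pool.Agent.W177.WD

namespace Pool.Agent.TH214

section main

variable {k K : Type u} [Field k] [Field K] [Algebra k K] {R0 R : Subalgebra k K}
  {T I : Type} [Finite T] [Fintype I] {ι G J τ : Type} [Fintype J] [Finite τ]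

/-- The minimal exponents. -/
noncomputable def nmin {k : Type u} [Field k] {I : Type} (F : (J → ℤ) →₀ k) (Y : J → I → ℤ)
    (B : I → ℤ) (i : I) : ℤ := by
  classical
  exact if h : F.support.Nonempty then (F.support.image fun m => gm Y B m i).min' (h.image _)
    else 0

lemma nmin_le_gm {I : Type} (F : (J → ℤ) →₀ k) (Y : J → I → ℤ) (B : I → ℤ) (i : I)
    (m : J → ℤ) (hm : m ∈ F.support) : nmin F Y B i ≤ gm Y B m i := by
  classical
  unfold nmin
  rw [dif_pos ⟨m, hm⟩]
  exact Finset.min'_le _ _ (Finset.mem_image_of_mem _ hm)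

lemma nmin_eq {I : Type} (F : (J → ℤ) →₀ k) (hF : F.support.Nonempty) (Y : J → I → ℤ)
    (B : I → ℤ) (i : I) : ∃ m ∈ F.support, gm Y B m i = nmin F Y B i := by
  classical
  unfold nmin
  rw [dif_pos hF]
  obtain ⟨m, hm, h⟩ := Finset.mem_image.1 (Finset.min'_mem (F.support.image fun m => gm Y B m i)
    (hF.image _))
  exact ⟨m, hm, h⟩

theorem add_twistJ (hovp : WA_ovp.{u}) (p : ℕ) [Fact p.Prime] (M : LM R0 R T I) {f : ι → K}
    {n : ι → I → ℤ} {a h : T → ι → K} {g : G → K} {Γ : G → I → ℤ} {y : J → K} {Y : J → I → ℤ}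
    (hN : NFJ p M f n a h) (hG : Fn M g Γ) (hY : Fn M y Y) (hD : Dual M n h g Γ y Y)
    (F : τ → (J → ℤ) →₀ k) (e : τ → G) (hND : ND F fun _ => True) :
    ∃ (T' I' : Type) (_ : Finite T') (_ : Fintype I') (M' : LM R0 R T' I') (π : T' → T)
      (Θ : I' → I → ℤ) (n' : ι ⊕ τ → I' → ℤ) (a' h' : T' → ι ⊕ τ → K),
      Ov M M' π Θ ∧ (∀ i' i, 0 ≤ Θ i' i) ∧
        NFJ p M' (Sum.elim f (twf g y F (fun t => some (e t)))) n' a' h' := by
  classical
  have : Fintype τ := Fintype.ofFinite τ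
  have hp : p.Prime := Fact.out
  -- the polynomials are not zero
  have hF0 : ∀ t, (F t).support.Nonempty := by
    intro t
    obtain ⟨a, h1, -⟩ := hND k 0 (fun _ => 1) (fun _ => one_ne_zero) t (Or.inl trivial)
    by_contra hcon
    rw [Finset.not_nonempty_iff_eq_empty] at hcon
    apply h1
    unfold der face
    rw [hcon]
    simp
  let B : τ → I → ℤ := fun t => Γ (e t)
  let X : Type := Σ t : τ, {m // m ∈ (F t).support}
  let Γ' : X → I → ℤ := fun q => gm Y (B q.1) q.2.1
  obtain ⟨T', I', iT, iI, M', π, Θ, hOv, hΘ, hC⟩ := hovp k K R0 R T I X M Γ'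
  let Y1 : J → I' → ℤ := fun j => tr Θ (Y j)
  let Γ1 : G → I' → ℤ := fun b => tr Θ (Γ b)
  let B1 : τ → I' → ℤ := fun t => Γ1 (e t)
  let N : τ → I' → ℤ := fun t => nmin (F t) Y1 (B1 t)
  have hN0 := nfj_ov hOv hN
  have hD1 := hD.ov hOv hN.hA
  have hG1 : Fn M' g Γ1 := hG.ov hOv
  have hY1 : Fn M' y Y1 := hY.ov hOv
  -- representation of the multipliers
  have hB : ∀ t t', ∃ w, w ≠ 0 ∧ w ∈ M'.A t' ∧ w⁻¹ ∈ M'.A t' ∧
      (some (e t)).elim 1 g = w * ∏ i, M'.x t' i ^ B1 t i := fun t t' => hG1 (e t) t'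
  choose wb wb0 wbA wbi hwb using hB
  choose w w0 wA wi hw using fun (t' : T') (j : J) => hY1 j t'
  have hn : ∀ t, ∀ m ∈ (F t).support, ∀ i, N t i ≤ gm Y1 (B1 t) m i := fun t m hm i =>
    nmin_le_gm _ _ _ _ m hm
  have hmem : ∀ t t', twf g y F (fun t => some (e t)) t * ∏ i, M'.x t' i ^ (-N t i) ∈ M'.A t' :=
    fun t t' => twist_mem (M'.xA t') (M'.x0 t') Y1 (w0 t') (wA t') (wi t') (hw t') (B1 t)
      (wb0 t t') (wbA t t') (wbi t t') (hwb t t') (F t) (N t) (hn t)
  refine ⟨T', I', iT, iI, M', π, Θ, Sum.elim (fun l => tr Θ (n l)) N,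
    fun t' => Sum.elim (a (π t')) (fun _ => 0),
    fun t' => Sum.elim (h (π t'))
      (fun t => twf g y F (fun t => some (e t)) t * ∏ i, M'.x t' i ^ (-N t i)),
    hOv, hΘ, ?_, ?_, ?_⟩
  · rintro t' (l | t)
    · exact hN0.hA t' l
    · exact hmem t t'
  · rintro t' (l | t)
    · exact hN0.eq t' l
    · simp only [Sum.elim_inr]
      have h1 : (∏ i, M'.x t' i ^ N t i) *
          (twf g y F (fun t => some (e t)) t * ∏ i, M'.x t' i ^ (-N t i)) =
          twf g y F (fun t => some (e t)) t *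
            ((∏ i, M'.x t' i ^ N t i) * ∏ i, M'.x t' i ^ (-N t i)) := by ring
      have h2 : (∏ i, M'.x t' i ^ N t i) * ∏ i, M'.x t' i ^ (-N t i) = 1 := by
        rw [← Finset.prod_mul_distrib]
        refine Finset.prod_eq_one fun i _ => ?_
        rw [← zpow_add₀ (M'.x0 t' i), add_neg_cancel, zpow_zero]
      rw [h1, h2, mul_one, zero_pow hp.ne_zero, zero_add]
  · intro t' κ _ _ φ
    -- the data at the point
    let x := M'.x t'
    have hxA := M'.xA t'
    have hx0 := M'.x0 t'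
    let z := zp φ hxA (wA t') Y1
    let l := ls φ hxA Y1
    have hz : ∀ j, z j ≠ 0 := zp_ne φ hxA Y1 (w0 t') (wA t') (wi t')
    choose c c0 hc using fun t => om_twist φ hxA hx0 Y1 (w0 t') (wA t') (wi t') (hw t') (B1 t)
      (wb0 t t') (wbA t t') (wbi t t') (hwb t t') (F t) (N t) (hn t)
    have hunit : ∀ i, φ ⟨x i, hxA i⟩ = 0 → ¬ (x i)⁻¹ ∈ M'.A t' := by
      intro i hi hi'
      have h1 : φ ⟨x i, hxA i⟩ * φ ⟨(x i)⁻¹, hi'⟩ = 1 := by
        rw [← map_mul, ← map_one φ]
        congr 1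
        exact Subtype.ext (mul_inv_cancel₀ (hx0 i))
      rw [hi, zero_mul] at h1
      exact zero_ne_one h1
    have hΓ' : ∀ (q : Σ t : τ, {m // m ∈ (F t).support}) (i' : I'),
        ∑ i, Θ i' i * Γ' q i = gm Y1 (B1 q.1) q.2.1 i' := by
      intro q i'
      exact tr_gm Θ Y (B q.1) q.2.1 i'
    have hCC : ∀ q q' : Σ t : τ, {m // m ∈ (F t).support},
        (∀ i', gm Y1 (B1 q.1) q.2.1 i' ≤ gm Y1 (B1 q'.1) q'.2.1 i' ∨ (x i')⁻¹ ∈ M'.A t') ∨
        (∀ i', gm Y1 (B1 q'.1) q'.2.1 i' ≤ gm Y1 (B1 q.1) q.2.1 i' ∨ (x i')⁻¹ ∈ M'.A t') := by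
      intro q q'
      rcases hC q q' t' with h1 | h1
      · left
        intro i'
        have h2 := h1 i'
        change (∑ i, Θ i' i * Γ' q i ≤ ∑ i, Θ i' i * Γ' q' i) ∨ _ at h2
        rwa [hΓ', hΓ'] at h2
      · right
        intro i'
        have h2 := h1 i'
        change (∑ i, Θ i' i * Γ' q' i ≤ ∑ i, Θ i' i * Γ' q i) ∨ _ at h2
        rwa [hΓ', hΓ'] at h2
    -- the minimal monomial
    have hCt : ∀ t, ∃ m ∈ (F t).support, ∀ i, φ ⟨x i, hxA i⟩ = 0 → gm Y1 (B1 t) m i = N t i := by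
      intro t0
      obtain ⟨m1, hm1⟩ := hF0 t0
      have : Nonempty {m // m ∈ (F t0).support} := ⟨⟨m1, hm1⟩⟩
      obtain ⟨⟨m0, hm0⟩, hmin⟩ := Pool.Agent.W349.WD.Sum.exists_min
        (fun a b : {m // m ∈ (F t0).support} =>
          ∀ i', gm Y1 (B1 t0) a.1 i' ≤ gm Y1 (B1 t0) b.1 i' ∨ (x i')⁻¹ ∈ M'.A t')
        (fun a b => hCC ⟨t0, a⟩ ⟨t0, b⟩)
        (by
          intro a b c h1 h2 i'
          rcases h1 i' with h3 | h3
          · rcases h2 i' with h4 | h4
            · exact Or.inl (h3.trans h4)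
            · exact Or.inr h4
          · exact Or.inr h3)
      refine ⟨m0, hm0, fun i hi => le_antisymm ?_ (nmin_le_gm _ _ _ _ m0 hm0)⟩
      obtain ⟨m2, hm2, h2⟩ := nmin_eq (F t0) (hF0 t0) Y1 (B1 t0) i
      change _ ≤ nmin (F t0) Y1 (B1 t0) i
      rw [← h2]
      exact (hmin ⟨m2, hm2⟩ i).resolve_right (hunit i hi)
    rintro (j0 | t0)
    · obtain ⟨v0, hv0, hv0'⟩ := hN0.ln t' κ φ j0
      choose α hα using fun j => LGF.exists v0 (w0 t' j) (wA t' j) (wi t' j) (hw t' j)
      have hsb : ∀ b, ∃ s, LGF v0 (Γ1 b) (g b) s := by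
        intro b
        obtain ⟨w', h0', h1', h2', h3'⟩ := hG1 b t'
        exact LGF.exists v0 h0' h1' h2' h3'
      choose sb hsb using hsb
      -- vectors for the correction
      choose av hav1 hav2 using fun t => hND κ l z hz t (Or.inl trivial)
      obtain ⟨cc, hcc1, -⟩ := correct F l z (fun _ => True) (fun _ => True) av
        (fun t _ _ => hav1 t) (fun t t' _ _ _ h4 => hav2 t t' h4 (Or.inl trivial))
        (fun t => -(sb (e t) * vl (F t) l z))
      obtain ⟨vD, hvD1, hvD2, hvD3⟩ := hD1 t' κ φ (fun j => cc j - α j)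
      refine ⟨ltAdd v0 vD 1, ?_, ?_⟩
      · change om (ltAdd v0 vD 1) (tr Θ (n j0)) (hN0.hA t' j0) ≠ 0
        rw [om_ltAdd, hvD1 j0, mul_zero, add_zero]
        exact hv0
      · rintro (l' | t) hne
        · change om (ltAdd v0 vD 1) (tr Θ (n l')) (hN0.hA t' l') = 0
          rw [om_ltAdd, hvD1 l', mul_zero, add_zero]
          exact hv0' l' fun h => hne (by rw [h])
        · have hy' : ∀ j, LGF (ltAdd v0 vD 1) (Y1 j) (y j) (cc j) := by
            intro j
            have h1 := LGF.add 1 hx0 (hα j) (hvD3 j)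
            have h2 : α j + 1 * (cc j - α j) = cc j := by ring
            rw [h2] at h1
            exact h1
          have hg' : ∀ b, LGF (ltAdd v0 vD 1) (Γ1 b) (g b) (sb b) := by
            intro b
            have h1 := LGF.add 1 hx0 (hsb b) (hvD2 b)
            rw [mul_zero, add_zero] at h1
            exact h1
          have h3 := hc t (ltAdd v0 vD 1) cc _ hy' (hg' (e t)) (hmem t t')
          refine Eq.trans h3 ?_
          split_ifs with hCt'
          · have h4 : der (F t) (ls φ hxA Y1) (zp φ hxA (wA t') Y1) cc =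
                -(sb (e t) * vl (F t) l z) := hcc1 t trivial trivial
            rw [h4]
            change c t * (sb (e t) * vl (F t) l z + -(sb (e t) * vl (F t) l z)) = 0
            rw [add_neg_cancel, mul_zero]
          · rfl
    · obtain ⟨av, hav1, hav2⟩ := hND κ l z hz t0 (Or.inl trivial)
      obtain ⟨vD, hvD1, hvD2, hvD3⟩ := hD1 t' κ φ av
      have hval : ∀ t, om vD (N t) (hmem t t') = c t * der (F t) l z av := by
        intro t
        have h3 := hc t vD av _ hvD3 (hvD2 (e t)) (hmem t t')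
        rw [zero_mul, zero_add, if_pos (hCt t)] at h3
        exact h3
      refine ⟨vD, ?_, ?_⟩
      · change om vD (N t0) (hmem t0 t') ≠ 0
        rw [hval]
        exact mul_ne_zero (c0 t0) hav1
      · rintro (l' | t) hne
        · exact hvD1 l' (hN0.hA t' l')
        · change om vD (N t) (hmem t t') = 0
          rw [hval, hav2 t (fun h => hne (by rw [h])) (Or.inl trivial), mul_zero]

end main

end Pool.Agent.TH214
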